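import Pool.Agent.H413R3.OddT.Alg
import Pool.Agent.H397R2.PP.TH

set_option autoImplicit false

/-!
# Odd values of the number of `t`-multipartitions for all odd `t`: the algebraic part
-/

namespace Pool.Agent.L7h67.OD

open PowerSeries Pool.Agent.H397R2.PP
open Pool.Agent.H307R2.OP (sp)
open Pool.Agent.H307R2.OP.OC (sp_zero sp_pow)
open Pool.Agent.H413R3.Part
open Pool.Agent.H413R3.OddT (sp_two_mul_add sp_high ocT existsOddT)
open Pool.Agent.H397R2.PP.TH

/-- odd values of `p_t` from an odd coefficient, `t` a multiple of 3 -/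
theorem existsOddC (t s e m N : ℕ) (ht : t = 3 * s) (hm : m + s = 2 ^ e)
    (h : coeff N (Db ^ m) = 1) :
    ∃ n u : ℕ, Odd (mp t n) ∧ 8 * n + 2 ^ e * u ^ 2 = N + s := by
  have hM : (2 ^ e : ℕ) ≠ 0 := by positivity
  set M : ℕ := 2 ^ e with hMdef
  set F : (ZMod 2)⟦X⟧ := PowerSeries.mk fun n => (Fintype.card (Nat.Partition n) : ZMod 2)
    with hF
  set f : (ZMod 2)⟦X⟧ := pentagonalSeries (ZMod 2) with hf
  have hFf : F * f = 1 := mk_card_mul_pentagonalSeries (ZMod 2)
  have h1 : ∀ m : ℕ, Db ^ m = X ^ m * PowerSeries.expand 8 (by norm_num) (f ^ (3 * m)) := by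
    intro m
    rw [← pow_eq_expand' 8 3 (by norm_num) (by norm_num), Db, mul_pow, ← pow_mul, ← pow_mul]
    congr 2
    ring
  have hN : ∃ n0 : ℕ, N = 8 * n0 + m := by
    rw [h1, coeff_X_pow_mul'] at h
    split_ifs at h with hmN
    · rw [coeff_expand] at h
      split_ifs at h with hd
      · obtain ⟨c, hc⟩ := hd
        exact ⟨c, by omega⟩
      · exact absurd h (by decide)
    · exact absurd h (by decide)
  obtain ⟨n0, rfl⟩ := hN
  rw [h1, coeff_X_pow_mul, coeff_expand_mul] at h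
  have h2 : f ^ (3 * m) = F ^ t * PowerSeries.expand M hM (f ^ 3) := by
    rw [← pow_eq_expand' M e hM hMdef]
    have e1 : F ^ t * f ^ t = 1 := by rw [← mul_pow, hFf, one_pow]
    have e2 : (f ^ 3) ^ M = f ^ (3 * m) * f ^ t := by
      rw [← pow_mul, ← pow_add]
      congr 1
      omega
    rw [e2, mul_left_comm, e1, mul_one]
  rw [h2, coeff_mul] at h
  have hne : (∑ p ∈ Finset.HasAntidiagonal.antidiagonal n0,
      coeff p.1 (F ^ t) * coeff p.2 (PowerSeries.expand M hM (f ^ 3))) ≠ 0 := by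
    rw [h]
    decide
  obtain ⟨⟨a, b⟩, hab, hp⟩ := Finset.exists_ne_zero_of_sum_ne_zero hne
  rw [Finset.HasAntidiagonal.mem_antidiagonal] at hab
  simp only at hab hp
  have hp1 : coeff a (F ^ t) ≠ 0 := left_ne_zero_of_mul hp
  have hp2 : coeff b (PowerSeries.expand M hM (f ^ 3)) ≠ 0 := right_ne_zero_of_mul hp
  rw [hF, coeff_pow_eq] at hp1
  rw [coeff_expand] at hp2
  split_ifs at hp2 with hd
  · obtain ⟨c, rfl⟩ := hd
    rw [Nat.mul_div_cancel_left _ (by positivity)] at hp2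
    have h3 : coeff (8 * c + 1) Db = coeff c (f ^ 3) := by
      have h4 := h1 1
      rw [pow_one] at h4
      rw [h4, coeff_X_pow_mul, coeff_expand_mul, mul_one]
    rw [← h3, Db_ind, coeff_ind] at hp2
    split_ifs at hp2 with hsq
    · obtain ⟨i, hi⟩ := hsq
      refine ⟨a, 2 * i + 1, ?_, ?_⟩
      · rw [← Nat.not_even_iff_odd]
        intro he
        exact hp1 ((ZMod.natCast_eq_zero_iff_even).2 he)
      · rw [← hi]
        have e3 : M * (8 * c + 1) = 8 * (M * c) + M := by ring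
        omega
    · exact absurd rfl hp2
  · exact absurd rfl hp2

/-! ### codes -/

/-- de-interleaving of the binary digits -/
theorem digits2 (j : ℕ) : ∃ e o : ℕ, j = sp e + 2 * sp o ∧
    (∀ i, Nat.testBit j (2 * i) = Nat.testBit e i) ∧
    (∀ i, Nat.testBit j (2 * i + 1) = Nat.testBit o i) := by
  induction j using Nat.strong_induction_on with
  | _ j ih =>
    rcases Nat.eq_zero_or_pos j with h0 | hpos
    · subst h0
      exact ⟨0, 0, by simp [sp_zero], fun i => by simp, fun i => by simp⟩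
    · obtain ⟨e, o, h1, h2, h3⟩ := ih (j / 4) (by omega)
      refine ⟨2 * e + j % 2, 2 * o + (j / 2) % 2, ?_, ?_, ?_⟩
      · rw [sp_two_mul_add _ _ (Nat.mod_lt _ (by norm_num)),
          sp_two_mul_add _ _ (Nat.mod_lt _ (by norm_num))]
        omega
      · intro i
        rcases i with _ | i
        · simp only [Nat.testBit_eq_decide_div_mod_eq]
          norm_num
        · have h4 := h2 i
          have e1 : Nat.testBit j (2 * (i + 1)) = Nat.testBit (j / 4) (2 * i) := by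
            have h5 : j / 4 = j / 2 / 2 := by omega
            rw [h5, show 2 * (i + 1) = (2 * i) + 1 + 1 by ring, Nat.testBit_succ,
              Nat.testBit_succ]
          have e2 : Nat.testBit (2 * e + j % 2) (i + 1) = Nat.testBit e i := by
            rw [Nat.testBit_succ]
            congr 1
            omega
          rw [e1, e2, h4]
      · intro i
        rcases i with _ | i
        · simp only [Nat.testBit_eq_decide_div_mod_eq]
          norm_num
        · have h4 := h3 i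
          have e1 : Nat.testBit j (2 * (i + 1) + 1) = Nat.testBit (j / 4) (2 * i + 1) := by
            have h5 : j / 4 = j / 2 / 2 := by omega
            rw [h5, show 2 * (i + 1) + 1 = (2 * i + 1) + 1 + 1 by ring, Nat.testBit_succ,
              Nat.testBit_succ]
          have e2 : Nat.testBit (2 * o + (j / 2) % 2) (i + 1) = Nat.testBit o i := by
            rw [Nat.testBit_succ]
            congr 1
            omega
          rw [e1, e2, h4]

theorem sp_rec (n : ℕ) : sp n = 4 * sp (n / 2) + n % 2 := by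
  conv_lhs => rw [← Nat.div_add_mod n 2]
  exact sp_two_mul_add _ _ (Nat.mod_lt _ (by norm_num))

theorem lt_of_sp (k : ℕ) : ∀ n : ℕ, sp n < 4 ^ k → n < 2 ^ k := by
  induction k with
  | zero =>
    intro n h
    rcases Nat.eq_zero_or_pos n with h0 | h0
    · subst h0; norm_num
    · exfalso
      have h1 : ∀ n : ℕ, 0 < n → 0 < sp n := by
        intro n
        induction n using Nat.strong_induction_on with
        | _ n ih =>
          intro hn
          rw [sp_rec]
          rcases Nat.eq_zero_or_pos (n % 2) with h2 | h2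
          · have := ih (n / 2) (by omega) (by omega)
            omega
          · omega
      have := h1 n h0
      simp at h
      omega
  | succ k ih =>
    intro n h
    rw [sp_rec, pow_succ] at h
    have := ih (n / 2) (by omega)
    rw [pow_succ]
    omega

/-- adding high digits -/
theorem sp_add_high {k r u : ℕ} (hk : k ≤ r) (hu : u < 2 ^ k) :
    3 * sp (2 ^ r - 2 ^ k + u) + 4 ^ k = 4 ^ r + 3 * sp u := by
  have h1 : 2 ^ r - 2 ^ k + u = 2 ^ k * (2 ^ (r - k) - 1) + u := by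
    have : 2 ^ r = 2 ^ k * 2 ^ (r - k) := by
      rw [← pow_add]
      congr 1
      omega
    rw [this, Nat.mul_sub, mul_one]
  have h2 := sp_pow (r - k)
  rw [h1, sp_high k _ _ hu]
  have h3 : 4 ^ r = 4 ^ k * 4 ^ (r - k) := by
    rw [← pow_add]
    congr 1
    omega
  rw [h3, ← h2]
  ring

theorem code_mod8 (a b : ℕ) :
    ((2 * sp a + 4 * sp b + 1 : ℕ) : ZMod 8) = (3 : ZMod 8) ^ a * (5 : ZMod 8) ^ b := by
  have h3 : (3 : ZMod 8) ^ 2 = 1 := by decide
  have h5 : (5 : ZMod 8) ^ 2 = 1 := by decide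
  have h8 : (8 : ZMod 8) = 0 := by decide
  rw [sp_rec a, sp_rec b]
  obtain ⟨a', ha'⟩ : ∃ a', a' = sp (a / 2) := ⟨_, rfl⟩
  obtain ⟨b', hb'⟩ : ∃ b', b' = sp (b / 2) := ⟨_, rfl⟩
  rw [← ha', ← hb']
  have e1 : (3 : ZMod 8) ^ a = 3 ^ (a % 2) := by
    conv_lhs => rw [← Nat.div_add_mod a 2, pow_add, pow_mul, h3, one_pow, one_mul]
  have e2 : (5 : ZMod 8) ^ b = 5 ^ (b % 2) := by
    conv_lhs => rw [← Nat.div_add_mod b 2, pow_add, pow_mul, h5, one_pow, one_mul]
  rw [e1, e2]
  have e3 : ((2 * (4 * a' + a % 2) + 4 * (4 * b' + b % 2) + 1 : ℕ) : ZMod 8) =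
      ((2 * (a % 2) + 4 * (b % 2) + 1 : ℕ) : ZMod 8) := by
    push_cast
    linear_combination ((a' : ZMod 8) + 2 * (b' : ZMod 8)) * h8
  rw [e3]
  rcases Nat.mod_two_eq_zero_or_one a with h | h <;>
  rcases Nat.mod_two_eq_zero_or_one b with h' | h' <;> rw [h, h'] <;> decide

/-! ### the exponents -/

/-- `t ≡ 1 (mod 3)` -/
theorem expA (t : ℕ) (h3 : t % 3 = 1) (h2 : t % 2 = 1) :
    ∃ k o m0 : ℕ, 1 ≤ k ∧ m0 < 2 ^ (k - 1) ∧ (t % 4 = 3 → o % 2 = 1) ∧
    ∀ r, k ≤ r → 3 * (2 * sp o + 4 * sp (2 ^ (r - 1) - 2 ^ (k - 1) + m0) + 1) + t = 4 ^ r := by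
  obtain ⟨k, hk⟩ : ∃ k, t < 4 ^ k := ⟨t, Nat.lt_pow_self (by norm_num)⟩
  have hk1 : 1 ≤ k := by
    rcases Nat.eq_zero_or_pos k with h | h
    · subst h
      simp at hk
      omega
    · exact h
  have h43 : (4 : ℕ) ^ k % 3 = 1 := by
    rw [Nat.pow_mod]; norm_num
  have h7 : 4 ^ k = 4 * 4 ^ (k - 1) := by
    rw [← pow_succ']
    congr 1
    omega
  set j := (4 ^ k - t) / 3 with hj
  have hj3 : 3 * j + t = 4 ^ k := by omega
  obtain ⟨e, o, e1, e2, e3⟩ := digits2 j
  have he2 := sp_rec e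
  have ho2 := sp_rec o
  have he1 : e % 2 = 1 := by omega
  have ho1 : t % 4 = 3 → o % 2 = 1 := by omega
  have hsk : sp (e / 2) < 4 ^ (k - 1) := by omega
  have helt := lt_of_sp (k - 1) (e / 2) hsk
  refine ⟨k, o, e / 2, hk1, helt, ho1, fun r hr => ?_⟩
  have h4 := sp_add_high (k := k - 1) (r := r - 1) (u := e / 2) (by omega) helt
  have h6 : 4 ^ r = 4 * 4 ^ (r - 1) := by
    rw [← pow_succ']
    congr 1
    omega
  omega

/-- `t ≡ 2 (mod 3)` -/
theorem expB (t : ℕ) (h3 : t % 3 = 2) (h2 : t % 2 = 1)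
    (hex : t % 24 = 23 → ∃ r i : ℕ, t < 2 * 4 ^ r ∧
      Nat.testBit ((2 * 4 ^ r - t) / 3) (2 * i + 2) = true) :
    ∃ k o m0 : ℕ, o < 2 ^ k ∧ (t % 4 = 3 → 1 ≤ m0) ∧
    ∀ r, k ≤ r → 3 * (2 * sp (2 ^ r - 2 ^ k + o) + 4 * sp m0 + 1) + t = 2 * 4 ^ r := by
  have key : ∀ k, t < 2 * 4 ^ k → 1 ≤ k → ∃ o m0 : ℕ, o < 2 ^ k ∧
      (∀ i, Nat.testBit ((2 * 4 ^ k - t) / 3) (2 * i + 2) = Nat.testBit m0 i) ∧
      (t % 8 = 3 → 1 ≤ m0) ∧
      ∀ r, k ≤ r → 3 * (2 * sp (2 ^ r - 2 ^ k + o) + 4 * sp m0 + 1) + t = 2 * 4 ^ r := by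
    intro k hk hk1
    have h43 : (4 : ℕ) ^ k % 3 = 1 := by
      rw [Nat.pow_mod]; norm_num
    have h7 : 4 ^ k = 4 * 4 ^ (k - 1) := by
      rw [← pow_succ']
      congr 1
      omega
    set j := (2 * 4 ^ k - t) / 3 with hj
    have hj3 : 3 * j + t = 2 * 4 ^ k := by omega
    obtain ⟨e, o, e1, e2, e3⟩ := digits2 j
    have he2 := sp_rec e
    have ho2 := sp_rec o
    have he1 : e % 2 = 1 := by omega
    have holt := lt_of_sp k o (by omega)
    refine ⟨o, e / 2, holt, ?_, ?_, fun r hr => ?_⟩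
    · intro i
      rw [show 2 * i + 2 = 2 * (i + 1) by ring, e2, Nat.testBit_succ]
    · intro h8
      by_contra hcon
      have h0 : e / 2 = 0 := by omega
      rw [h0, sp_zero] at he2
      omega
    · have h4 := sp_add_high (k := k) (r := r) (u := o) hr holt
      omega
  by_cases h24 : t % 24 = 23
  · obtain ⟨r, i, hr, hbit⟩ := hex h24
    have hr1 : 1 ≤ r := by
      rcases Nat.eq_zero_or_pos r with h | h
      · subst h
        simp at hr
        omega
      · exact h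
    obtain ⟨o, m0, h4, h5, h6, h7⟩ := key r hr hr1
    refine ⟨r, o, m0, h4, fun _ => ?_, h7⟩
    by_contra hcon
    have h0 : m0 = 0 := by omega
    rw [h5 i, h0] at hbit
    simp at hbit
  · obtain ⟨k, hk⟩ : ∃ k, t < 4 ^ k := ⟨t, Nat.lt_pow_self (by norm_num)⟩
    have hk1 : 1 ≤ k := by
      rcases Nat.eq_zero_or_pos k with h | h
      · subst h
        simp at hk
        omega
      · exact h
    obtain ⟨o, m0, h4, h5, h6, h7⟩ := key k (by omega) hk1
    exact ⟨k, o, m0, h4, fun h => h6 (by omega), h7⟩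

/-- `t = 3 s` -/
theorem expC (s : ℕ) (h2 : s % 2 = 1) :
    ∃ k o m0 : ℕ, 1 ≤ k ∧ o < 2 ^ k ∧ m0 < 2 ^ (k - 1) ∧
    ∀ r, k ≤ r → 2 * sp (2 ^ r - 2 ^ k + o) + 4 * sp (2 ^ (r - 1) - 2 ^ (k - 1) + m0) + 1 + s =
      4 ^ r := by
  obtain ⟨k, hk⟩ : ∃ k, s < 4 ^ k := ⟨s, Nat.lt_pow_self (by norm_num)⟩
  have hk1 : 1 ≤ k := by
    rcases Nat.eq_zero_or_pos k with h | h
    · subst h
      simp at hk
      omega
    · exact h
  have h7 : 4 ^ k = 4 * 4 ^ (k - 1) := by
    rw [← pow_succ']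
    congr 1
    omega
  set j := 4 ^ k - s with hj
  have hj3 : j + s = 4 ^ k := by omega
  obtain ⟨e, o, e1, e2, e3⟩ := digits2 j
  have he2 := sp_rec e
  have ho2 := sp_rec o
  have he1 : e % 2 = 1 := by omega
  have holt := lt_of_sp k o (by omega)
  have helt := lt_of_sp (k - 1) (e / 2) (by omega)
  refine ⟨k, o, e / 2, hk1, holt, helt, fun r hr => ?_⟩
  have h4 := sp_add_high (k := k - 1) (r := r - 1) (u := e / 2) (by omega) helt
  have h5 := sp_add_high (k := k) (r := r) (u := o) hr holt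
  have h6 : 4 ^ r = 4 * 4 ^ (r - 1) := by
    rw [← pow_succ']
    congr 1
    omega
  omega

end Pool.Agent.L7h67.OD
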