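import Pool.Agent.H307R2.OP.DefsC

set_option autoImplicit false

/-!
# Odd values of `p_t` for all odd `t`: definitions and statements of the analytic part
(generalisation of `Pool.Agent.H307R2.OP.DefsB` and `DefsC`: the representations
`w N = δ s² + 2 ^ e0 4 ^ r u²`, kernels `δ ≡ d4 (mod 4)`, blocks of primes of both classes 3 and 5)
-/

namespace Pool.Agent.L7h67.OD

open Finset
open Pool.Agent.H307R2.OP (J PB BadAt Bad Pr2 kap rr)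

/-- the type of the representations `w N = δ s² + 2 ^ e0 4 ^ r u²`, `δ ≡ d4 (mod 4)` -/
structure Ty where
  w : ℕ
  e0 : ℕ
  d4 : ℕ

namespace Ty

variable (T : Ty)

/-- the types that occur -/
structure Ok : Prop where
  hw : T.w = 1 ∨ T.w = 3
  he : T.e0 = 0 ∨ T.e0 = 1
  hd : T.d4 = 1 ∨ T.d4 = 3

/-- the sign of the class of `q` modulo 8 -/
def sg (q : ℕ) : ℤ :=
  (if T.d4 = 1 ∧ q % 4 = 3 then -1 else 1) *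
    (if T.e0 = 1 ∧ (q % 8 = 3 ∨ q % 8 = 5) then -1 else 1)

/-- the character of the kernel `δ`: the Jacobi symbol `(-2 ^ e0 δ | q)` for primes `q ≥ 3` -/
noncomputable def X (q δ : ℕ) : ℝ := (T.sg q : ℝ) * J q δ

/-- the kernels -/
def Adm (δ : ℕ) : Prop := δ % 4 = T.d4 ∧ Squarefree δ

/-- the coefficient of `u²` -/
def E (r : ℕ) : ℕ := 2 ^ T.e0 * 4 ^ r

/-- `w N = δ s² + 2 ^ e0 4 ^ r u²` -/
def Rep (r δ N : ℕ) : Prop := ∃ s u : ℕ, T.w * N = δ * s ^ 2 + T.E r * u ^ 2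

/-- the roots modulo `p` -/
def Om (r δ s p : ℕ) : Finset ℕ := (range p).filter (fun u => p ∣ δ * s ^ 2 + T.E r * u ^ 2)

/-- almost all primes of the class `c` of the block are split -/
def StrongAt (c i δ : ℕ) : Prop :=
  ∑ p ∈ (PB i c).filter (fun p => T.X p δ = -1), (1 : ℝ) / p < 1 / 40 * ∑ p ∈ PB i c, (1 : ℝ) / p

end Ty

/-- a configuration: `M` blocks of primes, `k j` primes of the class `cl j` from the block `κ j`,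
fixed primes `R`, the class `c` modulo 8 of the large prime -/
structure Cfg (M : ℕ) where
  I : ℕ
  r : ℕ
  κ : Fin M → ℕ
  cl : Fin M → ℕ
  k : Fin M → ℕ
  R : Finset ℕ
  c : ℕ

namespace Cfg

variable {M : ℕ} (g : Cfg M)

/-- the primes of a block, without the fixed primes -/
def Blk (j : Fin M) : Finset ℕ := PB (g.κ j) (g.cl j) \ g.R

/-- the mass of a block -/
noncomputable def S (j : Fin M) : ℝ := ∑ q ∈ g.Blk j, (1 : ℝ) / q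

/-- the mass of the family -/
noncomputable def W : ℝ := ∏ j, (g.S j ^ g.k j / ((g.k j).factorial : ℝ))

/-- the family of the choices of small primes -/
def Fam : Finset (Fin M → Finset ℕ) :=
  Fintype.piFinset (fun j => powersetCard (g.k j) (g.Blk j))

/-- the product of the fixed primes -/
def Rp : ℕ := ∏ q ∈ g.R, q

/-- the product of the chosen small primes -/
def Q (_ : Cfg M) (A : Fin M → Finset ℕ) : ℕ := ∏ j, ∏ q ∈ A j, q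

/-- the large primes -/
def Pr (A : Fin M → Finset ℕ) : Finset ℕ :=
  (Ioc (2 ^ (g.I / 2)) (2 ^ g.I / (g.Rp * g.Q A))).filter (fun p => p.Prime ∧ p % 8 = g.c)

/-- the tuples `(A, p)` -/
def Tup : Finset (Σ _ : Fin M → Finset ℕ, ℕ) := g.Fam.sigma g.Pr

/-- the number of a tuple -/
def N (t : Σ _ : Fin M → Finset ℕ, ℕ) : ℕ := g.Rp * g.Q t.1 * t.2

/-- the bound for `u` -/
noncomputable def U : ℝ := Real.sqrt (3 * 2 ^ g.I) / 2 ^ g.r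

/-- admissible configurations -/
structure Ok : Prop where
  inj : Function.Injective g.κ
  hr : 3 ≤ g.r
  hrI : 100 * g.r ≤ g.I
  hI : 800 ≤ g.I
  hR : ∀ q ∈ g.R, q.Prime ∧ 5 ≤ q ∧ (q % 8 = 3 ∨ q % 8 = 5)
  hκ : ∀ j, 3 ≤ g.κ j
  hRQ : ∀ A ∈ g.Fam, g.Rp * g.Q A ≤ 2 ^ (g.I / 8)
  hc : g.c = 3 ∨ g.c = 5
  hcl : ∀ j, g.cl j = 3 ∨ g.cl j = 5

end Cfg

/-! ### Statements -/

/-- quadratic residues -/
structure QRStmt (T : Ty) : Prop where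
  val : ∀ q δ : ℕ, T.X q δ = -1 ∨ T.X q δ = 0 ∨ T.X q δ = 1
  kill : ∀ r δ N q : ℕ, T.Adm δ → q.Prime → 5 ≤ q → T.X q δ = -1 → q ∣ N → ¬ q ^ 2 ∣ N →
    ¬ T.Rep r δ N
  om_card : ∀ r δ s q : ℕ, T.Adm δ → q.Prime → 5 ≤ q → ¬ q ∣ s →
    ((T.Om r δ s q).card : ℝ) = 1 + T.X q δ
  om_zero : ∀ r δ s q : ℕ, T.Adm δ → q.Prime → 5 ≤ q → q ∣ s → T.Om r δ s q = {0}

open Classical in
/-- the number of biased kernels -/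
def BadAtCount (T : Ty) : Prop := ∀ I i Δ m : ℕ, 1 ≤ I → 1 ≤ i → 1 ≤ m → Δ ^ 3 ≤ 2 ^ ((i + 1) * m) →
  (((Icc 1 Δ).filter (fun δ => T.Adm δ ∧ BadAt I i δ)).card : ℝ) ≤ 16 * (2 * m * (I : ℝ) ^ 4) ^ m

/-- primes in the classes 3 and 5 modulo 8 -/
structure PCStmt : Prop where
  low : ∃ x0 : ℕ, ∀ x : ℕ, x0 ≤ x → ∀ c : ℕ, c = 3 ∨ c = 5 →
    (x : ℝ) / (5 * Real.log x) ≤ (((Icc 1 x).filter (fun p => p.Prime ∧ p % 8 = c)).card : ℝ)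
  block : ∃ i0 : ℕ, ∀ i : ℕ, i0 ≤ i → ∀ c : ℕ, c = 3 ∨ c = 5 →
    0.99 * (2 : ℝ) ^ i / (4 * i * Real.log 2) ≤ ((PB i c).card : ℝ)
  mass : ∃ i0 : ℕ, ∀ i : ℕ, i0 ≤ i → ∀ c : ℕ, c = 3 ∨ c = 5 →
    1 / (6 * (i : ℝ)) ≤ ∑ p ∈ PB i c, (1 : ℝ) / p
  up : ∃ C : ℝ, 0 < C ∧ ∀ x : ℕ, 2 ≤ x →
    (((Icc 1 x).filter Nat.Prime).card : ℝ) ≤ C * x / Real.log x

/-- at most three strongly biased kernels `> 1` -/
def StrongStmt (T : Ty) : Prop := ∃ C : ℕ, ∀ c i Δ δ1 δ2 δ3 : ℕ, (c = 3 ∨ c = 5) → C ≤ i →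
  Δ ^ C ≤ 2 ^ i → T.Adm δ1 → T.Adm δ2 → T.Adm δ3 → 1 < δ1 → 1 < δ2 → 1 < δ3 →
  δ1 ≤ Δ → δ2 ≤ Δ → δ3 ≤ Δ → δ1 ≠ δ2 → δ1 ≠ δ3 → δ2 ≠ δ3 → ¬ IsSquare (δ1 * δ2 * δ3) →
  T.StrongAt c i δ1 → T.StrongAt c i δ2 → T.StrongAt c i δ3 → False

/-- a small prime of the class `c` modulo 8 with given value of the Jacobi symbol -/
def KillPrime : Prop := ∃ C : ℕ, ∀ (δ c : ℕ) (σ : ℤ), 1 < δ → Squarefree δ → δ % 2 = 1 →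
  (c = 3 ∨ c = 5) → (σ = 1 ∨ σ = -1) → ∃ q : ℕ, q.Prime ∧ 5 ≤ q ∧ q % 8 = c ∧
  jacobiSym (q : ℤ) δ = σ ∧ q ≤ C * δ ^ C

open Classical in
/-- the number of `u` for a fixed choice of the small primes -/
def FixStmt (T : Ty) : Prop := ∀ (r δ s U D z K : ℕ) (A P : Finset ℕ), T.Adm δ → 1 ≤ D →
  (∀ q ∈ A, q.Prime ∧ 5 ≤ q) → (∀ p ∈ P, p.Prime ∧ 64 ≤ p ∧ p ≤ z ∧ p ∉ A) → z ^ K ≤ D →
  8 * (∑ p ∈ P, ((T.Om r δ s p).card : ℝ) / p) + 8 ≤ K → (∑ p ∈ P, (4 : ℝ) / p ^ 2) ≤ 1 →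
  (((range (U + 1)).filter (fun u => ∃ p : ℕ, p.Prime ∧ z < p ∧ p ∉ A ∧
      T.w * ((∏ q ∈ A, q) * p) = δ * s ^ 2 + T.E r * u ^ 2)).card : ℝ) ≤
    (∏ q ∈ A, (1 + T.X q δ)) * (16 * ((U : ℝ) / (∏ q ∈ A, (q : ℝ)) + 1) *
      Real.exp (-∑ p ∈ P, ((T.Om r δ s p).card : ℝ) / p) + (D : ℝ) ^ 6)

/-- the sieving mass for a good kernel -/
def SigStmt (T : Ty) : Prop := ∃ C : ℝ, 0 < C ∧ ∀ (I i0 i1 r δ s : ℕ) (A : Finset ℕ), 3 ≤ i0 →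
  i0 ≤ i1 → i1 ≤ I → I ≤ 2 ^ i0 → T.Adm δ → ¬ Bad I i0 δ → 1 ≤ s → s ≤ 2 ^ I → A.card ≤ I →
  (Real.log i1 - Real.log i0 - C ≤ ∑ p ∈ Pr2 i0 i1 \ A, ((T.Om r δ s p).card : ℝ) / p) ∧
  (∑ p ∈ Pr2 i0 i1 \ A, ((T.Om r δ s p).card : ℝ) / p ≤ 2 * Real.log I + C)

/-- the prime factors of the number of a tuple -/
def TupStmt : Prop := ∀ (M : ℕ) (g : Cfg M), g.Ok → ∀ t ∈ g.Tup, ∃ s : Finset ℕ,
  (∀ q ∈ s, q.Prime ∧ 5 ≤ q ∧ (q % 8 = 3 ∨ q % 8 = 5)) ∧ ∏ q ∈ s, q = g.N t ∧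
  s.card = ∑ j, g.k j + g.R.card + 1 ∧
  (s.filter (fun q => q % 8 = 3)).card = ∑ j, (if g.cl j = 3 then g.k j else 0) +
    (g.R.filter (fun q => q % 8 = 3)).card + (if g.c = 3 then 1 else 0) ∧
  g.R ⊆ s ∧ (∀ j, t.1 j ⊆ s) ∧ (∀ q ∈ s, q ∣ g.N t ∧ ¬ q ^ 2 ∣ g.N t) ∧ g.N t ≤ 2 ^ g.I

open Classical in
/-- tuples represented by a large kernel -/
def TupLarge (T : Ty) : Prop := ∀ (M : ℕ) (g : Cfg M), g.Ok → ∀ δ : ℕ, T.Adm δ →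
  ((g.Tup.filter (fun t => T.Rep g.r δ (g.N t))).card : ℝ) ≤
    Real.sqrt (3 * 2 ^ g.I / δ) * 2 ^ (∑ j, g.k j + g.R.card + 1) * (g.U / g.Rp) * g.W

open Classical in
/-- tuples represented by a small kernel that is not strongly biased -/
def TupSmall (T : Ty) : Prop := ∃ C : ℝ, 0 < C ∧ ∀ (M : ℕ) (g : Cfg M), g.Ok → ∀ δ : ℕ, T.Adm δ →
  ∀ (j : Fin M) (θ : ℝ), 0 ≤ θ → θ ≤ 1 →
  ∑ q ∈ (g.Blk j).filter (fun q => T.X q δ ≠ -1), (1 : ℝ) / q ≤ (1 - θ) * g.S j →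
  ((g.Tup.filter (fun t => T.Rep g.r δ (g.N t))).card : ℝ) ≤
    C * (2 ^ g.I / (g.Rp * g.I)) * g.W * (1 - θ) ^ (g.k j)

/-- multiplicity of a good value -/
def GoodCount (T : Ty) : Prop := ∃ C : ℝ, 0 < C ∧ ∃ I0 : ℕ, ∀ (M : ℕ) (g : Cfg M), g.Ok →
  I0 ≤ g.I → ∀ i0 : ℕ, 6 ≤ i0 → g.I ≤ 2 ^ i0 → 4000 * i0 * (Nat.log 2 g.I + 1) ≤ g.I →
  (∀ j, i0 ≤ g.κ j ∧ g.κ j ≤ g.I) → ∑ j, g.k j + g.R.card ≤ g.I →
  ∀ δ s : ℕ, T.Adm δ → ¬ Bad g.I i0 δ → 1 ≤ s → δ * s ^ 2 ≤ 3 * 2 ^ g.I →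
  (((g.Tup ×ˢ range (2 ^ g.I + 1)).filter
      (fun x => T.w * g.N x.1 = δ * s ^ 2 + T.E g.r * x.2 ^ 2)).card : ℝ) ≤
    C * 2 ^ g.R.card * (g.U / g.Rp) *
      (∏ j, ((g.S j + 1 / (g.I : ℝ) ^ 2 + g.R.card / 2 ^ (g.κ j)) ^ g.k j /
        ((g.k j).factorial : ℝ))) * (i0 * (Nat.log 2 g.I + 1) / g.I)

open Classical in
/-- the large bad kernels -/
def BadSum (T : Ty) : Prop := ∀ M : ℕ, 1 ≤ M → ∃ y0 : ℕ, ∀ y : ℕ, y0 ≤ y → ∀ I : ℕ,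
  y ^ (2 * M + 4) ≤ I → I ≤ 2 * y ^ (2 * M + 4) →
  ∑ δ ∈ (Icc 1 (3 * 2 ^ I)).filter
      (fun δ => T.Adm δ ∧ Bad I y δ ∧ 2 ^ (8 * y ^ (2 * M - 1)) < δ), 1 / Real.sqrt δ ≤
    1 / (2 : ℝ) ^ (2 * y ^ (2 * M - 1))

open Classical in
/-- the number of the small bad kernels -/
def BadNum (T : Ty) : Prop := ∀ M : ℕ, 1 ≤ M → ∀ η : ℝ, 0 < η → ∃ y0 : ℕ, ∀ y : ℕ, y0 ≤ y →
  ∀ I : ℕ, y ^ (2 * M + 4) ≤ I → I ≤ 2 * y ^ (2 * M + 4) →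
  (((Icc 1 (2 ^ (8 * y ^ (2 * M - 1)))).filter (fun δ => T.Adm δ ∧ Bad I y δ)).card : ℝ) ≤
    (2 : ℝ) ^ (η * (y : ℝ) ^ (2 * M - 1)) ∧
  ∀ j : ℕ, j + 1 < M →
    (((Icc 1 (2 ^ (8 * y ^ (2 * M - 1)))).filter
      (fun δ => T.Adm δ ∧ BadAt I (kap M y (j + 1)) δ)).card : ℝ) ≤
    (2 : ℝ) ^ (η * (y : ℝ) ^ (2 * j + 1))

/-- a strongly biased kernel is bad -/
def StrongBad (T : Ty) : Prop := ∃ C : ℕ, ∀ c I i δ : ℕ, (c = 3 ∨ c = 5) → C ≤ i → i ≤ I →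
  I ≤ 2 ^ (i / 4) → 1 ≤ δ → δ ≤ 2 ^ I → T.StrongAt c i δ → BadAt I i δ

/-- lower bound for the number of tuples in a residue class -/
def TupLowAP : Prop := ∃ c0 : ℝ, 0 < c0 ∧ ∃ I0 : ℕ, ∀ (M : ℕ) (g : Cfg M), g.Ok → I0 ≤ g.I →
  (∀ j, 2 * (g.k j : ℝ) ^ 2 ≤ 2 ^ (g.κ j) * g.S j) → ∀ b a : ℕ, 32 * 2 ^ b ≤ g.I ^ 2 →
  a % 2 = 1 → (∀ A ∈ g.Fam, (g.Rp * g.Q A * g.c) % 8 = a % 8) →
  c0 / 2 ^ b * (2 ^ g.I / (g.Rp * g.I)) * (g.W / 2 ^ M) ≤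
    ((g.Tup.filter (fun t => g.N t % (8 * 2 ^ b) = a % (8 * 2 ^ b))).card : ℝ)

end Pool.Agent.L7h67.OD
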