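import Pool.Agent.H307R2.OP.PC
import Pool.Agent.L7h67.OD.Defs

/-!
# Blocks of primes of the classes 3 and 5 modulo 8
(adapted from `Pool.Agent.H307R2.OP.PC`, where only the class 5 is treated)
-/

set_option autoImplicit false

open Finset Filter Topology

namespace Pool.Agent.L7h67.OD

open Pool.Agent.H307R2.OP (PB)

namespace PCaux

open Pool.Agent.H307R2.OP.PCaux (cnt cnt_tend pow_tend)

lemma card_PB (i c : ℕ) : ((PB i c).card : ℝ) = cnt (2 ^ (i + 1)) c - cnt (2 ^ i) c := by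
  have hle : 2 ^ i ≤ 2 ^ (i + 1) := Nat.pow_le_pow_right (by norm_num) (by omega)
  have hdisj : Disjoint ((Icc 1 (2 ^ i)).filter (fun p => p.Prime ∧ p % 8 = c)) (PB i c) := by
    rw [Finset.disjoint_left]
    intro p hp hp'
    have h1 := (mem_Icc.1 (mem_filter.1 hp).1).2
    have h2 := (mem_Ioc.1 (mem_filter.1 hp').1).1
    omega
  have hun : (Icc 1 (2 ^ (i + 1))).filter (fun p => p.Prime ∧ p % 8 = c) =
      (Icc 1 (2 ^ i)).filter (fun p => p.Prime ∧ p % 8 = c) ∪ PB i c := by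
    ext p
    simp only [PB, mem_union, mem_filter, mem_Icc, mem_Ioc]
    constructor
    · rintro ⟨⟨h1, h2⟩, h3⟩
      rcases le_or_gt p (2 ^ i) with h | h
      · exact Or.inl ⟨⟨h1, h⟩, h3⟩
      · exact Or.inr ⟨⟨h, h2⟩, h3⟩
    · rintro (⟨⟨h1, h2⟩, h3⟩ | ⟨⟨h1, h2⟩, h3⟩)
      · exact ⟨⟨h1, h2.trans hle⟩, h3⟩
      · exact ⟨⟨by omega, h2⟩, h3⟩
  unfold cnt
  rw [hun, card_union_of_disjoint hdisj]
  push_cast
  ring

lemma block_tend (c : ℕ) (hc : c = 3 ∨ c = 5) :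
    Tendsto (fun i : ℕ => ((PB i c).card : ℝ) * (4 * i * Real.log 2) / 2 ^ i)
    atTop (𝓝 1) := by
  have hv := (cnt_tend c hc).comp pow_tend
  have hu := (cnt_tend c hc).comp (pow_tend.comp (tendsto_add_atTop_nat 1))
  have hr : Tendsto (fun i : ℕ => (i : ℝ) / ((i : ℝ) + 1)) atTop (𝓝 1) :=
    tendsto_natCast_div_add_atTop 1
  have h := (((hu.mul hr).const_mul 2).sub hv).const_mul 4
  have e : (4 : ℝ) * (2 * (1 / 4 * 1) - 1 / 4) = 1 := by norm_num
  rw [e] at h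
  refine h.congr' ?_
  filter_upwards [eventually_ge_atTop 1] with i hi
  have hi0 : (i : ℝ) ≠ 0 := by exact_mod_cast (by omega : i ≠ 0)
  have hi1 : (i : ℝ) + 1 ≠ 0 := by positivity
  have hl2 : Real.log 2 ≠ 0 := (Real.log_pos (by norm_num)).ne'
  simp only [Function.comp]
  rw [card_PB]
  have l1 : Real.log (((2 ^ i : ℕ)) : ℝ) = i * Real.log 2 := by
    push_cast
    rw [Real.log_pow]
  have l2 : Real.log (((2 ^ (i + 1) : ℕ)) : ℝ) = (i + 1) * Real.log 2 := by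
    push_cast
    rw [Real.log_pow]
    push_cast
    ring
  rw [l1, l2]
  push_cast
  have p2 : (2 : ℝ) ^ (i + 1) = 2 ^ i * 2 := pow_succ _ _
  rw [p2]
  field_simp

lemma block_one (c : ℕ) (hc : c = 3 ∨ c = 5) : ∃ i0 : ℕ, ∀ i : ℕ, i0 ≤ i →
    0.99 * (2 : ℝ) ^ i / (4 * i * Real.log 2) ≤ ((PB i c).card : ℝ) := by
  have h := (block_tend c hc).eventually (lt_mem_nhds (show (0.99 : ℝ) < 1 by norm_num))
  obtain ⟨i0, hi0⟩ := eventually_atTop.1 h
  refine ⟨max i0 1, fun i hi => ?_⟩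
  have h1 := hi0 i ((le_max_left _ _).trans hi)
  have hi1 : 1 ≤ i := (le_max_right _ _).trans hi
  have hi0' : (0 : ℝ) < i := by exact_mod_cast hi1
  have hl2 : 0 < Real.log 2 := Real.log_pos (by norm_num)
  rw [lt_div_iff₀ (by positivity)] at h1
  rw [div_le_iff₀ (by positivity)]
  exact h1.le

end PCaux

open PCaux in
/-- primes of the classes 3 and 5 modulo 8 -/
theorem pc : PCStmt := by
  have hblock : ∃ i0 : ℕ, ∀ i : ℕ, i0 ≤ i → ∀ c : ℕ, c = 3 ∨ c = 5 →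
      0.99 * (2 : ℝ) ^ i / (4 * i * Real.log 2) ≤ ((PB i c).card : ℝ) := by
    obtain ⟨a3, h3⟩ := block_one 3 (Or.inl rfl)
    obtain ⟨a5, h5⟩ := block_one 5 (Or.inr rfl)
    refine ⟨max a3 a5, fun i hi c hc => ?_⟩
    rcases hc with rfl | rfl
    · exact h3 i ((le_max_left _ _).trans hi)
    · exact h5 i ((le_max_right _ _).trans hi)
  refine ⟨Pool.Agent.H307R2.OP.pc.low, hblock, ?_, Pool.Agent.H307R2.OP.pc.up⟩
  obtain ⟨i0, hi0⟩ := hblock
  refine ⟨max i0 1, fun i hi c hc => ?_⟩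
  have h1 := hi0 i ((le_max_left _ _).trans hi) c hc
  have hi1 : 1 ≤ i := (le_max_right _ _).trans hi
  have hi0' : (0 : ℝ) < i := by exact_mod_cast hi1
  have hl2 : 0 < Real.log 2 := Real.log_pos (by norm_num)
  have hl2' : Real.log 2 < 0.6931471808 := Real.log_two_lt_d9
  have hsum : ((PB i c).card : ℝ) * (1 / 2 ^ (i + 1)) ≤ ∑ p ∈ PB i c, (1 : ℝ) / p := by
    rw [← nsmul_eq_mul, ← Finset.sum_const]
    refine Finset.sum_le_sum fun p hp => ?_
    have hp' := mem_Ioc.1 (mem_filter.1 hp).1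
    have hp0 : 0 < p := by
      have := hp'.1
      have : 0 < 2 ^ i := by positivity
      omega
    apply one_div_le_one_div_of_le (by exact_mod_cast hp0)
    exact_mod_cast hp'.2
  refine le_trans ?_ hsum
  have h2 : 0.99 * (2 : ℝ) ^ i / (4 * i * Real.log 2) * (1 / 2 ^ (i + 1)) ≤
      ((PB i c).card : ℝ) * (1 / 2 ^ (i + 1)) :=
    mul_le_mul_of_nonneg_right h1 (by positivity)
  refine le_trans ?_ h2
  have e : 0.99 * (2 : ℝ) ^ i / (4 * i * Real.log 2) * (1 / 2 ^ (i + 1)) =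
      0.99 / (8 * i * Real.log 2) := by
    rw [pow_succ]
    field_simp
    norm_num
  rw [e, div_le_div_iff₀ (by positivity) (by positivity)]
  nlinarith

end Pool.Agent.L7h67.OD
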