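import Pool.Agent.H413R3.OddT.Par
import Pool.Agent.L7h67.OD.Defs

set_option autoImplicit false

/-! The configurations with two families of primes (generalisation of `Pool.Agent.H413R3.OddT.Par`) -/

namespace Pool.Agent.L7h67.OD

open Finset
open Pool.Agent.H307R2.OP (J PB BadAt Bad Pr2 kap rr par_ev par_T1 par_T2 par_T2' par_sum par_sum')
open Pool.Agent.H413R3.OddT (par_kap par_factor)

/-- a configuration with two families of primes: at the level `j` there are `k0 j` primes of the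
class `e0` and `k1 j` primes of the class `e1` -/
def cfgG (M y : ℕ) (k0 k1 : ℕ → ℕ) (e0 e1 r I : ℕ) (R : Finset ℕ) (c : ℕ) : Cfg (2 * M) where
  I := I
  r := r
  κ := fun j => kap M y ((j : ℕ) / 2) + (j : ℕ) % 2
  cl := fun j => if (j : ℕ) % 2 = 0 then e0 else e1
  k := fun j => if (j : ℕ) % 2 = 0 then k0 ((j : ℕ) / 2) else k1 ((j : ℕ) / 2)
  R := R
  c := c

/-- the conditions on the numbers of primes -/
structure GP (M y K : ℕ) (k0 k1 : ℕ → ℕ) (e0 e1 r I : ℕ) (R : Finset ℕ) (c : ℕ) : Prop where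
  he0 : e0 = 3 ∨ e0 = 5
  he1 : e1 = 3 ∨ e1 = 5
  hc : c = 3 ∨ c = 5
  hr : 3 ≤ r
  hrr : r ≤ rr M y
  hRc : R.card ≤ K
  hRp : ∀ q ∈ R, q.Prime ∧ 5 ≤ q ∧ (q % 8 = 3 ∨ q % 8 = 5)
  hRle : ∏ q ∈ R, q ≤ 2 ^ (I / 16)
  k0l : ∀ j < M, y ^ (2 * j + 1) ≤ 32 * k0 j
  k0u : ∀ j < M, k0 j ≤ y ^ (2 * j + 1)
  k1u : ∀ j < M, k1 j ≤ y ^ (2 * j + 1)
  tot : ∑ j ∈ range M, k0 j + ∑ j ∈ range M, k1 j + R.card + 1 ≤ y ^ (2 * M - 1)

theorem sum_two (M : ℕ) (f g : ℕ → ℕ) :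
    ∑ j : Fin (2 * M), (if (j : ℕ) % 2 = 0 then f ((j : ℕ) / 2) else g ((j : ℕ) / 2)) =
      ∑ j ∈ range M, f j + ∑ j ∈ range M, g j := by
  rw [Fin.sum_univ_eq_sum_range (fun j => if j % 2 = 0 then f (j / 2) else g (j / 2)) (2 * M)]
  induction M with
  | zero => simp
  | succ n ih =>
    rw [show 2 * (n + 1) = 2 * n + 1 + 1 by ring, Finset.sum_range_succ, Finset.sum_range_succ, ih,
      Finset.sum_range_succ, Finset.sum_range_succ]
    have h1 : 2 * n % 2 = 0 := by omega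
    have h2 : (2 * n + 1) % 2 = 1 := by omega
    have h3 : 2 * n / 2 = n := by omega
    have h4 : (2 * n + 1) / 2 = n := by omega
    rw [h1, h2, h3, h4]
    simp only [if_true, one_ne_zero, if_false]
    ring

theorem cfgG_sum (M y : ℕ) (k0 k1 : ℕ → ℕ) (e0 e1 r I : ℕ) (R : Finset ℕ) (c : ℕ) :
    ∑ j, (cfgG M y k0 k1 e0 e1 r I R c).k j = ∑ j ∈ range M, k0 j + ∑ j ∈ range M, k1 j :=
  sum_two M k0 k1

section

variable {M y : ℕ}

theorem gk {k0 k1 : ℕ → ℕ} (h0 : ∀ j < M, k0 j ≤ y ^ (2 * j + 1))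
    (h1 : ∀ j < M, k1 j ≤ y ^ (2 * j + 1)) (e0 e1 r I : ℕ) (R : Finset ℕ) (c : ℕ)
    (j : Fin (2 * M)) :
    (cfgG M y k0 k1 e0 e1 r I R c).k j ≤ y ^ (2 * ((j : ℕ) / 2) + 1) := by
  show (if (j : ℕ) % 2 = 0 then k0 ((j : ℕ) / 2) else k1 ((j : ℕ) / 2)) ≤ _
  have hj : (j : ℕ) / 2 < M := by have := j.2; omega
  split_ifs
  · exact h0 _ hj
  · exact h1 _ hj

theorem gkap (hy : 1 ≤ y) (k0 k1 : ℕ → ℕ) (e0 e1 r I : ℕ) (R : Finset ℕ) (c : ℕ)
    (j : Fin (2 * M)) :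
    y ^ 4 ≤ (cfgG M y k0 k1 e0 e1 r I R c).κ j ∧
    (cfgG M y k0 k1 e0 e1 r I R c).κ j ≤ y ^ (2 * M + 2) + 1 ∧
    (cfgG M y k0 k1 e0 e1 r I R c).κ j * y ^ (2 * ((j : ℕ) / 2) + 1) ≤ 2 * y ^ (2 * M + 3) := by
  have hj : (j : ℕ) / 2 < M := by have := j.2; omega
  obtain ⟨a1, a2, a3⟩ := @par_kap M y ((j : ℕ) / 2) hj hy
  show y ^ 4 ≤ kap M y ((j : ℕ) / 2) + (j : ℕ) % 2 ∧ kap M y ((j : ℕ) / 2) + (j : ℕ) % 2 ≤ _ ∧
    (kap M y ((j : ℕ) / 2) + (j : ℕ) % 2) * _ ≤ _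
  have h2 : (j : ℕ) % 2 ≤ 1 := by omega
  have h3 : 1 ≤ y ^ 4 := Nat.one_le_pow _ _ hy
  refine ⟨by omega, by omega, ?_⟩
  calc (kap M y ((j : ℕ) / 2) + (j : ℕ) % 2) * y ^ (2 * ((j : ℕ) / 2) + 1)
      ≤ (2 * kap M y ((j : ℕ) / 2)) * y ^ (2 * ((j : ℕ) / 2) + 1) :=
        Nat.mul_le_mul_right _ (by omega)
    _ = 2 * (kap M y ((j : ℕ) / 2) * y ^ (2 * ((j : ℕ) / 2) + 1)) := by ring
    _ = _ := by rw [a3]

theorem parG_Q (hy : 64 ≤ y) (hMy : 128 * M ≤ y) {I : ℕ} (hI : y ^ (2 * M + 4) ≤ I)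
    {k0 k1 : ℕ → ℕ} (h0 : ∀ j < M, k0 j ≤ y ^ (2 * j + 1))
    (h1 : ∀ j < M, k1 j ≤ y ^ (2 * j + 1)) (e0 e1 r : ℕ) (R : Finset ℕ) (c : ℕ)
    (A : Fin (2 * M) → Finset ℕ)
    (hA : A ∈ (cfgG M y k0 k1 e0 e1 r I R c).Fam) :
    (cfgG M y k0 k1 e0 e1 r I R c).Q A ≤ 2 ^ (I / 16) := by
  set g := cfgG M y k0 k1 e0 e1 r I R c with hg
  have hA' : ∀ j, A j ⊆ g.Blk j ∧ (A j).card = g.k j := by
    intro j
    have := (Fintype.mem_piFinset.1 hA) j
    rw [Finset.mem_powersetCard] at this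
    exact this
  have h2 : ∀ j : Fin (2 * M), ∏ q ∈ A j, q ≤ 2 ^ (4 * y ^ (2 * M + 3)) := by
    intro j
    obtain ⟨a1, a2, a3⟩ := @gkap M y (by omega) k0 k1 e0 e1 r I R c j
    have a4 := gk h0 h1 e0 e1 r I R c j
    rw [← hg] at a1 a2 a3 a4
    have h3 : ∏ q ∈ A j, q ≤ (2 ^ (g.κ j + 1)) ^ (A j).card := by
      rw [← Finset.prod_const]
      apply Finset.prod_le_prod (fun _ _ => Nat.zero_le _)
      intro q hq
      have h3 := (hA' j).1 hq
      rw [Cfg.Blk, Finset.mem_sdiff, PB, Finset.mem_filter, Finset.mem_Ioc] at h3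
      exact h3.1.1.2
    refine h3.trans ?_
    rw [(hA' j).2, ← pow_mul]
    apply Nat.pow_le_pow_right (by norm_num)
    have h5 : 1 ≤ g.κ j := le_trans (Nat.one_le_pow _ _ (by omega)) a1
    calc (g.κ j + 1) * g.k j ≤ (2 * g.κ j) * y ^ (2 * ((j : ℕ) / 2) + 1) :=
          Nat.mul_le_mul (by omega) a4
      _ = 2 * (g.κ j * y ^ (2 * ((j : ℕ) / 2) + 1)) := by ring
      _ ≤ 2 * (2 * y ^ (2 * M + 3)) := Nat.mul_le_mul_left _ a3
      _ = _ := by ring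
  calc g.Q A = ∏ j, ∏ q ∈ A j, q := rfl
    _ ≤ ∏ j : Fin (2 * M), 2 ^ (4 * y ^ (2 * M + 3)) :=
        Finset.prod_le_prod (fun _ _ => Nat.zero_le _) (fun j _ => h2 j)
    _ = 2 ^ (4 * y ^ (2 * M + 3) * (2 * M)) := by
        rw [Finset.prod_const, Finset.card_univ, Fintype.card_fin, ← pow_mul]
    _ ≤ 2 ^ (I / 16) := by
        apply Nat.pow_le_pow_right (by norm_num)
        rw [Nat.le_div_iff_mul_le (by norm_num)]
        calc 4 * y ^ (2 * M + 3) * (2 * M) * 16 = (128 * M) * y ^ (2 * M + 3) := by ring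
          _ ≤ y * y ^ (2 * M + 3) := Nat.mul_le_mul_right _ hMy
          _ = y ^ (2 * M + 4) := by rw [← pow_succ']
          _ ≤ I := hI

/-- lower bound for the mass of a block without the fixed primes -/
theorem parG_S {i0 : ℕ} (hm : ∀ i : ℕ, i0 ≤ i → ∀ c : ℕ, c = 3 ∨ c = 5 →
      1 / (6 * (i : ℝ)) ≤ ∑ p ∈ PB i c, (1 : ℝ) / p) (e : ℕ) (he : e = 3 ∨ e = 5)
    (K i : ℕ) (hi : i0 ≤ i) (hi2 : 1 ≤ i) (hei : 24 * K * i ≤ 2 ^ i) (R : Finset ℕ)
    (hR : R.card ≤ K) :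
    1 / (8 * (i : ℝ)) ≤ ∑ p ∈ PB i e \ R, (1 : ℝ) / p := by
  have h1 := hm i hi e he
  have h2 : ∑ p ∈ PB i e, (1 : ℝ) / p = ∑ p ∈ PB i e \ R, (1 : ℝ) / p +
      ∑ p ∈ PB i e ∩ R, (1 : ℝ) / p := by
    rw [add_comm, Finset.sum_inter_add_sum_sdiff]
  have h3 : ∑ p ∈ PB i e ∩ R, (1 : ℝ) / p ≤ K / 2 ^ i := by
    calc ∑ p ∈ PB i e ∩ R, (1 : ℝ) / p ≤ ∑ p ∈ PB i e ∩ R, 1 / 2 ^ i := by
          apply Finset.sum_le_sum
          intro p hp
          rw [Finset.mem_inter, PB, Finset.mem_filter, Finset.mem_Ioc] at hp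
          have : (2 ^ i : ℝ) ≤ p := by exact_mod_cast hp.1.1.1.le
          exact one_div_le_one_div_of_le (by positivity) this
      _ = ((PB i e ∩ R).card : ℝ) * (1 / 2 ^ i) := by rw [Finset.sum_const, nsmul_eq_mul]
      _ ≤ K * (1 / 2 ^ i) := by
          apply mul_le_mul_of_nonneg_right _ (by positivity)
          have : (PB i e ∩ R).card ≤ K := (Finset.card_le_card Finset.inter_subset_right).trans hR
          exact_mod_cast this
      _ = K / 2 ^ i := by ring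
  have h4 : (24 * (K : ℝ) * (i : ℝ)) ≤ 2 ^ i := by exact_mod_cast hei
  have hi0 : (0 : ℝ) < i := by exact_mod_cast hi2
  have h5 : (K : ℝ) / 2 ^ i ≤ 1 / (24 * i) := by
    rw [div_le_div_iff₀ (by positivity) (by positivity)]
    linarith
  have h6 : 1 / (6 * (i : ℝ)) - 1 / (24 * i) = 1 / (8 * (i : ℝ)) := by
    field_simp; norm_num
  linarith

end

theorem parG (h : PCStmt) : ∀ M K : ℕ, 2 ≤ M → ∃ y0 : ℕ, ∀ y : ℕ, y0 ≤ y → ∀ I : ℕ,
  y ^ (2 * M + 4) ≤ I → I ≤ 2 * y ^ (2 * M + 4) → ∀ (k0 k1 : ℕ → ℕ) (e0 e1 r : ℕ)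
  (R : Finset ℕ) (c : ℕ), GP M y K k0 k1 e0 e1 r I R c →
  (cfgG M y k0 k1 e0 e1 r I R c).Ok ∧
  (∀ j, 1 / (8 * ((cfgG M y k0 k1 e0 e1 r I R c).κ j : ℝ)) ≤
    (cfgG M y k0 k1 e0 e1 r I R c).S j) ∧
  (∀ j, y ≤ (cfgG M y k0 k1 e0 e1 r I R c).κ j ∧ (cfgG M y k0 k1 e0 e1 r I R c).κ j ≤ I) ∧
  (∀ j, 2 * ((cfgG M y k0 k1 e0 e1 r I R c).k j : ℝ) ^ 2 ≤
    2 ^ ((cfgG M y k0 k1 e0 e1 r I R c).κ j) * (cfgG M y k0 k1 e0 e1 r I R c).S j) ∧
  (∏ j, (((cfgG M y k0 k1 e0 e1 r I R c).S j + 1 / (I : ℝ) ^ 2 +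
      R.card / 2 ^ ((cfgG M y k0 k1 e0 e1 r I R c).κ j)) ^
      (cfgG M y k0 k1 e0 e1 r I R c).k j /
        (((cfgG M y k0 k1 e0 e1 r I R c).k j).factorial : ℝ)) ≤
    Real.exp (2 * M : ℕ) * (cfgG M y k0 k1 e0 e1 r I R c).W) ∧
  1 / (2 : ℝ) ^ (I / 100) ≤ (cfgG M y k0 k1 e0 e1 r I R c).W := by
  intro M K hM
  obtain ⟨i0, hm⟩ := h.mass
  obtain ⟨y1, hy1⟩ := par_ev M
  refine ⟨max y1 (max i0 (max 1000 (128 * M))) + 64 * (K + 1), ?_⟩
  intro y hy' I hI1 hI2 k0 k1 e0 e1 r R c G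
  have hR := G.hRc
  have hc := G.hc
  have hy : max y1 (max i0 (max 1000 (128 * M))) ≤ y := by omega
  have hyK : 64 * (K + 1) ≤ y := by omega
  have a1 : y1 ≤ y := (le_max_left _ _).trans hy
  have a2 : i0 ≤ y := ((le_max_left _ _).trans (le_max_right _ _)).trans hy
  have a3 : 1000 ≤ y :=
    ((le_max_left _ _).trans ((le_max_right _ _).trans (le_max_right _ _))).trans hy
  have a4 : 128 * M ≤ y :=
    ((le_max_right _ _).trans ((le_max_right _ _).trans (le_max_right _ _))).trans hy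
  have E := hy1 y a1
  have hy0 : 1 ≤ y := by omega
  have hyR : (1000 : ℝ) ≤ y := by exact_mod_cast a3
  -- powers
  have p1 : ∀ a b : ℕ, a ≤ b → y ^ a ≤ y ^ b := fun a b hab => Nat.pow_le_pow_right hy0 hab
  have p2 : ∀ a : ℕ, a ≤ 8 * M + 20 → 2 ^ 20 * y ^ a ≤ 2 ^ y := by
    intro a ha
    calc 2 ^ 20 * y ^ a ≤ 2 ^ 20 * (M + 1) ^ 2 * y ^ (8 * M + 20) := by
          apply Nat.mul_le_mul _ (p1 _ _ ha)
          exact Nat.le_mul_of_pos_right _ (by positivity)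
      _ ≤ 2 ^ y := E
  set g := cfgG M y k0 k1 e0 e1 r I R c with hg
  have kap1 := fun j : Fin (2 * M) => @gkap M y hy0 k0 k1 e0 e1 r I R c j
  rw [← hg] at kap1
  have gk1 := fun j : Fin (2 * M) => gk G.k0u G.k1u e0 e1 r I R c j
  rw [← hg] at gk1
  have kapy : ∀ j, y ≤ g.κ j := fun j => by
    have := p1 1 4 (by norm_num)
    rw [pow_one] at this
    exact this.trans (kap1 j).1
  have kap3 : ∀ j, g.κ j ≤ y ^ (2 * M + 3) := fun j => by
    refine (kap1 j).2.1.trans ?_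
    have e1 : 2 * y ^ (2 * M + 2) ≤ y ^ (2 * M + 3) := by
      calc 2 * y ^ (2 * M + 2) ≤ y * y ^ (2 * M + 2) := Nat.mul_le_mul_right _ (by omega)
        _ = y ^ (2 * M + 3) := by rw [← pow_succ']
    have e2 : 1 ≤ y ^ (2 * M + 2) := Nat.one_le_pow _ _ (by omega)
    omega
  have k2y : ∀ j, 2 ^ y ≤ 2 ^ (g.κ j) := fun j =>
    Nat.pow_le_pow_right (by norm_num) (kapy j)
  have kkap : ∀ j, g.κ j * g.k j ≤ 2 * y ^ (2 * M + 3) := fun j =>
    (Nat.mul_le_mul_left _ (gk1 j)).trans (kap1 j).2.2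
  have kapI : ∀ j, g.κ j ≤ I := fun j => ((kap3 j).trans (p1 _ _ (by omega))).trans hI1
  have hcl : ∀ j, g.cl j = 3 ∨ g.cl j = 5 := by
    intro j
    show (if (j : ℕ) % 2 = 0 then e0 else e1) = 3 ∨ (if (j : ℕ) % 2 = 0 then e0 else e1) = 5
    split_ifs
    · exact G.he0
    · exact G.he1
  have hS : ∀ j, 1 / (8 * (g.κ j : ℝ)) ≤ g.S j := by
    intro j
    apply parG_S hm (g.cl j) (hcl j) K (g.κ j) (a2.trans (kapy j)) (hy0.trans (kapy j)) _ R hR
    calc 24 * K * g.κ j ≤ y * y ^ (2 * M + 3) := Nat.mul_le_mul (by omega) (kap3 j)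
      _ = y ^ (2 * M + 4) := by rw [← pow_succ']
      _ ≤ 2 ^ 20 * y ^ (2 * M + 4) := Nat.le_mul_of_pos_left _ (by norm_num)
      _ ≤ 2 ^ y := p2 _ (by omega)
      _ ≤ _ := k2y j
  have kap0 : ∀ j, (0 : ℝ) < g.κ j := fun j => by
    exact_mod_cast (hy0.trans (kapy j))
  have S0 : ∀ j, 0 < g.S j := fun j =>
    lt_of_lt_of_le (by have := kap0 j; positivity) (hS j)
  -- Ok
  have ok : g.Ok := by
    refine ⟨?_, G.hr, ?_, ?_, G.hRp, ?_, ?_, hc, hcl⟩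
    · intro i j hij
      have h1 : kap M y ((i : ℕ) / 2) + (i : ℕ) % 2 = kap M y ((j : ℕ) / 2) + (j : ℕ) % 2 := hij
      have hi2 := i.2
      have hj2 := j.2
      have key : ∀ a b : ℕ, a < b → b < M → kap M y b + 2 ≤ kap M y a := by
        intro a b hab hb
        unfold kap
        have e1 : y ^ (2 * M + 2 - 2 * b + 1) ≤ y ^ (2 * M + 2 - 2 * a) := p1 _ _ (by omega)
        rw [pow_succ] at e1
        have e2 : 1 ≤ y ^ (2 * M + 2 - 2 * b) := Nat.one_le_pow _ _ (by omega)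
        nlinarith
      apply Fin.ext
      rcases Nat.lt_trichotomy ((i : ℕ) / 2) ((j : ℕ) / 2) with h2 | h2 | h2
      · have := key _ _ h2 (by omega)
        omega
      · rw [h2] at h1
        omega
      · have := key _ _ h2 (by omega)
        omega
    · show 100 * r ≤ I
      have hrr := G.hrr
      rw [rr] at hrr
      have h1 : Nat.log 2 (y ^ (2 * M - 1)) ≤ y ^ (2 * M - 1) := Nat.log_le_self _ _
      have h2 : 200 * y ^ (2 * M - 1) ≤ y ^ (2 * M + 4) := by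
        calc 200 * y ^ (2 * M - 1) ≤ y ^ 5 * y ^ (2 * M - 1) := by
              apply Nat.mul_le_mul_right
              calc 200 ≤ y := by omega
                _ = y ^ 1 := (pow_one y).symm
                _ ≤ y ^ 5 := p1 _ _ (by norm_num)
          _ = y ^ (2 * M + 4) := by rw [← pow_add]; congr 1; omega
      have h3 : 1 ≤ y ^ (2 * M - 1) := Nat.one_le_pow _ _ (by omega)
      omega
    · show 800 ≤ I
      have := p1 1 (2 * M + 4) (by omega)
      rw [pow_one] at this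
      omega
    · intro j
      have := kapy j
      omega
    · intro A hA
      have h1 := parG_Q (by omega) a4 hI1 G.k0u G.k1u e0 e1 r R c A hA
      have h2 : g.Rp ≤ 2 ^ (I / 16) := G.hRle
      calc g.Rp * g.Q A ≤ 2 ^ (I / 16) * 2 ^ (I / 16) := Nat.mul_le_mul h2 h1
        _ = 2 ^ (I / 16 + I / 16) := by rw [← pow_add]
        _ ≤ 2 ^ (I / 8) := Nat.pow_le_pow_right (by norm_num) (by omega)
  -- real versions
  have kkR : ∀ j, (g.κ j : ℝ) * (g.k j : ℝ) ≤ 2 * (y : ℝ) ^ (2 * M + 3) :=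
    fun j => by exact_mod_cast kkap j
  have hIR : (y : ℝ) ^ (2 * M + 4) ≤ I := by exact_mod_cast hI1
  have p2R : ∀ a : ℕ, a ≤ 8 * M + 20 → (2 : ℝ) ^ 20 * (y : ℝ) ^ a ≤ 2 ^ y := fun a ha => by
    exact_mod_cast p2 a ha
  have k2yR : ∀ j, (2 : ℝ) ^ y ≤ 2 ^ (g.κ j) := fun j => by exact_mod_cast k2y j
  refine ⟨ok, hS, fun j => ⟨kapy j, kapI j⟩, ?_, ?_, ?_⟩
  · intro j
    have h1 : 2 * (g.k j : ℝ) ^ 2 * (8 * (g.κ j : ℝ)) ≤ 2 ^ (g.κ j) := by
      have h2 : (g.k j : ℝ) ≤ 2 * (y : ℝ) ^ (2 * M + 3) := by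
        have h3 : g.k j ≤ 2 * y ^ (2 * M + 3) :=
          (Nat.le_mul_of_pos_left _ (hy0.trans (kapy j))).trans (kkap j)
        exact_mod_cast h3
      have h0 : (0 : ℝ) ≤ g.k j := Nat.cast_nonneg _
      calc 2 * (g.k j : ℝ) ^ 2 * (8 * (g.κ j : ℝ))
          = 16 * (g.k j : ℝ) * ((g.κ j : ℝ) * (g.k j : ℝ)) := by ring
        _ ≤ 16 * (2 * (y : ℝ) ^ (2 * M + 3)) * (2 * (y : ℝ) ^ (2 * M + 3)) := by
            apply mul_le_mul (by linarith) (kkR j)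
            · have := (kap0 j).le; positivity
            · positivity
        _ = 64 * (y : ℝ) ^ (4 * M + 6) := by ring
        _ ≤ 2 ^ 20 * (y : ℝ) ^ (4 * M + 6) := by
            apply mul_le_mul_of_nonneg_right (by norm_num) (by positivity)
        _ ≤ 2 ^ y := p2R _ (by omega)
        _ ≤ _ := k2yR j
    have hk := kap0 j
    calc 2 * (g.k j : ℝ) ^ 2
        = (2 * (g.k j : ℝ) ^ 2 * (8 * (g.κ j : ℝ))) * (1 / (8 * (g.κ j : ℝ))) := by
          field_simp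
      _ ≤ 2 ^ (g.κ j) * g.S j := mul_le_mul h1 (hS j) (by positivity) (by positivity)
  · have h1 : ∀ j, (g.S j + 1 / (I : ℝ) ^ 2 + R.card / 2 ^ (g.κ j)) ^
      g.k j / ((g.k j).factorial : ℝ) ≤ Real.exp 1 * (g.S j ^ g.k j / ((g.k j).factorial : ℝ)) := by
      intro j
      have hk := kap0 j
      have hkk0 : (0 : ℝ) ≤ g.k j := Nat.cast_nonneg _
      have hI0 : (0 : ℝ) < I := by
        have : (0 : ℝ) < (y : ℝ) ^ (2 * M + 4) := by positivity
        linarith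
      have hR2 : (R.card : ℝ) ≤ K := by exact_mod_cast hR
      have hKy : (64 : ℝ) * K ≤ y := by
        have : 64 * K ≤ y := by omega
        exact_mod_cast this
      have hK0 : (0 : ℝ) ≤ K := Nat.cast_nonneg _
      have e1 : (g.k j : ℝ) * (1 / (I : ℝ) ^ 2) ≤ 1 / 2 * (1 / (8 * (g.κ j : ℝ))) := by
        rw [mul_one_div, one_div_mul_one_div, div_le_div_iff₀ (by positivity) (by positivity)]
        have e2 : 2 * (y : ℝ) ^ (2 * M + 3) * 16 ≤ I ^ 2 := by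
          calc 2 * (y : ℝ) ^ (2 * M + 3) * 16 = (y : ℝ) ^ (2 * M + 3) * 32 := by ring
            _ ≤ (y : ℝ) ^ (2 * M + 3) * y := by
                apply mul_le_mul_of_nonneg_left (by linarith) (by positivity)
            _ = (y : ℝ) ^ (2 * M + 4) := by ring
            _ ≤ I := hIR
            _ ≤ I ^ 2 := by
                have : (1 : ℝ) ≤ I := le_trans (one_le_pow₀ (by linarith)) hIR
                nlinarith
        have := kkR j
        nlinarith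
      have e3 : (g.k j : ℝ) * (R.card / 2 ^ (g.κ j)) ≤
          1 / 2 * (1 / (8 * (g.κ j : ℝ))) := by
        rw [one_div_mul_one_div, ← mul_div_assoc, div_le_div_iff₀ (by positivity) (by positivity)]
        have e4 : (2 * (y : ℝ) ^ (2 * M + 3)) * (16 * K) ≤ 2 ^ (g.κ j) := by
          calc (2 * (y : ℝ) ^ (2 * M + 3)) * (16 * K) = (y : ℝ) ^ (2 * M + 3) * (32 * K) := by ring
            _ ≤ (y : ℝ) ^ (2 * M + 3) * y := by
                apply mul_le_mul_of_nonneg_left _ (by positivity)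
                linarith
            _ = (y : ℝ) ^ (2 * M + 4) := by ring
            _ ≤ 2 ^ 20 * (y : ℝ) ^ (2 * M + 4) := by
                have : (0 : ℝ) ≤ (y : ℝ) ^ (2 * M + 4) := by positivity
                nlinarith
            _ ≤ 2 ^ y := p2R _ (by omega)
            _ ≤ _ := k2yR j
        have := kkR j
        calc (g.k j : ℝ) * R.card * (2 * (8 * (g.κ j : ℝ)))
            ≤ (g.k j : ℝ) * K * (2 * (8 * (g.κ j : ℝ))) := by gcongr
          _ = ((g.κ j : ℝ) * (g.k j : ℝ)) * (16 * K) := by ring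
          _ ≤ (2 * (y : ℝ) ^ (2 * M + 3)) * (16 * K) := by gcongr
          _ ≤ 2 ^ (g.κ j) := e4
          _ = 1 * 2 ^ (g.κ j) := by ring
      have e5 : ((g.k j : ℕ) : ℝ) * (1 / (I : ℝ) ^ 2 + R.card / 2 ^ (g.κ j)) ≤ g.S j := by
        have := hS j
        rw [mul_add]
        linarith
      have e6 := par_factor (S0 j) (by positivity) e5
      rw [add_assoc, ← mul_div_assoc]
      exact div_le_div_of_nonneg_right e6 (by positivity)
    calc _ ≤ ∏ j : Fin (2 * M), Real.exp 1 * (g.S j ^ g.k j / ((g.k j).factorial : ℝ)) := by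
          apply Finset.prod_le_prod _ (fun j _ => h1 j)
          intro j _
          have := S0 j
          positivity
      _ = Real.exp (2 * M : ℕ) * g.W := by
          rw [Finset.prod_mul_distrib, Finset.prod_const, Finset.card_univ, Fintype.card_fin,
            ← Real.exp_nat_mul, mul_one, Cfg.W]
  · have h1 : ∀ j, ((2 : ℝ) ^ y)⁻¹ ^ (g.k j) ≤ g.S j ^ g.k j / ((g.k j).factorial : ℝ) := by
      intro j
      rcases Nat.eq_zero_or_pos (g.k j) with hz | hpos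
      · rw [hz]; simp
      have hk := kap0 j
      have hkk : (0 : ℝ) < g.k j := by exact_mod_cast hpos
      have e1 : ((2 : ℝ) ^ y)⁻¹ ≤ g.S j / g.k j := by
        rw [le_div_iff₀ hkk]
        refine le_trans ?_ (hS j)
        rw [inv_mul_le_iff₀ (by positivity), mul_one_div, le_div_iff₀ (by positivity)]
        calc (g.k j : ℝ) * (8 * (g.κ j : ℝ))
            = 8 * ((g.κ j : ℝ) * (g.k j : ℝ)) := by ring
          _ ≤ 16 * (y : ℝ) ^ (2 * M + 3) := by have := kkR j; linarith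
          _ ≤ 2 ^ 20 * (y : ℝ) ^ (2 * M + 3) := by
              apply mul_le_mul_of_nonneg_right (by norm_num) (by positivity)
          _ ≤ 2 ^ y := p2R _ (by omega)
      have e2 : ((g.k j).factorial : ℝ) ≤ (g.k j : ℝ) ^ (g.k j) := by
        exact_mod_cast Nat.factorial_le_pow _
      calc ((2 : ℝ) ^ y)⁻¹ ^ (g.k j) ≤ (g.S j / g.k j) ^ (g.k j) :=
            pow_le_pow_left₀ (by positivity) e1 _
        _ = g.S j ^ (g.k j) / (g.k j : ℝ) ^ (g.k j) := div_pow _ _ _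
        _ ≤ _ := by
            apply div_le_div_of_nonneg_left _ (by positivity) e2
            have := (S0 j).le
            positivity
    have h2 : ∏ j, ((2 : ℝ) ^ y)⁻¹ ^ (g.k j) ≤ g.W := by
      rw [Cfg.W]
      exact Finset.prod_le_prod (fun j _ => by positivity) (fun j _ => h1 j)
    refine le_trans ?_ h2
    rw [Finset.prod_pow_eq_pow_sum, inv_pow, ← one_div, ← pow_mul]
    apply one_div_le_one_div_of_le (by positivity)
    apply pow_le_pow_right₀ (by norm_num)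
    have e1 : ∑ j, g.k j ≤ y ^ (2 * M - 1) := by
      rw [hg, cfgG_sum]
      have := G.tot
      omega
    rw [Nat.le_div_iff_mul_le (by norm_num)]
    calc y * (∑ j, g.k j) * 100 ≤ y * y ^ (2 * M - 1) * 100 := by gcongr
      _ = y ^ (2 * M) * 100 := by
          rw [← pow_succ']; congr 2; omega
      _ ≤ y ^ (2 * M) * y ^ 4 := by
          apply Nat.mul_le_mul_left
          calc 100 ≤ y := by omega
            _ = y ^ 1 := (pow_one y).symm
            _ ≤ y ^ 4 := p1 _ _ (by norm_num)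
      _ = y ^ (2 * M + 4) := by rw [← pow_add]
      _ ≤ I := hI1

end Pool.Agent.L7h67.OD
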