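import Pool.Agent.H413R3.OddT.Btu
import Pool.Agent.L7h67.OD.Par
import Pool.Agent.L7h67.OD.T0

set_option autoImplicit false

/-! The tuples that are lost (generalisation of `Pool.Agent.H413R3.OddT.Btu`) -/

namespace Pool.Agent.L7h67.OD

open Finset Filter Topology
open Pool.Agent.H307R2.OP (J PB BadAt Bad Pr2 kap rr)
open Pool.Agent.H307R2.OP.BT (ev_pow prod_odd zero_num large_num last_level)

variable {T : Ty}

theorem rep_le (hT : T.Ok) {r δ N : ℕ} (hr : 1 ≤ r) (hδ : T.Adm δ) (hN : N % 2 = 1) (I : ℕ)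
    (hNI : N ≤ 2 ^ I) (h : T.Rep r δ N) : δ ∈ Icc 1 (3 * 2 ^ I) := by
  obtain ⟨s, u, hsu⟩ := h
  have h1 : 1 ≤ δ := hδ.pos
  rw [Finset.mem_Icc]
  refine ⟨h1, ?_⟩
  have hwN : (T.w * N) % 2 = 1 := by
    rw [Nat.mul_mod, hT.w_odd, hN]
  have hs : s ≠ 0 := by
    rintro rfl
    have h5 : (T.E r * u ^ 2) % 2 = 0 := by
      have := (E_even T hr).mul_right (u ^ 2)
      omega
    have : δ * 0 ^ 2 = 0 := by simp
    rw [this] at hsu
    omega
  have hs2 : 1 ≤ s ^ 2 := Nat.one_le_pow _ _ (Nat.pos_of_ne_zero hs)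
  have hw3 := hT.w_le
  calc δ ≤ δ * s ^ 2 := Nat.le_mul_of_pos_right _ hs2
    _ ≤ T.w * N := by rw [hsu]; exact Nat.le_add_right _ _
    _ ≤ 3 * 2 ^ I := Nat.mul_le_mul hw3 hNI

theorem theta_condT {M : ℕ} (g : Cfg M) (K : ℕ) (j : Fin M) (δ : ℕ) (hR : g.R.card ≤ K)
    (hκ : 15 ≤ g.κ j) (hpw : 640 * K * g.κ j ≤ 2 ^ (g.κ j)) (hS : 1 / (8 * (g.κ j : ℝ)) ≤ g.S j)
    (hst : ¬ T.StrongAt (g.cl j) (g.κ j) δ) :
    ∑ q ∈ (g.Blk j).filter (fun q => T.X q δ ≠ -1), (1 : ℝ) / q ≤ (1 - 1 / 80) * g.S j := by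
  classical
  have hκ0 : (0 : ℝ) < g.κ j := by exact_mod_cast (by omega : 0 < g.κ j)
  have hsub : g.Blk j ⊆ PB (g.κ j) (g.cl j) := Finset.sdiff_subset
  have hSPB : g.S j ≤ ∑ p ∈ PB (g.κ j) (g.cl j), (1 : ℝ) / p := by
    unfold Cfg.S
    exact Finset.sum_le_sum_of_subset_of_nonneg hsub (fun _ _ _ => by positivity)
  unfold Ty.StrongAt at hst
  push Not at hst
  -- the split primes lost with `R`
  have hlost : ∑ p ∈ (PB (g.κ j) (g.cl j)).filter (fun p => T.X p δ = -1), (1 : ℝ) / p ≤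
      ∑ p ∈ (g.Blk j).filter (fun p => T.X p δ = -1), (1 : ℝ) / p + K / 2 ^ (g.κ j) := by
    have h1 : (PB (g.κ j) (g.cl j)).filter (fun p => T.X p δ = -1) ⊆
        (g.Blk j).filter (fun p => T.X p δ = -1) ∪ (PB (g.κ j) (g.cl j) ∩ g.R) := by
      intro p hp
      rw [Finset.mem_filter] at hp
      rw [Finset.mem_union, Finset.mem_filter, Finset.mem_inter]
      by_cases hpR : p ∈ g.R
      · exact Or.inr ⟨hp.1, hpR⟩
      · exact Or.inl ⟨Finset.mem_sdiff.2 ⟨hp.1, hpR⟩, hp.2⟩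
    have h2 : ∑ p ∈ PB (g.κ j) (g.cl j) ∩ g.R, (1 : ℝ) / p ≤ K / 2 ^ (g.κ j) := by
      calc ∑ p ∈ PB (g.κ j) (g.cl j) ∩ g.R, (1 : ℝ) / p
          ≤ ∑ p ∈ PB (g.κ j) (g.cl j) ∩ g.R, (1 : ℝ) / 2 ^ (g.κ j) := by
            refine Finset.sum_le_sum fun p hp => ?_
            have h3 := (Finset.mem_inter.1 hp).1
            unfold PB at h3
            have h4 := (Finset.mem_Ioc.1 (Finset.mem_filter.1 h3).1).1
            have h5 : (2 : ℝ) ^ (g.κ j) ≤ p := by exact_mod_cast h4.le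
            exact one_div_le_one_div_of_le (by positivity) h5
        _ = ((PB (g.κ j) (g.cl j) ∩ g.R).card : ℝ) * (1 / 2 ^ (g.κ j)) := by
            rw [Finset.sum_const, nsmul_eq_mul]
        _ ≤ K * (1 / 2 ^ (g.κ j)) := by
            have : ((PB (g.κ j) (g.cl j) ∩ g.R).card : ℝ) ≤ K := by
              exact_mod_cast (Finset.card_le_card Finset.inter_subset_right).trans hR
            gcongr
        _ = K / 2 ^ (g.κ j) := by ring
    calc ∑ p ∈ (PB (g.κ j) (g.cl j)).filter (fun p => T.X p δ = -1), (1 : ℝ) / p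
        ≤ ∑ p ∈ (g.Blk j).filter (fun p => T.X p δ = -1) ∪ (PB (g.κ j) (g.cl j) ∩ g.R),
            (1 : ℝ) / p :=
          Finset.sum_le_sum_of_subset_of_nonneg h1 (fun _ _ _ => by positivity)
      _ ≤ ∑ p ∈ (g.Blk j).filter (fun p => T.X p δ = -1), (1 : ℝ) / p +
            ∑ p ∈ PB (g.κ j) (g.cl j) ∩ g.R, (1 : ℝ) / p := by
          have := Finset.sum_union_inter (s₁ := (g.Blk j).filter (fun p => T.X p δ = -1))
            (s₂ := PB (g.κ j) (g.cl j) ∩ g.R) (f := fun p : ℕ => (1 : ℝ) / p)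
          have h0 : 0 ≤ ∑ p ∈ (g.Blk j).filter (fun p => T.X p δ = -1) ∩
              (PB (g.κ j) (g.cl j) ∩ g.R), (1 : ℝ) / p :=
            Finset.sum_nonneg (fun _ _ => by positivity)
          linarith
      _ ≤ _ := by linarith
  have hsplit : ∑ q ∈ (g.Blk j).filter (fun q => T.X q δ = -1), (1 : ℝ) / q +
      ∑ q ∈ (g.Blk j).filter (fun q => T.X q δ ≠ -1), (1 : ℝ) / q = g.S j := by
    unfold Cfg.S
    exact Finset.sum_filter_add_sum_filter_not _ _ _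
  have hpow : (640 : ℝ) * K * g.κ j ≤ 2 ^ (g.κ j) := by exact_mod_cast hpw
  have h6 : (K : ℝ) / 2 ^ (g.κ j) ≤ 1 / 80 * (1 / (8 * (g.κ j : ℝ))) := by
    rw [div_mul_div_comm, div_le_div_iff₀ (by positivity) (by positivity)]
    nlinarith
  nlinarith

theorem small_numG (n x y : ℝ) (k : ℕ) (hxy : y ≤ x) (hy : 0 ≤ y)
    (hn : n ≤ (2 : ℝ) ^ (0.0001 * x)) (hk : x / 32 ≤ k) :
    n * (1 - 1 / 80) ^ k ≤ Real.exp (-(0.0002 * y)) := by
  have h1 : (1 - 1 / 80 : ℝ) ≤ Real.exp (-(1 / 80)) := by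
    have := Real.one_sub_le_exp_neg (1 / 80 : ℝ)
    linarith
  have h2 : (1 - 1 / 80 : ℝ) ^ k ≤ Real.exp (-(x / 2560)) := by
    calc (1 - 1 / 80 : ℝ) ^ k ≤ Real.exp (-(1 / 80)) ^ k :=
          pow_le_pow_left₀ (by norm_num) h1 k
      _ = Real.exp (k * (-(1 / 80))) := by rw [← Real.exp_nat_mul]
      _ ≤ Real.exp (-(x / 2560)) := by
          apply Real.exp_le_exp.2
          linarith
  have h3 : (2 : ℝ) ^ (0.0001 * x) ≤ Real.exp (0.0001 * x) := by
    rw [Real.rpow_def_of_pos (by norm_num)]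
    apply Real.exp_le_exp.2
    have := Real.log_two_lt_d9
    have hx : 0 ≤ 0.0001 * x := by linarith
    nlinarith
  have h4 : 0 ≤ (1 - 1 / 80 : ℝ) ^ k := by positivity
  calc n * (1 - 1 / 80) ^ k ≤ Real.exp (0.0001 * x) * (1 - 1 / 80) ^ k := by
        apply mul_le_mul_of_nonneg_right (hn.trans h3) h4
    _ ≤ Real.exp (0.0001 * x) * Real.exp (-(x / 2560)) := by
        apply mul_le_mul_of_nonneg_left h2 (Real.exp_pos _).le
    _ = Real.exp (0.0001 * x + -(x / 2560)) := by rw [← Real.exp_add]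
    _ ≤ Real.exp (-(0.0002 * y)) := by
        apply Real.exp_le_exp.2
        linarith

theorem ev_exp3 (k : ℕ) (K c : ℝ) (hc : 0 < c) :
    ∃ y0 : ℕ, ∀ y : ℕ, y0 ≤ y → K * (y : ℝ) ^ k * Real.exp (-(0.0002 * (y : ℝ))) ≤ c := by
  obtain ⟨y0, hy0⟩ := ev_pow k (Real.exp 0.0002) (by
    have := Real.add_one_le_exp (0.0002 : ℝ)
    linarith) K c hc
  refine ⟨y0, fun y hy => ?_⟩
  have h := hy0 y hy
  rw [← Real.exp_nat_mul] at h
  have h2 : Real.exp (-(0.0002 * (y : ℝ))) * Real.exp ((y : ℝ) * 0.0002) = 1 := by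
    rw [← Real.exp_add]
    rw [show -(0.0002 * (y : ℝ)) + (y : ℝ) * 0.0002 = 0 by ring, Real.exp_zero]
  have h3 := mul_le_mul_of_nonneg_left h (Real.exp_pos (-(0.0002 * (y : ℝ)))).le
  calc K * (y : ℝ) ^ k * Real.exp (-(0.0002 * (y : ℝ)))
      = Real.exp (-(0.0002 * (y : ℝ))) * (K * (y : ℝ) ^ k) := by ring
    _ ≤ Real.exp (-(0.0002 * (y : ℝ))) * (c * Real.exp ((y : ℝ) * 0.0002)) := h3
    _ = c * (Real.exp (-(0.0002 * (y : ℝ))) * Real.exp ((y : ℝ) * 0.0002)) := by ring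
    _ = c := by rw [h2, mul_one]

theorem large_numG (M I r Rp H Y y : ℕ) (c0 W S : ℝ) (hc0 : 0 < c0) (hI : 1 ≤ I)
    (hI2 : I ≤ 2 * y ^ (2 * M + 4)) (hRp1 : 1 ≤ Rp) (hW : 0 ≤ W) (hH : H ≤ Y) (hy : y ≤ Y)
    (hb : 48 * (2 : ℝ) ^ (2 * M) * (y : ℝ) ^ (2 * M + 4) ≤ c0 * (2 : ℝ) ^ y)
    (hS : S ≤ 1 / (2 : ℝ) ^ (2 * Y)) :
    Real.sqrt (3 * 2 ^ I) * 2 ^ H * (Real.sqrt (3 * 2 ^ I) / 2 ^ r / Rp) * W * S ≤
      2 ^ I / (Rp * I) * W * (c0 / (8 * 2 ^ (2 * M))) := by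
  have h := large_num M I r Rp H Y y (c0 / 2 ^ M) W S (by positivity) hI hI2 hRp1 hW hH hy
    (by
      rw [div_mul_eq_mul_div, le_div_iff₀ (by positivity)]
      have e : (2 : ℝ) ^ (2 * M) = 2 ^ M * 2 ^ M := by rw [two_mul, pow_add]
      rw [e] at hb
      linarith) hS
  refine h.trans (le_of_eq ?_)
  have e : (2 : ℝ) ^ (2 * M) = 2 ^ M * 2 ^ M := by rw [two_mul, pow_add]
  rw [e]
  field_simp

/-- the fixed primes kill the strongly biased kernels -/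
def Kills (T : Ty) (M y e0 : ℕ) (R : Finset ℕ) : Prop :=
  ∀ δ : ℕ, T.Adm δ → δ ≤ 2 ^ (8 * y ^ (2 * M - 1)) → T.StrongAt e0 (kap M y 0) δ →
    ∃ q ∈ R, T.X q δ = -1

open Classical in
/-- the tuples that are lost, with a factor `y ^ (4 M - 3)` to spare -/
theorem badTotalG (hT : T.Ok) (h1 : QRStmt T) (h2 : TupStmt) (h4 : TupLarge T) (h5 : TupSmall T)
    (h7 : BadSum T) (h8 : BadNum T) (h9 : StrongBad T) (h11 : PCStmt) (tt K : ℕ) :
    ∀ M : ℕ, 2 ≤ M → ∀ c1 : ℝ, 0 < c1 → ∃ y0 : ℕ, ∀ y : ℕ, y0 ≤ y → ∀ I : ℕ,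
  y ^ (2 * M + 4) ≤ I → I ≤ 2 * y ^ (2 * M + 4) → ∀ (k0 k1 : ℕ → ℕ) (e0 e1 r : ℕ)
  (R : Finset ℕ) (c : ℕ), GP M y K k0 k1 e0 e1 r I R c → Kills T M y e0 R →
  (((cfgG M y k0 k1 e0 e1 r I R c).Tup.filter (fun t => (∃ δ : ℕ, T.Adm δ ∧ Bad I y δ ∧
      T.Rep r δ ((cfgG M y k0 k1 e0 e1 r I R c).N t)) ∨
      ∃ e : ℕ, e ≤ tt ∧ ∃ u : ℕ, T.w * (cfgG M y k0 k1 e0 e1 r I R c).N t + e =
        T.E r * u ^ 2)).card : ℝ) ≤
    c1 / (y : ℝ) ^ (4 * M - 3) * (2 ^ I / ((cfgG M y k0 k1 e0 e1 r I R c).Rp * I)) *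
      ((cfgG M y k0 k1 e0 e1 r I R c).W / 2 ^ (2 * M)) * (3 / 8) := by
  intro M hM2 c1 hc1
  have hM : 1 ≤ M := by omega
  obtain ⟨C5, hC5, hsmall⟩ := h5
  obtain ⟨C9, hC9⟩ := h9
  obtain ⟨y7, hy7⟩ := h7 M hM
  obtain ⟨y8, hy8⟩ := h8 M hM 0.0001 (by norm_num)
  obtain ⟨y10, hy10⟩ := parG h11 M K hM2
  obtain ⟨ya, hya'⟩ := ev_pow (2 * M + 4 + (4 * M - 3)) 2 (by norm_num)
    (48 * 2 ^ (2 * M)) c1 hc1
  obtain ⟨ye, hye⟩ := ev_pow (2 * M + 3) 2 (by norm_num) (640 * K) 1 one_pos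
  obtain ⟨yb, hyb'⟩ := ev_pow (1 + (4 * M - 3)) ((2 : ℝ) ^ (0.3 : ℝ))
    (Real.one_lt_rpow (by norm_num) (by norm_num)) (32 * 2 ^ (2 * M) * ((tt : ℝ) + 2) ^ 2) c1 hc1
  obtain ⟨yc, hyc⟩ := ev_pow (2 * M + 4) 2 (by norm_num) 2 1 one_pos
  obtain ⟨yd, hyd'⟩ := ev_exp3 (4 * M - 3) (8 * M * C5 * 2 ^ (2 * M)) c1 hc1
  refine ⟨C9 + y7 + y8 + y10 + ya + yb + yc + yd + ye + 15,
    fun y hy I hI1 hI2 k0 k1 e0 e1 r R c G hkills => ?_⟩
  have hyR : (0 : ℝ) < y := by exact_mod_cast (by omega : 0 < y)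
  set c0 : ℝ := c1 / (y : ℝ) ^ (4 * M - 3) with hc0def
  have hyp : (0 : ℝ) < (y : ℝ) ^ (4 * M - 3) := by positivity
  have hc0 : 0 < c0 := by positivity
  have hyI0 : y ≤ I := (Nat.le_self_pow (by omega) y).trans hI1
  have hya : 48 * (2 : ℝ) ^ (2 * M) * (y : ℝ) ^ (2 * M + 4) ≤ c0 * 2 ^ y := by
    have := hya' y (by omega)
    rw [pow_add] at this
    rw [hc0def, div_mul_eq_mul_div, le_div_iff₀ (by positivity)]
    linarith
  have ht2 : (0 : ℝ) < ((tt : ℝ) + 2) ^ 2 := by positivity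
  have hyb : 32 * (2 : ℝ) ^ (2 * M) * (I : ℝ) ^ 1 ≤
      c0 / ((tt : ℝ) + 2) ^ 2 * ((2 : ℝ) ^ (0.3 : ℝ)) ^ I := by
    have := hyb' I (by omega)
    rw [pow_add] at this
    rw [hc0def, div_div, div_mul_eq_mul_div, le_div_iff₀ (by positivity)]
    refine le_trans ?_ this
    have h3 : (y : ℝ) ^ (4 * M - 3) ≤ (I : ℝ) ^ (4 * M - 3) :=
      pow_le_pow_left₀ hyR.le (by exact_mod_cast hyI0) _
    calc 32 * (2 : ℝ) ^ (2 * M) * (I : ℝ) ^ 1 * ((y : ℝ) ^ (4 * M - 3) * ((tt : ℝ) + 2) ^ 2)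
        ≤ 32 * (2 : ℝ) ^ (2 * M) * (I : ℝ) ^ 1 *
            ((I : ℝ) ^ (4 * M - 3) * ((tt : ℝ) + 2) ^ 2) := by
          gcongr
      _ = 32 * (2 : ℝ) ^ (2 * M) * ((tt : ℝ) + 2) ^ 2 * ((I : ℝ) ^ 1 * (I : ℝ) ^ (4 * M - 3)) := by
          ring
  have hyd : 8 * M * C5 * 2 ^ (2 * M) * Real.exp (-(0.0002 * (y : ℝ))) ≤ c0 := by
    have := hyd' y (by omega)
    rw [hc0def, le_div_iff₀ hyp]
    linarith
  obtain ⟨hOk, hS, hκ, hk2, -, hW⟩ := hy10 y (by omega) I hI1 hI2 k0 k1 e0 e1 r R c G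
  have h7' := hy7 y (by omega) I hI1 hI2
  obtain ⟨h8a, h8b⟩ := hy8 y (by omega) I hI1 hI2
  set g := cfgG M y k0 k1 e0 e1 r I R c with hg
  have hgI : g.I = I := rfl
  have hgr : g.r = r := rfl
  have hgR : g.R = R := rfl
  have hgRp : g.Rp = ∏ q ∈ R, q := rfl
  set Y := y ^ (2 * M - 1) with hY
  have hy1 : 1 ≤ y := by omega
  have hyY : y ≤ Y := by
    calc y = y ^ 1 := (pow_one y).symm
      _ ≤ y ^ (2 * M - 1) := Nat.pow_le_pow_right hy1 (by omega)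
  have hyI : y ≤ I := hyI0
  have hI : 1 ≤ I := by omega
  have hIr : (1 : ℝ) ≤ I := by exact_mod_cast hI
  have hRp1 : 1 ≤ g.Rp := by
    rw [hgRp]
    exact Finset.prod_pos fun q hq => (G.hRp q hq).1.pos
  have hRpr : (1 : ℝ) ≤ g.Rp := by exact_mod_cast hRp1
  have hW0 : 0 < g.W := lt_of_lt_of_le (by positivity) hW
  set A : ℝ := 2 ^ I / (g.Rp * I) * g.W with hA
  have hA0 : 0 < A := by positivity
  -- numbers of the tuples
  have hNodd : ∀ t ∈ g.Tup, g.N t % 2 = 1 ∧ g.N t ≤ 2 ^ I := by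
    intro t ht
    obtain ⟨s, hs1, hs2, -, -, -, -, -, hs8⟩ := h2 (2 * M) g hOk t ht
    rw [← hs2]
    refine ⟨prod_odd s fun q hq => ⟨(hs1 q hq).1, (hs1 q hq).2.1⟩, ?_⟩
    rw [hs2]
    exact hs8
  -- the three parts
  set La := g.Tup.filter (fun t => ∃ e : ℕ, e ≤ tt ∧ ∃ u : ℕ, T.w * g.N t + e =
    T.E g.r * u ^ 2) with hLa
  set D := (Icc 1 (3 * 2 ^ I)).filter (fun δ => T.Adm δ ∧ Bad I y δ) with hD
  let P : ℕ → Finset (Σ _ : Fin (2 * M) → Finset ℕ, ℕ) :=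
    fun δ => g.Tup.filter (fun t => T.Rep g.r δ (g.N t))
  have hsub : g.Tup.filter (fun t => (∃ δ : ℕ, T.Adm δ ∧ Bad I y δ ∧ T.Rep r δ (g.N t)) ∨
      ∃ e : ℕ, e ≤ tt ∧ ∃ u : ℕ, T.w * g.N t + e = T.E r * u ^ 2) ⊆ La ∪ D.biUnion P := by
    intro t ht
    rw [Finset.mem_filter] at ht
    rw [Finset.mem_union]
    rcases ht.2 with ⟨δ, hδ1, hδ2, hδ3⟩ | hu
    · right
      rw [Finset.mem_biUnion]
      obtain ⟨hN1, hN2⟩ := hNodd t ht.1
      refine ⟨δ, ?_, Finset.mem_filter.2 ⟨ht.1, hδ3⟩⟩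
      rw [hD, Finset.mem_filter]
      refine ⟨rep_le hT ?_ hδ1 hN1 I hN2 hδ3, hδ1, hδ2⟩
      have := G.hr
      omega
    · left
      exact Finset.mem_filter.2 ⟨ht.1, hu⟩
  -- (a)
  have hLa1 : (La.card : ℝ) ≤ A * (c0 / (8 * 2 ^ (2 * M))) := by
    have hUnn : 0 ≤ g.U := by unfold Cfg.U; positivity
    have hsubL : La ⊆ (range (tt + 1)).biUnion (fun e =>
        g.Tup.filter (fun t => ∃ u : ℕ, T.w * g.N t + e = T.E g.r * u ^ 2)) := by
      intro t ht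
      obtain ⟨ht1, e, he, hu⟩ := Finset.mem_filter.1 ht
      rw [Finset.mem_biUnion]
      exact ⟨e, Finset.mem_range.2 (by omega), Finset.mem_filter.2 ⟨ht1, hu⟩⟩
    have hcardL : (La.card : ℝ) ≤ ((tt : ℝ) + 2) ^ 2 * (2 ^ (g.I / 8) * (g.U + 2)) := by
      have e1 : (La.card : ℝ) ≤ ∑ e ∈ range (tt + 1),
          ((g.Tup.filter (fun t => ∃ u : ℕ, T.w * g.N t + e = T.E g.r * u ^ 2)).card : ℝ) := by
        have := (Finset.card_le_card hsubL).trans Finset.card_biUnion_le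
        exact_mod_cast this
      refine e1.trans ?_
      calc ∑ e ∈ range (tt + 1),
          ((g.Tup.filter (fun t => ∃ u : ℕ, T.w * g.N t + e = T.E g.r * u ^ 2)).card : ℝ)
          ≤ ∑ e ∈ range (tt + 1), 2 ^ (g.I / 8) * (((tt : ℝ) + 2) * (g.U + 2)) := by
            refine Finset.sum_le_sum fun e he => ?_
            refine le_trans (le_trans (le_of_eq ?_) (tupZeroT hT h2 e (2 * M) g hOk)) ?_
            · congr
            apply mul_le_mul_of_nonneg_left _ (by positivity)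
            have he1 : (e : ℝ) ≤ tt := by
              have := Finset.mem_range.1 he
              exact_mod_cast (by omega : e ≤ tt)
            have htt0 : (0 : ℝ) ≤ tt := Nat.cast_nonneg _
            nlinarith
        _ = ((tt : ℝ) + 1) * (2 ^ (g.I / 8) * (((tt : ℝ) + 2) * (g.U + 2))) := by
            rw [Finset.sum_const, Finset.card_range, nsmul_eq_mul]
            push_cast
            ring
        _ ≤ ((tt : ℝ) + 2) * (2 ^ (g.I / 8) * (((tt : ℝ) + 2) * (g.U + 2))) := by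
            apply mul_le_mul_of_nonneg_right (by linarith) (by positivity)
        _ = ((tt : ℝ) + 2) ^ 2 * (2 ^ (g.I / 8) * (g.U + 2)) := by ring
    have h := zero_num (2 * M) I g.r g.Rp (c0 / ((tt : ℝ) + 2) ^ 2) g.W
      (2 ^ (g.I / 8) * (g.U + 2)) (by positivity) hI hRp1 (by rw [hgRp]; exact G.hRle) hW
      hyb (le_of_eq rfl)
    rw [hA]
    calc (La.card : ℝ) ≤ ((tt : ℝ) + 2) ^ 2 * (2 ^ (g.I / 8) * (g.U + 2)) := hcardL
      _ ≤ ((tt : ℝ) + 2) ^ 2 * (2 ^ I / (g.Rp * I) * g.W *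
          (c0 / ((tt : ℝ) + 2) ^ 2 / (8 * 2 ^ (2 * M)))) := by gcongr
      _ = 2 ^ I / (g.Rp * I) * g.W * (c0 / (8 * 2 ^ (2 * M))) := by field_simp
  -- (b1)
  have hb1 : ∑ δ ∈ D.filter (fun δ => 2 ^ (8 * Y) < δ), ((P δ).card : ℝ) ≤
      A * (c0 / (8 * 2 ^ (2 * M))) := by
    set H := ∑ j, g.k j + g.R.card + 1 with hH
    have hH1 : H ≤ Y := by
      rw [hH, hg, cfgG_sum]
      exact G.tot
    have h' := large_numG M I g.r g.Rp H Y y c0 g.W
      (∑ δ ∈ D.filter (fun δ => 2 ^ (8 * Y) < δ), 1 / Real.sqrt δ) hc0 hI hI2 hRp1 hW0.le hH1 hyY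
      hya (by
        refine le_trans (le_of_eq ?_) h7'
        apply Finset.sum_congr _ (fun _ _ => rfl)
        rw [hD, Finset.filter_filter]
        ext δ
        simp only [Finset.mem_filter]
        tauto)
    rw [hA]
    refine le_trans ?_ h'
    rw [Finset.mul_sum]
    refine Finset.sum_le_sum fun δ hδ => ?_
    have hδ2 := (Finset.mem_filter.1 (Finset.mem_filter.1 hδ).1)
    have h9 := h4 (2 * M) g hOk δ hδ2.2.1
    have hδ0 : (0 : ℝ) < δ := by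
      have := (Finset.mem_Icc.1 hδ2.1).1
      exact_mod_cast this
    refine h9.trans (le_of_eq ?_)
    rw [Real.sqrt_div (by positivity)]
    unfold Cfg.U
    rw [hgI]
    ring
  -- (b2), (b3)
  have hb3 : ∑ δ ∈ D.filter (fun δ => ¬ 2 ^ (8 * Y) < δ), ((P δ).card : ℝ) ≤
      A * (c0 / (8 * 2 ^ (2 * M))) := by
    set D' := D.filter (fun δ => ¬ 2 ^ (8 * Y) < δ) with hD'
    let Dj : Fin M → Finset ℕ := fun j => D'.filter (fun δ => ¬ T.StrongAt e0 (kap M y j) δ ∧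
      ((j : ℕ) + 1 < M → T.StrongAt e0 (kap M y ((j : ℕ) + 1)) δ))
    have hmemD : ∀ δ ∈ D', 1 ≤ δ ∧ δ ≤ 2 ^ (8 * Y) ∧ T.Adm δ ∧ Bad I y δ := by
      intro δ hδ
      obtain ⟨ha, hb⟩ := Finset.mem_filter.1 hδ
      obtain ⟨hc, hd⟩ := Finset.mem_filter.1 ha
      exact ⟨(Finset.mem_Icc.1 hc).1, not_lt.1 hb, hd.1, hd.2⟩
    have hpt : ∀ δ ∈ D', ((P δ).card : ℝ) ≤
        ∑ j : Fin M, if δ ∈ Dj j then ((P δ).card : ℝ) else 0 := by
      intro δ hδ
      obtain ⟨hδ1, hδ2, hδ3, hδ4⟩ := hmemD δ hδ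
      by_cases hst : T.StrongAt e0 (kap M y 0) δ
      · -- killed
        obtain ⟨q, hqR, hqJ⟩ := hkills δ hδ3 hδ2 hst
        have hempty : P δ = ∅ := by
          apply Finset.filter_eq_empty_iff.2
          intro t ht
          obtain ⟨s, -, -, -, -, hs5, -, hs7, -⟩ := h2 (2 * M) g hOk t ht
          have hqs : q ∈ s := hs5 hqR
          exact h1.kill g.r δ (g.N t) q hδ3 (G.hRp q hqR).1 (G.hRp q hqR).2.1 hqJ
            (hs7 q hqs).1 (hs7 q hqs).2
        rw [hempty]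
        simp
      · obtain ⟨j, hj1, hj2⟩ := last_level hM (fun i => T.StrongAt e0 (kap M y i) δ) hst
        have hmem : δ ∈ Dj j := Finset.mem_filter.2 ⟨hδ, hj1, hj2⟩
        calc ((P δ).card : ℝ) = (if δ ∈ Dj j then ((P δ).card : ℝ) else 0) := by
              rw [if_pos hmem]
          _ ≤ ∑ j : Fin M, if δ ∈ Dj j then ((P δ).card : ℝ) else 0 :=
              Finset.single_le_sum
                (f := fun j : Fin M => if δ ∈ Dj j then ((P δ).card : ℝ) else 0)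
                (fun i _ => by positivity) (Finset.mem_univ j)
    have hjb : ∀ j : Fin M, ∑ δ ∈ D', (if δ ∈ Dj j then ((P δ).card : ℝ) else 0) ≤
        C5 * A * Real.exp (-(0.0002 * (y : ℝ))) := by
      intro j
      -- the block of the first family at the level `j`
      set jj : Fin (2 * M) := ⟨2 * (j : ℕ), by have := j.2; omega⟩ with hjj
      have hj2 : 2 * (j : ℕ) % 2 = 0 := by omega
      have hj3 : 2 * (j : ℕ) / 2 = (j : ℕ) := by omega
      have hκjj : g.κ jj = kap M y j := by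
        show kap M y (2 * (j : ℕ) / 2) + 2 * (j : ℕ) % 2 = kap M y j
        rw [hj2, hj3]; rfl
      have hcljj : g.cl jj = e0 := by
        show (if 2 * (j : ℕ) % 2 = 0 then e0 else e1) = e0
        rw [if_pos hj2]
      have hkjj : g.k jj = k0 j := by
        show (if 2 * (j : ℕ) % 2 = 0 then k0 (2 * (j : ℕ) / 2) else k1 (2 * (j : ℕ) / 2)) = k0 j
        rw [if_pos hj2, hj3]
      have hsum : ∑ δ ∈ D', (if δ ∈ Dj j then ((P δ).card : ℝ) else 0) =
          ∑ δ ∈ Dj j, ((P δ).card : ℝ) := by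
        rw [← Finset.sum_filter]
        apply Finset.sum_congr _ (fun _ _ => rfl)
        ext δ
        simp only [Finset.mem_filter, Dj]
        tauto
      rw [hsum]
      have hPδ : ∀ δ ∈ Dj j, ((P δ).card : ℝ) ≤ C5 * A * (1 - 1 / 80) ^ (g.k jj) := by
        intro δ hδ
        obtain ⟨ha, hb⟩ := Finset.mem_filter.1 hδ
        obtain ⟨hδ1, hδ2, hδ3, hδ4⟩ := hmemD δ ha
        have hκ1 := (hκ jj).1
        have h15 : 15 ≤ g.κ jj := by omega
        have hpw : 640 * K * g.κ jj ≤ 2 ^ (g.κ jj) := by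
          have hκle : g.κ jj ≤ y ^ (2 * M + 3) := by
            rw [hκjj]
            exact Nat.pow_le_pow_right hy1 (by omega)
          have h12 := hye y (by omega)
          rw [one_mul] at h12
          have h13 : 640 * K * y ^ (2 * M + 3) ≤ 2 ^ y := by exact_mod_cast h12
          calc 640 * K * g.κ jj ≤ 640 * K * y ^ (2 * M + 3) := Nat.mul_le_mul_left _ hκle
            _ ≤ 2 ^ y := h13
            _ ≤ 2 ^ (g.κ jj) := Nat.pow_le_pow_right (by norm_num) hκ1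
        have hth := theta_condT g K jj δ (by rw [hgR]; exact G.hRc) h15 hpw
          (hS jj) (by rw [hκjj, hcljj]; exact hb.1)
        refine (hsmall (2 * M) g hOk δ hδ3 jj (1 / 80) (by norm_num) (by norm_num) hth).trans
          (le_of_eq ?_)
        rw [hA, hgI]
        ring
      have hnum : ((Dj j).card : ℝ) ≤ (2 : ℝ) ^ (0.0001 * (y : ℝ) ^ (2 * (j : ℕ) + 1)) := by
        by_cases hjM : (j : ℕ) + 1 < M
        · refine le_trans ?_ (h8b j hjM)
          have : Dj j ⊆ (Icc 1 (2 ^ (8 * Y))).filter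
              (fun δ => T.Adm δ ∧ BadAt I (kap M y ((j : ℕ) + 1)) δ) := by
            intro δ hδ
            obtain ⟨ha, hb⟩ := Finset.mem_filter.1 hδ
            obtain ⟨hδ1, hδ2, hδ3, hδ4⟩ := hmemD δ ha
            rw [Finset.mem_filter]
            refine ⟨Finset.mem_Icc.2 ⟨hδ1, hδ2⟩, hδ3, ?_⟩
            -- the exponent is at least `y ^ 4`
            have hkk := @Pool.Agent.H413R3.OddT.par_kap M y ((j : ℕ) + 1) hjM hy1
            have hy4 : y ^ 2 ≤ kap M y ((j : ℕ) + 1) := by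
              unfold kap
              exact Nat.pow_le_pow_right hy1 (by omega)
            have hyk : y ≤ kap M y ((j : ℕ) + 1) :=
              le_trans (Nat.le_self_pow (by norm_num) y) hy4
            have hkI : kap M y ((j : ℕ) + 1) ≤ I :=
              hkk.2.1.trans ((Nat.pow_le_pow_right hy1 (by omega)).trans hI1)
            have hy5 : y ≤ kap M y ((j : ℕ) + 1) / 4 := by
              rw [Nat.le_div_iff_mul_le (by norm_num)]
              refine le_trans ?_ hy4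
              rw [sq]
              exact Nat.mul_le_mul_left _ (by omega)
            apply hC9 e0 I (kap M y ((j : ℕ) + 1)) δ G.he0 (by omega) hkI _ hδ1 _ (hb.2 hjM)
            · have hc1 := hyc y (by omega)
              rw [one_mul] at hc1
              have hc2 : 2 * y ^ (2 * M + 4) ≤ 2 ^ y := by exact_mod_cast hc1
              calc I ≤ 2 * y ^ (2 * M + 4) := hI2
                _ ≤ 2 ^ y := hc2
                _ ≤ 2 ^ (kap M y ((j : ℕ) + 1) / 4) := Nat.pow_le_pow_right (by norm_num) hy5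
            · refine hδ2.trans (Nat.pow_le_pow_right (by norm_num) ?_)
              refine le_trans ?_ hI1
              rw [hY]
              have e1 : y ^ (2 * M + 4) = y ^ 5 * y ^ (2 * M - 1) := by
                rw [← pow_add]
                congr 1
                omega
              rw [e1]
              apply Nat.mul_le_mul_right
              calc 8 ≤ y := by omega
                _ = y ^ 1 := (pow_one y).symm
                _ ≤ y ^ 5 := Nat.pow_le_pow_right hy1 (by norm_num)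
          exact Nat.cast_le.2 (Finset.card_le_card this)
        · have hj : (j : ℕ) + 1 = M := by
            have := j.2
            omega
          have e1 : 2 * (j : ℕ) + 1 = 2 * M - 1 := by omega
          rw [e1]
          refine le_trans ?_ h8a
          have : Dj j ⊆ (Icc 1 (2 ^ (8 * Y))).filter (fun δ => T.Adm δ ∧ Bad I y δ) := by
            intro δ hδ
            obtain ⟨ha, hb⟩ := Finset.mem_filter.1 hδ
            obtain ⟨hδ1, hδ2, hδ3, hδ4⟩ := hmemD δ ha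
            rw [Finset.mem_filter]
            exact ⟨Finset.mem_Icc.2 ⟨hδ1, hδ2⟩, hδ3, hδ4⟩
          exact Nat.cast_le.2 (Finset.card_le_card this)
      have hyx : (y : ℝ) ≤ (y : ℝ) ^ (2 * (j : ℕ) + 1) := by
        have h : y ^ 1 ≤ y ^ (2 * (j : ℕ) + 1) := Nat.pow_le_pow_right hy1 (by omega)
        rw [pow_one] at h
        exact_mod_cast h
      have hkl : (y : ℝ) ^ (2 * (j : ℕ) + 1) / 32 ≤ (g.k jj : ℝ) := by
        rw [hkjj]
        have h := G.k0l j j.2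
        have h' : (y : ℝ) ^ (2 * (j : ℕ) + 1) ≤ 32 * (k0 j : ℝ) := by exact_mod_cast h
        linarith
      have hfin := small_numG ((Dj j).card : ℝ) ((y : ℝ) ^ (2 * (j : ℕ) + 1)) y (g.k jj) hyx
        (Nat.cast_nonneg _) hnum hkl
      calc ∑ δ ∈ Dj j, ((P δ).card : ℝ)
          ≤ ∑ δ ∈ Dj j, C5 * A * (1 - 1 / 80) ^ (g.k jj) := Finset.sum_le_sum hPδ
        _ = C5 * A * (((Dj j).card : ℝ) * (1 - 1 / 80) ^ (g.k jj)) := by
            rw [Finset.sum_const, nsmul_eq_mul]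
            ring
        _ ≤ C5 * A * Real.exp (-(0.0002 * (y : ℝ))) := by gcongr
    calc ∑ δ ∈ D', ((P δ).card : ℝ)
        ≤ ∑ δ ∈ D', ∑ j : Fin M, (if δ ∈ Dj j then ((P δ).card : ℝ) else 0) :=
          Finset.sum_le_sum hpt
      _ = ∑ j : Fin M, ∑ δ ∈ D', (if δ ∈ Dj j then ((P δ).card : ℝ) else 0) :=
          Finset.sum_comm
      _ ≤ ∑ j : Fin M, C5 * A * Real.exp (-(0.0002 * (y : ℝ))) :=
          Finset.sum_le_sum fun j _ => hjb j
      _ = M * (C5 * A * Real.exp (-(0.0002 * (y : ℝ)))) := by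
          rw [Finset.sum_const, Finset.card_univ, Fintype.card_fin, nsmul_eq_mul]
      _ ≤ A * (c0 / (8 * 2 ^ (2 * M))) := by
          have hd := hyd
          rw [mul_div_assoc', le_div_iff₀ (by positivity)]
          calc (M : ℝ) * (C5 * A * Real.exp (-(0.0002 * (y : ℝ)))) * (8 * 2 ^ (2 * M))
              = A * (8 * M * C5 * 2 ^ (2 * M) * Real.exp (-(0.0002 * (y : ℝ)))) := by ring
            _ ≤ A * c0 := by gcongr
  -- conclusion
  have hcardle : ((g.Tup.filter (fun t => (∃ δ : ℕ, T.Adm δ ∧ Bad I y δ ∧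
      T.Rep r δ (g.N t)) ∨ ∃ e : ℕ, e ≤ tt ∧ ∃ u : ℕ, T.w * g.N t + e =
        T.E r * u ^ 2)).card : ℝ) ≤
      (La.card : ℝ) + ∑ δ ∈ D, ((P δ).card : ℝ) := by
    have e1 := (Finset.card_le_card hsub).trans (Finset.card_union_le _ _)
    have e2 : (D.biUnion P).card ≤ ∑ δ ∈ D, (P δ).card := Finset.card_biUnion_le
    have e3 := e1.trans (Nat.add_le_add_left e2 _)
    exact_mod_cast e3
  have hsplit := Finset.sum_filter_add_sum_filter_not D (fun δ => 2 ^ (8 * Y) < δ)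
    (fun δ => ((P δ).card : ℝ))
  refine hcardle.trans ?_
  have hgoal : c0 * (2 ^ I / ((g.Rp : ℝ) * I)) * (g.W / 2 ^ (2 * M)) * (3 / 8) =
      A * (c0 / (8 * 2 ^ (2 * M))) * 3 := by
    rw [hA]
    field_simp
  rw [hgoal]
  linarith

end Pool.Agent.L7h67.OD
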