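import Pool.Agent.L7h67.OD.Defs

set_option autoImplicit false

/-!
# Quadratic residues and the forms `δ s² + 2 ^ e0 4 ^ r u²` (adapted from `Pool.Agent.H307R2.OP.QR`)
-/

namespace Pool.Agent.L7h67.OD

open Finset
open Pool.Agent.H307R2.OP (J PB BadAt Bad Pr2 kap rr)

theorem sg_val (T : Ty) (q : ℕ) : T.sg q = 1 ∨ T.sg q = -1 := by
  unfold Ty.sg
  split_ifs <;> norm_num

theorem sg_mod (T : Ty) {q c : ℕ} (h : q % 8 = c % 8) : T.sg q = T.sg c := by
  unfold Ty.sg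
  have h4 : q % 4 = c % 4 := by omega
  rw [h, h4]

theorem X_val (T : Ty) (q δ : ℕ) : T.X q δ = -1 ∨ T.X q δ = 0 ∨ T.X q δ = 1 := by
  unfold Ty.X J
  rcases sg_val T q with h | h <;> rcases jacobiSym.trichotomy (q : ℤ) δ with h' | h' | h' <;>
    rw [h, h'] <;> norm_num

theorem X_abs (T : Ty) (q δ : ℕ) : |T.X q δ| = |J q δ| := by
  unfold Ty.X
  rw [abs_mul]
  rcases sg_val T q with h | h <;> rw [h] <;> norm_num

/-- on a class the sums of the characters agree up to the sign -/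
theorem sum_X (T : Ty) (i c : ℕ) (f : ℕ → ℝ) (δ : ℕ) :
    ∑ p ∈ PB i c, T.X p δ * f p = (T.sg c : ℝ) * ∑ p ∈ PB i c, J p δ * f p := by
  rw [Finset.mul_sum]
  refine Finset.sum_congr rfl fun p hp => ?_
  have h8 : p % 8 = c := (mem_filter.1 hp).2.2
  unfold Ty.X
  rw [sg_mod T (q := p) (c := c) (by omega)]
  ring

theorem abs_sum_X (T : Ty) (i c δ : ℕ) :
    |∑ p ∈ PB i c, T.X p δ / p| = |∑ p ∈ PB i c, J p δ / p| := by
  have h := sum_X T i c (fun p => (p : ℝ)⁻¹) δ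
  simp only [← div_eq_mul_inv] at h
  rw [h, abs_mul]
  rcases sg_val T c with h | h <;> rw [h] <;> norm_num

theorem Ty.Adm.pos {T : Ty} {δ : ℕ} (h : T.Adm δ) : 0 < δ := Nat.pos_of_ne_zero h.2.ne_zero

theorem Ty.Adm.odd {T : Ty} (hT : T.Ok) {δ : ℕ} (h : T.Adm δ) : δ % 2 = 1 := by
  have h1 := h.1
  rcases hT.hd with hd | hd <;> omega

theorem Ty.Ok.w_odd {T : Ty} (hT : T.Ok) : T.w % 2 = 1 := by
  rcases hT.hw with h | h <;> rw [h]

theorem Ty.Ok.w_le {T : Ty} (hT : T.Ok) : T.w ≤ 3 := by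
  rcases hT.hw with h | h <;> rw [h]; norm_num

theorem Ty.Ok.w_pos {T : Ty} (hT : T.Ok) : 0 < T.w := by
  rcases hT.hw with h | h <;> rw [h] <;> norm_num

theorem four_le_E (T : Ty) (r : ℕ) : 4 ^ r ≤ T.E r :=
  Nat.le_mul_of_pos_left _ (by positivity)

theorem E_even (T : Ty) {r : ℕ} (hr : 1 ≤ r) : 2 ∣ T.E r := by
  unfold Ty.E
  apply Dvd.dvd.mul_left
  have : (4 : ℕ) ^ r = 4 ^ (r - 1) * 4 := by
    rw [← pow_succ]
    congr 1
    omega
  rw [this]
  exact dvd_mul_of_dvd_right (by norm_num) _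

/-- the sizes of `s` and `u` in a representation -/
theorem rep_bound {T : Ty} (hT : T.Ok) {r δ N s u I : ℕ} (hN : N ≤ 2 ^ I)
    (h : T.w * N = δ * s ^ 2 + T.E r * u ^ 2) :
    δ * s ^ 2 ≤ 3 * 2 ^ I ∧ 4 ^ r * u ^ 2 ≤ 3 * 2 ^ I := by
  have h1 : T.w * N ≤ 3 * 2 ^ I := Nat.mul_le_mul hT.w_le hN
  have h2 : 4 ^ r * u ^ 2 ≤ T.E r * u ^ 2 := Nat.mul_le_mul_right _ (four_le_E T r)
  omega

theorem rep_bound_u {I r u : ℕ} (h : 4 ^ r * u ^ 2 ≤ 3 * 2 ^ I) :
    (u : ℝ) ≤ Real.sqrt (3 * 2 ^ I) / 2 ^ r := by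
  rw [le_div_iff₀ (by positivity)]
  apply Real.le_sqrt_of_sq_le
  have h6 : ((2 : ℝ) ^ r) ^ 2 = 4 ^ r := by
    rw [← pow_mul, mul_comm, pow_mul]; norm_num
  rw [mul_pow, h6]
  have h3 : ((4 : ℝ) ^ r * (u : ℝ) ^ 2) ≤ 3 * 2 ^ I := by exact_mod_cast h
  linarith

theorem rep_bound_s {I δ s : ℕ} (hδ : 0 < δ) (h : δ * s ^ 2 ≤ 3 * 2 ^ I) :
    (s : ℝ) ≤ Real.sqrt (3 * 2 ^ I / δ) := by
  have hδR : (0 : ℝ) < δ := by exact_mod_cast hδ
  apply Real.le_sqrt_of_sq_le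
  rw [le_div_iff₀ hδR]
  have h3 : ((δ : ℝ) * (s : ℝ) ^ 2) ≤ 3 * 2 ^ I := by exact_mod_cast h
  linarith

namespace QRA

/-- the sign is the value of the character `(-2 ^ e0 (δ) | q)` against `(q | δ)` -/
theorem legendre (T : Ty) (hT : T.Ok) (δ q : ℕ) (hδ : T.Adm δ) (hq : q.Prime) (h5 : 5 ≤ q) :
    haveI := Fact.mk hq
    legendreSym q (-((2 : ℤ) ^ T.e0 * (δ : ℤ))) = T.sg q * jacobiSym (q : ℤ) δ := by
  haveI := Fact.mk hq
  have hq2 : q ≠ 2 := by omega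
  have hqo : Odd q := hq.odd_of_ne_two hq2
  have hq8 : q % 8 = 1 ∨ q % 8 = 3 ∨ q % 8 = 5 ∨ q % 8 = 7 := by
    have := Nat.odd_iff.mp hqo
    omega
  have hδ1 := hδ.1
  have hδo : Odd δ := by
    rw [Nat.odd_iff]
    rcases hT.hd with h | h <;> omega
  have e1 : -((2 : ℤ) ^ T.e0 * (δ : ℤ)) = (2 : ℤ) ^ T.e0 * (-(δ : ℤ)) := by ring
  rw [e1, legendreSym.mul]
  have hneg : legendreSym q (-(δ : ℤ)) =
      (if T.d4 = 1 ∧ q % 4 = 3 then -1 else 1) * jacobiSym (q : ℤ) δ := by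
    rw [jacobiSym.legendreSym.to_jacobiSym, jacobiSym.neg _ hqo]
    rcases hT.hd with hd | hd
    · have hδ4 : δ % 4 = 1 := by rw [hδ1, hd]
      rw [jacobiSym.quadratic_reciprocity_one_mod_four hδ4 hqo]
      rcases hq8 with h | h | h | h
      · rw [ZMod.χ₄_nat_one_mod_four (by omega), if_neg (by omega)]
      · rw [ZMod.χ₄_nat_three_mod_four (by omega), if_pos ⟨hd, by omega⟩]
      · rw [ZMod.χ₄_nat_one_mod_four (by omega), if_neg (by omega)]
      · rw [ZMod.χ₄_nat_three_mod_four (by omega), if_pos ⟨hd, by omega⟩]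
    · have hδ4 : δ % 4 = 3 := by rw [hδ1, hd]
      rw [if_neg (by rw [hd]; norm_num), one_mul]
      have hq4 : q % 4 = 1 ∨ q % 4 = 3 := by omega
      rcases hq4 with h | h
      · rw [ZMod.χ₄_nat_one_mod_four h, one_mul]
        exact (jacobiSym.quadratic_reciprocity_one_mod_four h hδo).symm
      · rw [ZMod.χ₄_nat_three_mod_four h]
        rw [jacobiSym.quadratic_reciprocity_three_mod_four h hδ4]
        ring
  have htwo : legendreSym q ((2 : ℤ) ^ T.e0) =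
      (if T.e0 = 1 ∧ (q % 8 = 3 ∨ q % 8 = 5) then -1 else 1) := by
    rcases hT.he with he | he
    · rw [he, pow_zero, if_neg (by norm_num)]
      exact legendreSym.at_one q
    · rw [he, pow_one, legendreSym.at_two hq2, ZMod.χ₈_nat_eq_if_mod_eight]
      rcases hq8 with h | h | h | h
      · rw [if_neg (by omega), if_pos (by omega), if_neg (by omega)]
      · rw [if_neg (by omega), if_neg (by omega), if_pos ⟨rfl, by omega⟩]
      · rw [if_neg (by omega), if_neg (by omega), if_pos ⟨rfl, by omega⟩]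
      · rw [if_neg (by omega), if_pos (by omega), if_neg (by omega)]
  rw [hneg, htwo]
  unfold Ty.sg
  ring

theorem not_dvd_E (T : Ty) {q : ℕ} (hq : q.Prime) (h5 : 5 ≤ q) (r : ℕ) : ¬ q ∣ T.E r := by
  intro h
  unfold Ty.E at h
  rcases hq.dvd_mul.mp h with h | h
  · have h1 : q ∣ 2 := hq.dvd_of_dvd_pow h
    have := Nat.le_of_dvd (by norm_num) h1
    omega
  · have h1 : q ∣ 4 := hq.dvd_of_dvd_pow h
    have := Nat.le_of_dvd (by norm_num) h1
    omega

theorem not_dvd_w (T : Ty) (hT : T.Ok) {q : ℕ} (h5 : 5 ≤ q) : ¬ q ∣ T.w := by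
  intro h
  rcases hT.hw with h' | h' <;> rw [h'] at h <;>
    have := Nat.le_of_dvd (by norm_num) h <;> omega

theorem om_zero (T : Ty) (r δ s q : ℕ) (hq : q.Prime) (h5 : 5 ≤ q) (hs : q ∣ s) :
    T.Om r δ s q = {0} := by
  ext u
  simp only [Ty.Om, mem_filter, mem_range, mem_singleton]
  constructor
  · rintro ⟨hu, hd⟩
    have h1 : q ∣ δ * s ^ 2 := (dvd_pow hs two_ne_zero).mul_left δ
    have h2 : q ∣ T.E r * u ^ 2 := (Nat.dvd_add_right h1).mp hd
    rcases hq.dvd_mul.mp h2 with h | h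
    · exact absurd h (not_dvd_E T hq h5 r)
    · have h3 : q ∣ u := hq.dvd_of_dvd_pow h
      by_contra hne
      have := Nat.le_of_dvd (Nat.pos_of_ne_zero hne) h3
      omega
  · rintro rfl
    refine ⟨hq.pos, ?_⟩
    simpa using (dvd_pow hs two_ne_zero).mul_left δ

theorem om_card (T : Ty) (hT : T.Ok) (r δ s q : ℕ) (hδ : T.Adm δ) (hq : q.Prime) (h5 : 5 ≤ q)
    (hs : ¬ q ∣ s) : (((T.Om r δ s q).card : ℤ)) = 1 + T.sg q * jacobiSym (q : ℤ) δ := by
  haveI := Fact.mk hq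
  have h1 := legendreSym.card_sqrts q (by omega : q ≠ 2) (-((2 : ℤ) ^ T.e0 * (δ : ℤ)))
  rw [legendre T hT δ q hδ hq h5] at h1
  rw [add_comm, ← h1]
  have hs0 : (s : ZMod q) ≠ 0 := by
    rw [Ne, ZMod.natCast_eq_zero_iff]; exact hs
  have h20 : (2 : ZMod q) ≠ 0 := by
    intro h
    have : ((2 : ℕ) : ZMod q) = 0 := by exact_mod_cast h
    rw [ZMod.natCast_eq_zero_iff] at this
    have := Nat.le_of_dvd (by norm_num) this
    omega
  have h2r : (2 : ZMod q) ^ r ≠ 0 := pow_ne_zero _ h20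
  have h2e : (2 : ZMod q) ^ T.e0 ≠ 0 := pow_ne_zero _ h20
  have h4r : (4 : ZMod q) ^ r = ((2 : ZMod q) ^ r) ^ 2 := by
    rw [← pow_mul, mul_comm, pow_mul]; norm_num
  have hmem : ∀ u : ℕ, (q ∣ δ * s ^ 2 + T.E r * u ^ 2) ↔
      ((δ : ZMod q) * s ^ 2 + 2 ^ T.e0 * 4 ^ r * u ^ 2 = 0) := by
    intro u
    rw [← ZMod.natCast_eq_zero_iff]
    unfold Ty.E
    push_cast
    rfl
  congr 1
  refine Finset.card_bij (fun u _ => (2 : ZMod q) ^ T.e0 * (2 ^ r * u * (s : ZMod q)⁻¹)) ?_ ?_ ?_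
  · intro u hu
    simp only [Ty.Om, mem_filter, mem_range] at hu
    have h := (hmem u).mp hu.2
    simp only [Set.mem_toFinset, Set.mem_ofPred_eq]
    have h' : 2 ^ T.e0 * 4 ^ r * (u : ZMod q) ^ 2 = -((δ : ZMod q) * s ^ 2) := by
      linear_combination h
    push_cast
    have e2 : ((2 : ZMod q) ^ T.e0 * (2 ^ r * u * (s : ZMod q)⁻¹)) ^ 2 =
        2 ^ T.e0 * (2 ^ T.e0 * 4 ^ r * (u : ZMod q) ^ 2) * ((s : ZMod q)⁻¹) ^ 2 := by
      rw [h4r]; ring
    rw [e2, h']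
    field_simp
  · intro u hu v hv huv
    simp only [Ty.Om, mem_filter, mem_range] at hu hv
    have h : (u : ZMod q) = v := by
      have h1 := mul_left_cancel₀ h2e huv
      have h2 := mul_right_cancel₀ (inv_ne_zero hs0) h1
      exact mul_left_cancel₀ h2r h2
    rw [ZMod.natCast_eq_natCast_iff'] at h
    rwa [Nat.mod_eq_of_lt hu.1, Nat.mod_eq_of_lt hv.1] at h
  · intro x hx
    simp only [Set.mem_toFinset, Set.mem_ofPred_eq] at hx
    refine ⟨(x * s * ((2 : ZMod q) ^ r)⁻¹ * ((2 : ZMod q) ^ T.e0)⁻¹).val, ?_, ?_⟩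
    · simp only [Ty.Om, mem_filter, mem_range]
      refine ⟨ZMod.val_lt _, (hmem _).mpr ?_⟩
      rw [ZMod.natCast_val, ZMod.cast_id', id]
      rw [mul_pow, mul_pow, mul_pow, hx, h4r]
      push_cast
      field_simp
      ring
    · rw [ZMod.natCast_val, ZMod.cast_id', id]
      field_simp

end QRA

theorem qr (T : Ty) (hT : T.Ok) : QRStmt T where
  val := X_val T
  kill := by
    rintro r δ N q hA hq h5 hJ hN hN2 ⟨s, u, hsu⟩
    have hJ' : T.sg q * jacobiSym (q : ℤ) δ = -1 := by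
      unfold Ty.X J at hJ
      exact_mod_cast hJ
    have hw : ¬ q ∣ T.w := by
      intro h
      rcases hT.hw with h' | h' <;> rw [h'] at h <;>
        have := Nat.le_of_dvd (by norm_num) h <;> omega
    by_cases hs : q ∣ s
    · have h1 : q ∣ δ * s ^ 2 := (dvd_pow hs two_ne_zero).mul_left δ
      have h0 : q ∣ δ * s ^ 2 + T.E r * u ^ 2 := hsu ▸ (hN.mul_left T.w)
      have h2 : q ∣ T.E r * u ^ 2 := (Nat.dvd_add_right h1).mp h0
      have h3 : q ∣ u := by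
        rcases hq.dvd_mul.mp h2 with h | h
        · exact absurd h (QRA.not_dvd_E T hq h5 r)
        · exact hq.dvd_of_dvd_pow h
      have h4 : q ^ 2 ∣ T.w * N := by
        rw [hsu]
        exact dvd_add ((pow_dvd_pow_of_dvd hs 2).mul_left δ)
          ((pow_dvd_pow_of_dvd h3 2).mul_left _)
      have hc : Nat.Coprime (q ^ 2) T.w := by
        apply Nat.Coprime.pow_left
        exact (Nat.Prime.coprime_iff_not_dvd hq).2 hw
      exact hN2 (hc.dvd_of_dvd_mul_left h4)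
    · have hc := QRA.om_card T hT r δ s q hA hq h5 hs
      rw [hJ'] at hc
      have hc0 : (T.Om r δ s q).card = 0 := by
        have : ((T.Om r δ s q).card : ℤ) = 0 := by rw [hc]; norm_num
        exact_mod_cast this
      have hmem : u % q ∈ T.Om r δ s q := by
        simp only [Ty.Om, mem_filter, mem_range]
        refine ⟨Nat.mod_lt _ hq.pos, ?_⟩
        have h0 : q ∣ δ * s ^ 2 + T.E r * u ^ 2 := hsu ▸ (hN.mul_left T.w)
        have h1 : (δ * s ^ 2 + T.E r * (u % q) ^ 2) ≡ (δ * s ^ 2 + T.E r * u ^ 2) [MOD q] :=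
          Nat.ModEq.add_left _ (Nat.ModEq.mul_left _ ((Nat.mod_modEq u q).pow 2))
        exact (h1.dvd_iff dvd_rfl).mpr h0
      rw [Finset.card_eq_zero] at hc0
      rw [hc0] at hmem
      exact absurd hmem (Finset.notMem_empty _)
  om_card := by
    rintro r δ s q hA hq h5 hs
    have h := QRA.om_card T hT r δ s q hA hq h5 hs
    unfold Ty.X J
    exact_mod_cast h
  om_zero := by
    rintro r δ s q - hq h5 hs
    exact QRA.om_zero T r δ s q hq h5 hs

end Pool.Agent.L7h67.OD
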