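import Pool.Agent.H307R2.OP.RCH
import Pool.Agent.L7h67.OD.STR
import Pool.Agent.L7h67.OD.Btu

set_option autoImplicit false

/-! The choice of the fixed primes (generalisation of `Pool.Agent.H413R3.OddL.Rch`) -/

namespace Pool.Agent.L7h67.OD

open Finset
open Pool.Agent.H307R2.OP (J PB BadAt Bad Pr2 kap rr rch_pow)
open Pool.Agent.H413R3.OddL.STRL (not_sq_mul)

variable {T : Ty}

/-- among four kernels there are three whose product is not a square -/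
theorem triple_sq {a b c d : ℕ} (ha : 0 < a) (hb : 0 < b) (hc : Squarefree c) (hd : Squarefree d)
    (hcd : c ≠ d) (h1 : IsSquare (a * b * c)) : ¬ IsSquare (a * b * d) := by
  intro h2
  obtain ⟨k, hk⟩ := h1
  obtain ⟨l, hl⟩ := h2
  have hc0 : c ≠ 0 := hc.ne_zero
  have h3 : (a * b) ^ 2 * (c * d) = (k * l) ^ 2 := by
    calc (a * b) ^ 2 * (c * d) = (a * b * c) * (a * b * d) := by ring
      _ = (k * l) ^ 2 := by rw [hk, hl]; ring
  have h4 : a * b ∣ k * l := by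
    have : (a * b) ^ 2 ∣ (k * l) ^ 2 := ⟨c * d, h3.symm⟩
    exact (Nat.pow_dvd_pow_iff (by norm_num)).1 this
  obtain ⟨m, hm⟩ := h4
  apply not_sq_mul hc hd hcd hc0
  refine ⟨m, ?_⟩
  rw [hm] at h3
  have h5 : (a * b) ^ 2 * (c * d) = (a * b) ^ 2 * (m * m) := by rw [h3]; ring
  exact Nat.eq_of_mul_eq_mul_left (by positivity) h5

open Classical in
/-- choice of the fixed primes -/
theorem rchG (h1 : StrongStmt T) (h2 : KillPrime) (e0 e1 f : ℕ)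
    (he : (e0 = 3 ∧ e1 = 5) ∨ (e0 = 5 ∧ e1 = 3)) (hf : T.d4 = 1 → 1 ≤ f ∧ T.sg e1 = -1)
    (hT : T.Ok) :
    ∀ M : ℕ, 1 ≤ M → ∃ y0 : ℕ, ∀ y : ℕ, y0 ≤ y → ∀ I : ℕ,
    y ^ (2 * M + 4) ≤ I → I ≤ 2 * y ^ (2 * M + 4) → ∃ R : Finset ℕ,
      R.card ≤ f + 3 ∧ (∀ q ∈ R, q.Prime ∧ 5 ≤ q ∧ (q % 8 = 3 ∨ q % 8 = 5)) ∧
      ∏ q ∈ R, q ≤ 2 ^ (I / 16) ∧ Kills T M y e0 R ∧
      (R.filter (fun q => q % 8 = e0)).card ≤ 3 ∧ (R.filter (fun q => q % 8 = e1)).card = f := by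
  obtain ⟨C1, hC1⟩ := h1
  obtain ⟨C2, hC2⟩ := h2
  have he0 : e0 = 3 ∨ e0 = 5 := by omega
  have he1 : e1 = 3 ∨ e1 = 5 := by omega
  have he01 : e0 ≠ e1 := by omega
  intro M hM
  -- the primes of the class `e1`
  obtain ⟨V, hVsub, hVcard⟩ : ∃ V : Finset ℕ,
      (↑V : Set ℕ) ⊆ {p : ℕ | p.Prime ∧ 5 ≤ p ∧ p % 8 = e1} ∧ V.card = f := by
    have hinf : {p : ℕ | p.Prime ∧ 5 ≤ p ∧ p % 8 = e1}.Infinite := by
      have h3 : IsUnit ((e1 : ℕ) : ZMod 8) := by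
        rw [ZMod.isUnit_iff_coprime]
        rcases he1 with h | h <;> rw [h] <;> decide
      have h4 := Nat.infinite_setOf_prime_and_eq_mod h3
      refine (h4.diff (Set.finite_Iio 5)).mono ?_
      intro p hp
      obtain ⟨⟨hp1, hp2⟩, hp3⟩ := hp
      simp only [Set.mem_Iio, not_lt] at hp3
      refine ⟨hp1, hp3, ?_⟩
      rw [ZMod.natCast_eq_natCast_iff] at hp2
      have h5 : p % 8 = e1 % 8 := hp2
      omega
    exact hinf.exists_subset_card_eq _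
  have hV : ∀ q ∈ V, q.Prime ∧ 5 ≤ q ∧ q % 8 = e1 := fun q hq => hVsub (Finset.mem_coe.2 hq)
  set P0 : ℕ := ∏ q ∈ V, q with hP0
  refine ⟨1 + C1 + 8 * C1 + 864 * C2 + 32 * P0, ?_⟩
  intro y hy I hI1 hI2
  have hy1 : 1 ≤ y := by omega
  set Δ : ℕ := 2 ^ (8 * y ^ (2 * M - 1)) with hΔ
  set i : ℕ := kap M y 0 with hi
  have hi' : i = y ^ (2 * M + 2) := by
    rw [hi]; unfold kap; simp
  have hCi : C1 ≤ i := by
    rw [hi']
    calc C1 ≤ y := by omega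
      _ = y ^ 1 := (pow_one y).symm
      _ ≤ y ^ (2 * M + 2) := Nat.pow_le_pow_right hy1 (by omega)
  have hΔC : Δ ^ C1 ≤ 2 ^ i := by
    rw [hΔ, ← pow_mul]
    apply Nat.pow_le_pow_right (by norm_num)
    rw [hi']
    have := rch_pow C1 8 (2 * M - 1) (2 * M + 2) y (by omega) hy1 (by omega)
    calc 8 * y ^ (2 * M - 1) * C1 = 8 * C1 * y ^ (2 * M - 1) := by ring
      _ ≤ _ := this
  -- the strong kernels
  set SB : Finset ℕ := (range (Δ + 1)).filter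
    (fun δ => T.Adm δ ∧ T.StrongAt e0 i δ ∧ 1 < δ) with hSB
  have hSBm : ∀ δ, δ ∈ SB ↔ δ < Δ + 1 ∧ T.Adm δ ∧ T.StrongAt e0 i δ ∧ 1 < δ := by
    intro δ
    rw [hSB, Finset.mem_filter, Finset.mem_range]
  have hSBcard : SB.card ≤ 3 := by
    by_contra hcon
    push Not at hcon
    obtain ⟨a, ha, b, hb, c, hc, d, hd, hab, hac, had, hbc, hbd, hcd⟩ :=
      Finset.three_lt_card.mp hcon
    rw [hSBm] at ha hb hc hd
    obtain ⟨ha1, ha2, ha3, ha4⟩ := ha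
    obtain ⟨hb1, hb2, hb3, hb4⟩ := hb
    obtain ⟨hc1, hc2, hc3, hc4⟩ := hc
    obtain ⟨hd1, hd2, hd3, hd4⟩ := hd
    by_cases hsq : IsSquare (a * b * c)
    · exact hC1 e0 i Δ a b d he0 hCi hΔC ha2 hb2 hd2 ha4 hb4 hd4 (by omega) (by omega) (by omega)
        hab had hbd (triple_sq (by omega) (by omega) hc2.2 hd2.2 hcd hsq) ha3 hb3 hd3
    · exact hC1 e0 i Δ a b c he0 hCi hΔC ha2 hb2 hc2 ha4 hb4 hc4 (by omega) (by omega) (by omega)
        hab hac hbc hsq ha3 hb3 hc3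
  have hch : ∀ δ : ℕ, ∃ q : ℕ, (T.Adm δ ∧ 1 < δ) → (q.Prime ∧ 5 ≤ q ∧ q % 8 = e0 ∧
      T.X q δ = -1 ∧ q ≤ C2 * δ ^ C2) := by
    intro δ
    by_cases h : T.Adm δ ∧ 1 < δ
    · have hsg : -T.sg e0 = 1 ∨ -T.sg e0 = -1 := by
        rcases sg_val T e0 with h' | h' <;> rw [h'] <;> norm_num
      obtain ⟨q, q1, q2, q3, q4, q5⟩ := hC2 δ e0 (-T.sg e0) h.2 h.1.2 (h.1.odd hT) he0 hsg
      refine ⟨q, fun _ => ⟨q1, q2, q3, ?_, q5⟩⟩
      unfold Ty.X J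
      rw [sg_mod T (q := q) (c := e0) (by omega), q4]
      rcases sg_val T e0 with h' | h' <;> rw [h'] <;> norm_num
    · exact ⟨0, fun h' => absurd h' h⟩
  choose qf hqf using hch
  set R : Finset ℕ := SB.image qf with hR
  have hRcard : R.card ≤ 3 := Finset.card_image_le.trans hSBcard
  have hRmem : ∀ q ∈ R, ∃ δ : ℕ, (T.Adm δ ∧ 1 < δ) ∧ δ ≤ Δ ∧ qf δ = q := by
    intro q hq
    rw [hR, Finset.mem_image] at hq
    obtain ⟨δ, hδ, hq⟩ := hq
    rw [hSBm] at hδ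
    exact ⟨δ, ⟨hδ.2.1, hδ.2.2.2⟩, by omega, hq⟩
  have hRpr : ∀ q ∈ R, q.Prime ∧ 5 ≤ q ∧ q % 8 = e0 := by
    intro q hq
    obtain ⟨δ, hδ, _, rfl⟩ := hRmem q hq
    obtain ⟨h3, h4, h5, _⟩ := hqf δ hδ
    exact ⟨h3, h4, h5⟩
  have hRle : ∀ q ∈ R, q ≤ 2 ^ (9 * C2 * y ^ (2 * M - 1)) := by
    intro q hq
    obtain ⟨δ, hδ, hδle, rfl⟩ := hRmem q hq
    obtain ⟨_, _, _, _, h5⟩ := hqf δ hδ
    have hyp : 1 ≤ y ^ (2 * M - 1) := Nat.one_le_pow _ _ hy1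
    calc qf δ ≤ C2 * δ ^ C2 := h5
      _ ≤ 2 ^ C2 * Δ ^ C2 :=
        Nat.mul_le_mul (Nat.lt_two_pow_self).le (Nat.pow_le_pow_left hδle C2)
      _ = 2 ^ (C2 + 8 * y ^ (2 * M - 1) * C2) := by rw [hΔ, ← pow_mul, ← pow_add]
      _ ≤ 2 ^ (9 * C2 * y ^ (2 * M - 1)) := by
        apply Nat.pow_le_pow_right (by norm_num)
        nlinarith [Nat.mul_le_mul_left C2 hyp]
  have hRprod : ∏ q ∈ R, q ≤ 2 ^ (I / 32) := by
    have h3 : ∏ q ∈ R, q ≤ (2 ^ (9 * C2 * y ^ (2 * M - 1))) ^ R.card :=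
      Finset.prod_le_pow_card R (fun q => q) _ hRle
    refine h3.trans ?_
    calc (2 ^ (9 * C2 * y ^ (2 * M - 1))) ^ R.card ≤ (2 ^ (9 * C2 * y ^ (2 * M - 1))) ^ 3 :=
          Nat.pow_le_pow_right (by positivity) hRcard
      _ = 2 ^ (9 * C2 * y ^ (2 * M - 1) * 3) := by rw [← pow_mul]
      _ ≤ 2 ^ (I / 32) := by
        apply Nat.pow_le_pow_right (by norm_num)
        rw [Nat.le_div_iff_mul_le (by norm_num)]
        have := rch_pow C2 864 (2 * M - 1) (2 * M + 4) y (by omega) hy1 (by omega)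
        calc 9 * C2 * y ^ (2 * M - 1) * 3 * 32 = 864 * C2 * y ^ (2 * M - 1) := by ring
          _ ≤ y ^ (2 * M + 4) := this
          _ ≤ I := hI1
  have hdisj : Disjoint R V := by
    rw [Finset.disjoint_left]
    intro q hq hq'
    have h3 := (hRpr q hq).2.2
    have h4 := (hV q hq').2.2
    omega
  have hI32 : P0 ≤ 2 ^ (I / 32) := by
    have h3 : 32 * P0 ≤ I := by
      calc 32 * P0 ≤ y := by omega
        _ = y ^ 1 := (pow_one y).symm
        _ ≤ y ^ (2 * M + 4) := Nat.pow_le_pow_right hy1 (by omega)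
        _ ≤ I := hI1
    calc P0 ≤ I / 32 := by omega
      _ ≤ 2 ^ (I / 32) := Nat.lt_two_pow_self.le
  refine ⟨R ∪ V, ?_, ?_, ?_, ?_, ?_, ?_⟩
  · rw [Finset.card_union_of_disjoint hdisj, hVcard]
    omega
  · intro q hq
    rcases Finset.mem_union.1 hq with h | h
    · obtain ⟨h3, h4, h5⟩ := hRpr q h
      exact ⟨h3, h4, by omega⟩
    · obtain ⟨h3, h4, h5⟩ := hV q h
      exact ⟨h3, h4, by omega⟩
  · rw [Finset.prod_union hdisj]
    calc (∏ q ∈ R, q) * ∏ q ∈ V, q ≤ 2 ^ (I / 32) * 2 ^ (I / 32) :=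
          Nat.mul_le_mul hRprod hI32
      _ = 2 ^ (I / 32 + I / 32) := by rw [pow_add]
      _ ≤ 2 ^ (I / 16) := Nat.pow_le_pow_right (by norm_num) (by omega)
  · intro δ hδ hle hst
    by_cases hδ1 : 1 < δ
    · refine ⟨qf δ, Finset.mem_union_left _ ?_, (hqf δ ⟨hδ, hδ1⟩).2.2.2.1⟩
      rw [hR, Finset.mem_image]
      refine ⟨δ, ?_, rfl⟩
      rw [hSBm]
      exact ⟨Nat.lt_succ_of_le hle, hδ, hst, hδ1⟩
    · have hδ0 := hδ.pos
      have h1 : δ = 1 := by omega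
      subst h1
      have hd : T.d4 = 1 := by
        have := hδ.1
        omega
      obtain ⟨hf1, hf2⟩ := hf hd
      obtain ⟨q, hq⟩ := Finset.card_pos.1 (show 0 < V.card by omega)
      refine ⟨q, Finset.mem_union_right _ hq, ?_⟩
      have hq8 := (hV q hq).2.2
      unfold Ty.X J
      rw [sg_mod T (q := q) (c := e1) (by omega), hf2, jacobiSym.one_right]
      norm_num
  · rw [Finset.filter_union]
    have h3 : V.filter (fun q => q % 8 = e0) = ∅ := by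
      rw [Finset.filter_eq_empty_iff]
      intro q hq
      have := (hV q hq).2.2
      omega
    rw [h3, Finset.union_empty]
    exact (Finset.card_filter_le _ _).trans hRcard
  · rw [Finset.filter_union]
    have h3 : R.filter (fun q => q % 8 = e1) = ∅ := by
      rw [Finset.filter_eq_empty_iff]
      intro q hq
      have := (hRpr q hq).2.2
      omega
    have h4 : V.filter (fun q => q % 8 = e1) = V := by
      rw [Finset.filter_eq_self]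
      intro q hq
      exact (hV q hq).2.2
    rw [h3, h4, Finset.empty_union, hVcard]

end Pool.Agent.L7h67.OD
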