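import Pool.Agent.L7h67.OD.QR
import Pool.Agent.H307R2.OP.SB

set_option autoImplicit false

/-! A strongly biased kernel is bad (adapted from `Pool.Agent.H307R2.OP.SB`) -/

namespace Pool.Agent.L7h67.OD

open Finset
open Pool.Agent.H307R2.OP (J PB BadAt Bad Pr2 kap rr)
open Pool.Agent.H307R2.OP.SBaux (J_tri dvd_of_J)

lemma card_Z (c I i δ : ℕ) (hδ : 1 ≤ δ) (hδI : δ ≤ 2 ^ I) :
    ((PB i c).filter (fun p => J p δ = 0)).card ≤ I := by
  set Z := (PB i c).filter (fun p => J p δ = 0) with hZ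
  have hprime : ∀ p ∈ Z, p.Prime := fun p hp =>
    (mem_filter.1 (mem_filter.1 hp).1).2.1
  have hdvd : ∏ p ∈ Z, p ∣ δ := by
    apply Finset.prod_primes_dvd
    · intro p hp
      exact (hprime p hp).prime
    · intro p hp
      exact dvd_of_J p δ (hprime p hp) hδ (mem_filter.1 hp).2
  have h1 : 2 ^ Z.card ≤ ∏ p ∈ Z, p := by
    rw [← Finset.prod_const]
    exact Finset.prod_le_prod' fun p hp => (hprime p hp).two_le
  have h2 : 2 ^ Z.card ≤ 2 ^ I := h1.trans ((Nat.le_of_dvd (by omega) hdvd).trans hδI)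
  exact (Nat.pow_le_pow_iff_right (by norm_num)).1 h2


lemma X_tri (T : Ty) (p δ : ℕ) : (J p δ = 0 ∧ T.X p δ = 0) ∨ (J p δ ≠ 0 ∧ T.X p δ = 1) ∨
    (J p δ ≠ 0 ∧ T.X p δ = -1) := by
  unfold Ty.X
  rcases sg_val T p with h | h <;> rcases J_tri p δ with h' | h' | h' <;> rw [h, h'] <;> norm_num

open Pool.Agent.H307R2.OP.SBaux in
/-- task B-SB -/
theorem strongBad (T : Ty) (h : PCStmt) : StrongBad T := by
  obtain ⟨i0, hmass⟩ := h.mass
  refine ⟨max i0 100, fun c I i δ hc hC hiI hI hδ hδI hs => ?_⟩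
  refine ⟨c, by rcases hc with h | h <;> rw [h] <;> simp, ?_⟩
  rw [← abs_sum_X T]
  have hi100 : 100 ≤ i := (le_max_right _ _).trans hC
  have hS := hmass i ((le_max_left _ _).trans hC) c hc
  unfold Ty.StrongAt at hs
  have hi0 : (0 : ℝ) < i := by exact_mod_cast (by omega : 0 < i)
  have hiI' : (i : ℝ) ≤ I := by exact_mod_cast hiI
  have hsum : ∑ p ∈ PB i c, (1 : ℝ) / p - ∑ p ∈ (PB i c).filter (fun p => J p δ = 0), (1 : ℝ) / p -
      2 * ∑ p ∈ (PB i c).filter (fun p => T.X p δ = -1), (1 : ℝ) / p ≤ ∑ p ∈ PB i c, T.X p δ / p := by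
    rw [Finset.sum_filter, Finset.sum_filter, Finset.mul_sum, ← Finset.sum_sub_distrib,
      ← Finset.sum_sub_distrib]
    refine Finset.sum_le_sum fun p _ => ?_
    rcases X_tri T p δ with ⟨h0, h0'⟩ | ⟨h0, h0'⟩ | ⟨h0, h0'⟩
    · rw [if_pos h0, h0']; norm_num
    · rw [if_neg h0, h0']; norm_num
    · rw [if_neg h0, h0']
      norm_num
      apply le_of_eq
      ring
  have hZ : ∑ p ∈ (PB i c).filter (fun p => J p δ = 0), (1 : ℝ) / p ≤ 1 / (i : ℝ) ^ 2 := by
    calc ∑ p ∈ (PB i c).filter (fun p => J p δ = 0), (1 : ℝ) / p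
        ≤ ∑ _p ∈ (PB i c).filter (fun p => J p δ = 0), (1 : ℝ) / 2 ^ i := by
          refine Finset.sum_le_sum fun p hp => ?_
          have hp' := (mem_Ioc.1 (mem_filter.1 (mem_filter.1 hp).1).1).1
          apply one_div_le_one_div_of_le (by positivity)
          exact_mod_cast hp'.le
      _ = (((PB i c).filter (fun p => J p δ = 0)).card : ℝ) / 2 ^ i := by
          rw [Finset.sum_const, nsmul_eq_mul, mul_one_div]
      _ ≤ ((2 ^ (i / 4) : ℕ) : ℝ) / 2 ^ i := by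
          apply div_le_div_of_nonneg_right _ (by positivity)
          exact_mod_cast (card_Z c I i δ hδ hδI).trans hI
      _ ≤ _ := small i hi100
  have hI2 : 1 / (I : ℝ) ^ 2 ≤ 1 / (i : ℝ) ^ 2 := by
    apply one_div_le_one_div_of_le (by positivity)
    exact pow_le_pow_left₀ hi0.le hiI' 2
  have h1 : 1 / (i : ℝ) ^ 2 ≤ 1 / 100 * (1 / i) := by
    have h100 : (100 : ℝ) ≤ i := by exact_mod_cast hi100
    rw [pow_two, one_div_mul_one_div]
    exact one_div_le_one_div_of_le (by positivity) (by nlinarith)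
  have h2 : (0 : ℝ) < 1 / i := by positivity
  have h3 : 1 / (6 * (i : ℝ)) = 1 / 6 * (1 / i) := by ring
  rw [h3] at hS
  refine lt_of_lt_of_le ?_ (le_abs_self _)
  linarith

end Pool.Agent.L7h67.OD
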