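import Pool.Agent.H307R2.OP.Final
import Pool.Agent.L7h67.OD.BAD2
import Pool.Agent.L7h67.OD.F1
import Pool.Agent.L7h67.OD.F2
import Pool.Agent.L7h67.OD.FIX
import Pool.Agent.L7h67.OD.SIG
import Pool.Agent.L7h67.OD.T2
import Pool.Agent.L7h67.OD.T3
import Pool.Agent.L7h67.OD.T5
import Pool.Agent.L7h67.OD.TUP
import Pool.Agent.L7h67.OD.LowAP
import Pool.Agent.L7h67.OD.SB
import Pool.Agent.L7h67.OD.PC
import Pool.Agent.L7h67.OD.STR
import Pool.Agent.L7h67.OD.Rch

set_option autoImplicit false

/-! Assembly of the analytic part -/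

namespace Pool.Agent.L7h67.OD

open Pool.Agent.H307R2.OP (es sv badCount bt4)

variable {T : Ty}

theorem badAt_main (hT : T.Ok) : BadAtCount T := badAtCount hT badCount

theorem strong_main (hT : T.Ok) : StrongStmt T := strong hT bt4 pc

theorem fix_main (hT : T.Ok) : FixStmt T := fix hT (qr T hT) sv

theorem sig_main (hT : T.Ok) : SigStmt T := sig (qr T hT)

theorem tupLarge_main (hT : T.Ok) : TupLarge T := tupLarge hT (qr T hT) es tup

theorem tupSmall_main (hT : T.Ok) : TupSmall T := tupSmall (qr T hT) es tup pc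

theorem good_main (hT : T.Ok) : GoodCount T :=
  goodCount hT (qr T hT) es tup (fix_main hT) (sig_main hT)

theorem badSum_main (hT : T.Ok) : BadSum T := badSum (badAt_main hT)

theorem badNum_main (hT : T.Ok) : BadNum T := badNum (badAt_main hT)

theorem strongBad_main : StrongBad T := strongBad T pc

end Pool.Agent.L7h67.OD
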