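import Pool.Agent.H413R3.OddL.STR
import Pool.Agent.L7h67.K4.Stm
import Pool.Agent.L7h67.OD.Defs

set_option autoImplicit false

/-! A small prime of a given class modulo 8 with a given value of the Jacobi symbol -/

namespace Pool.Agent.L7h67.OD

open Pool.Agent.L7h67.K4
open Pool.Agent.H413R3.OddL.STRL (chi exists_c)

namespace KP

/-- the Jacobi symbol as a character -/
noncomputable def Ps0 (δ : ℕ) (h : 1 < δ) : DirichletCharacter ℤ δ where
  toFun x := jacobiSym ((x.val : ℕ) : ℤ) δ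
  map_one' := by
    have : Fact (1 < δ) := ⟨h⟩
    show jacobiSym (((1 : ZMod δ).val : ℕ) : ℤ) δ = 1
    rw [ZMod.val_one]
    exact jacobiSym.one_left δ
  map_mul' x y := by
    have : NeZero δ := ⟨by omega⟩
    show jacobiSym (((x * y : ZMod δ).val : ℕ) : ℤ) δ =
      jacobiSym ((x.val : ℕ) : ℤ) δ * jacobiSym ((y.val : ℕ) : ℤ) δ
    rw [← jacobiSym.mul_left]
    apply jacobiSym.mod_left'
    rw [ZMod.val_mul]
    push_cast
    rw [Int.emod_emod_of_dvd _ (dvd_refl _)]
  map_nonunit' x hx := by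
    have : NeZero δ := ⟨by omega⟩
    show jacobiSym ((x.val : ℕ) : ℤ) δ = 0
    rw [jacobiSym.eq_zero_iff_not_coprime]
    intro h1
    apply hx
    have h2 : IsUnit ((x.val : ℕ) : ZMod δ) := by
      rw [ZMod.isUnit_iff_coprime]
      exact_mod_cast h1
    rwa [ZMod.natCast_zmod_val] at h2

variable {δ : ℕ}

theorem h4 (δ : ℕ) : 4 ∣ 24 * δ := ⟨6 * δ, by ring⟩

theorem h8 (δ : ℕ) : 8 ∣ 24 * δ := ⟨3 * δ, by ring⟩

theorem hd (δ : ℕ) : δ ∣ 24 * δ := ⟨24, by ring⟩

noncomputable def X4 (δ : ℕ) : DirichletCharacter ℤ (24 * δ) :=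
  DirichletCharacter.changeLevel (h4 δ) ZMod.χ₄

noncomputable def X8 (δ : ℕ) : DirichletCharacter ℤ (24 * δ) :=
  DirichletCharacter.changeLevel (h8 δ) ZMod.χ₈

noncomputable def Ps (δ : ℕ) (h : 1 < δ) : DirichletCharacter ℤ (24 * δ) :=
  DirichletCharacter.changeLevel (hd δ) (Ps0 δ h)

theorem X4_val [NeZero (24 * δ)] (u : (ZMod (24 * δ))ˣ) :
    X4 δ (u : ZMod (24 * δ)) = ZMod.χ₄ (((u : ZMod (24 * δ)).val : ℕ) : ZMod 4) := by
  unfold X4
  rw [DirichletCharacter.changeLevel_eq_cast_of_dvd, ZMod.cast_eq_val]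

theorem X8_val [NeZero (24 * δ)] (u : (ZMod (24 * δ))ˣ) :
    X8 δ (u : ZMod (24 * δ)) = ZMod.χ₈ (((u : ZMod (24 * δ)).val : ℕ) : ZMod 8) := by
  unfold X8
  rw [DirichletCharacter.changeLevel_eq_cast_of_dvd, ZMod.cast_eq_val]

theorem Ps_val [NeZero (24 * δ)] (h : 1 < δ) (u : (ZMod (24 * δ))ˣ) :
    Ps δ h (u : ZMod (24 * δ)) = jacobiSym (((u : ZMod (24 * δ)).val : ℕ) : ℤ) δ := by
  unfold Ps
  rw [DirichletCharacter.changeLevel_eq_cast_of_dvd, ZMod.cast_eq_val]
  show jacobiSym ((((((u : ZMod (24 * δ)).val : ℕ) : ZMod δ)).val : ℕ) : ℤ) δ = _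
  rw [ZMod.val_natCast]
  apply jacobiSym.mod_left'
  push_cast
  rw [Int.emod_emod_of_dvd _ (dvd_refl _)]

theorem X4_sq (δ : ℕ) : X4 δ * X4 δ = 1 := by
  unfold X4
  rw [← map_mul]
  have : (ZMod.χ₄ : MulChar (ZMod 4) ℤ) * ZMod.χ₄ = 1 := by
    rw [← pow_two]
    exact ZMod.isQuadratic_χ₄.sq_eq_one
  have h : (ZMod.χ₄ : DirichletCharacter ℤ 4) * ZMod.χ₄ = 1 := this
  rw [h, map_one]

theorem X8_sq (δ : ℕ) : X8 δ * X8 δ = 1 := by
  unfold X8
  rw [← map_mul]
  have : (ZMod.χ₈ : MulChar (ZMod 8) ℤ) * ZMod.χ₈ = 1 := by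
    rw [← pow_two]
    exact ZMod.isQuadratic_χ₈.sq_eq_one
  have h : (ZMod.χ₈ : DirichletCharacter ℤ 8) * ZMod.χ₈ = 1 := this
  rw [h, map_one]

theorem Ps_sq (h : 1 < δ) : Ps δ h * Ps δ h = 1 := by
  unfold Ps
  rw [← map_mul]
  have hq : MulChar.IsQuadratic (Ps0 δ h) := by
    intro a
    show jacobiSym ((a.val : ℕ) : ℤ) δ = 0 ∨ jacobiSym ((a.val : ℕ) : ℤ) δ = 1 ∨
      jacobiSym ((a.val : ℕ) : ℤ) δ = -1
    rcases jacobiSym.trichotomy ((a.val : ℕ) : ℤ) δ with h | h | h <;> simp [h]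
  have : Ps0 δ h * Ps0 δ h = 1 := by
    rw [← pow_two]
    exact hq.sq_eq_one
  rw [this, map_one]

theorem quad_of_sq {m : ℕ} {χ : DirichletCharacter ℤ m} (h : χ * χ = 1) :
    MulChar.IsQuadratic χ := by
  rw [MulChar.isQuadratic_iff_sq_eq_one, pow_two]
  exact h

end KP

open KP in
/-- `KillPrime` from `Kill4` -/
theorem killPrime_of (hk : Kill4) : KillPrime := by
  obtain ⟨C, hC⟩ := hk
  refine ⟨C * 24 ^ C + C, fun δ c σ h1 hsf hodd hc hσ => ?_⟩
  have : NeZero (24 * δ) := ⟨by omega⟩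
  have hm1 : 1 < 24 * δ := by omega
  -- a unit with `ψ = -1`
  have hns : ¬ IsSquare δ := by
    rintro ⟨k, hk⟩
    have h2 := Nat.isUnit_iff.1 (hsf k ⟨1, by rw [hk]; ring⟩)
    rw [h2] at hk
    omega
  obtain ⟨v, hv1, hv2⟩ := exists_c (m := 24 * δ) (D := δ) (h8 δ) (hd δ) hodd hns
  have hv4 : X4 δ (v : ZMod (24 * δ)) = 1 := by
    rw [X4_val, ZMod.χ₄_nat_eq_if_mod_four]
    rw [if_neg (by omega), if_pos (by omega)]
  have hv8 : X8 δ (v : ZMod (24 * δ)) = 1 := by
    rw [X8_val, ZMod.χ₈_nat_eq_if_mod_eight]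
    rw [if_neg (by omega), if_pos (by omega)]
  have hvP : Ps δ h1 (v : ZMod (24 * δ)) = -1 := by
    rw [Ps_val]
    exact hv2
  -- units `≡ 5` and `≡ 3 (mod 8)`
  have hunit : ∀ e : ℕ, e.Coprime 8 → ∃ w : (ZMod (24 * δ))ˣ, (w : ZMod (24 * δ)).val % 8 = e % 8 := by
    intro e he
    obtain ⟨w, hw⟩ := ZMod.unitsMap_surjective (n := 8) (h8 δ) (ZMod.unitOfCoprime e he)
    refine ⟨w, ?_⟩
    have h2 := congrArg (fun x : (ZMod 8)ˣ => (x : ZMod 8)) hw
    simp only [ZMod.coe_unitOfCoprime] at h2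
    rw [ZMod.unitsMap_val, ZMod.cast_eq_val, ZMod.natCast_eq_natCast_iff] at h2
    exact h2
  obtain ⟨w5, hw5⟩ := hunit 5 (by norm_num)
  obtain ⟨w3, hw3⟩ := hunit 3 (by norm_num)
  have h54 : X4 δ (w5 : ZMod (24 * δ)) = 1 := by
    rw [X4_val, ZMod.χ₄_nat_eq_if_mod_four]
    rw [if_neg (by omega), if_pos (by omega)]
  have h58 : X8 δ (w5 : ZMod (24 * δ)) = -1 := by
    rw [X8_val, ZMod.χ₈_nat_eq_if_mod_eight]
    rw [if_neg (by omega), if_neg (by omega)]
  have h34 : X4 δ (w3 : ZMod (24 * δ)) = -1 := by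
    rw [X4_val, ZMod.χ₄_nat_eq_if_mod_four]
    rw [if_neg (by omega), if_neg (by omega)]
  have hne1 : ∀ (χ : DirichletCharacter ℤ (24 * δ)) (u : (ZMod (24 * δ))ˣ),
      χ (u : ZMod (24 * δ)) = -1 → χ ≠ 1 := by
    intro χ u hu h2
    rw [h2, MulChar.one_apply_coe] at hu
    norm_num at hu
  have s4 := X4_sq δ
  have s8 := X8_sq δ
  have sP := Ps_sq h1
  set a := X4 δ with ha
  set b := X8 δ with hb
  set p := Ps δ h1 with hp
  have fin : ∀ q : ℕ, q.Prime → q ≤ C * (24 * δ) ^ C → a (q : ZMod (24 * δ)) ≠ 0 →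
      q.Prime ∧ 5 ≤ q ∧ (a (q : ZMod (24 * δ)) = ZMod.χ₄ ((q : ℕ) : ZMod 4)) ∧
      (b (q : ZMod (24 * δ)) = ZMod.χ₈ ((q : ℕ) : ZMod 8)) ∧
      (p (q : ZMod (24 * δ)) = jacobiSym (q : ℤ) δ) ∧
      q ≤ (C * 24 ^ C + C) * δ ^ (C * 24 ^ C + C) := by
    intro q hq hle hne
    have hun : IsUnit ((q : ℕ) : ZMod (24 * δ)) := by
      by_contra hcon
      exact hne (MulChar.map_nonunit a hcon)
    have hcop : Nat.Coprime q (24 * δ) := (ZMod.isUnit_iff_coprime _ _).1 hun
    have hu : ((ZMod.unitOfCoprime q hcop : (ZMod (24 * δ))ˣ) : ZMod (24 * δ)) =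
        (q : ZMod (24 * δ)) := ZMod.coe_unitOfCoprime q hcop
    have hval : ((q : ZMod (24 * δ))).val = q % (24 * δ) := ZMod.val_natCast _ _
    have e4 := X4_val (ZMod.unitOfCoprime q hcop)
    have e8 := X8_val (ZMod.unitOfCoprime q hcop)
    have eP := Ps_val h1 (ZMod.unitOfCoprime q hcop)
    rw [hu, hval] at e4 e8 eP
    refine ⟨hq, ?_, ?_, ?_, ?_, ?_⟩
    · have h2 : ¬ q ∣ 24 * δ := by
        intro h
        have := Nat.Coprime.eq_one_of_dvd hcop h
        exact hq.one_lt.ne' this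
      by_contra hcon
      have h3 := hq.two_le
      have h5 : q = 2 ∨ q = 3 ∨ q = 4 := by omega
      rcases h5 with rfl | rfl | rfl
      · exact h2 ⟨12 * δ, by ring⟩
      · exact h2 ⟨8 * δ, by ring⟩
      · norm_num at hq
    · rw [e4]
      congr 1
      rw [ZMod.natCast_eq_natCast_iff]
      exact Nat.mod_mod_of_dvd q (h4 δ)
    · rw [e8]
      congr 1
      rw [ZMod.natCast_eq_natCast_iff]
      exact Nat.mod_mod_of_dvd q (h8 δ)
    · rw [eP]
      apply jacobiSym.mod_left'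
      have : q % (24 * δ) % δ = q % δ := Nat.mod_mod_of_dvd _ (hd δ)
      exact_mod_cast this
    · refine hle.trans ?_
      rw [mul_pow, ← mul_assoc]
      apply Nat.mul_le_mul (by omega)
      apply Nat.pow_le_pow_right (by omega)
      omega
  rcases hc with rfl | rfl <;> rcases hσ with rfl | rfl
  · -- c = 3, σ = 1 : χ4, χ8, χ4ψ, χ8ψ
    obtain ⟨q, hq, hqle, hv⟩ := hC (24 * δ) ![a, b, a * p, b * p] hm1
      (by
        intro i
        fin_cases i
        · exact quad_of_sq s4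
        · exact quad_of_sq s8
        · exact quad_of_sq (by
            show a * p * (a * p) = 1
            rw [mul_mul_mul_comm, s4, sP, one_mul])
        · exact quad_of_sq (by
            show b * p * (b * p) = 1
            rw [mul_mul_mul_comm, s8, sP, one_mul]))
      (by
        intro i
        fin_cases i
        · exact hne1 _ w3 h34
        · exact hne1 _ w5 h58
        · exact hne1 _ v (by show (a * p) _ = -1; rw [MulChar.mul_apply, hv4, hvP]; norm_num)
        · exact hne1 _ v (by show (b * p) _ = -1; rw [MulChar.mul_apply, hv8, hvP]; norm_num))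
      (by
        show a * b * (a * p) * (b * p) = 1
        have : a * b * (a * p) * (b * p) = (a * a) * (b * b) * (p * p) := by
          simp only [mul_assoc, mul_comm, mul_left_comm]
        rw [this, s4, s8, sP, one_mul, one_mul])
    have v0 : a (q : ZMod (24 * δ)) = -1 := hv 0
    have v1 : b (q : ZMod (24 * δ)) = -1 := hv 1
    have v2 : (a * p) (q : ZMod (24 * δ)) = -1 := hv 2
    rw [MulChar.mul_apply, v0] at v2
    obtain ⟨f1, f2, f3, f4, f5, f6⟩ := fin q hq hqle (by rw [v0]; norm_num)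
    rw [v0] at f3
    rw [v1] at f4
    refine ⟨q, f1, f2, ?_, ?_, f6⟩
    · rw [ZMod.χ₄_nat_eq_if_mod_four] at f3
      rw [ZMod.χ₈_nat_eq_if_mod_eight] at f4
      split_ifs at f3 f4 <;> omega
    · rw [← f5]; linarith
  · -- c = 3, σ = -1 : χ4, χ8, ψ, χ4χ8ψ
    obtain ⟨q, hq, hqle, hv⟩ := hC (24 * δ) ![a, b, p, a * b * p] hm1
      (by
        intro i
        fin_cases i
        · exact quad_of_sq s4
        · exact quad_of_sq s8
        · exact quad_of_sq sP
        · exact quad_of_sq (by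
            show a * b * p * (a * b * p) = 1
            rw [mul_mul_mul_comm, mul_mul_mul_comm a b, s4, s8, sP, one_mul, one_mul]))
      (by
        intro i
        fin_cases i
        · exact hne1 _ w3 h34
        · exact hne1 _ w5 h58
        · exact hne1 _ v hvP
        · exact hne1 _ v (by
            show (a * b * p) _ = -1
            rw [MulChar.mul_apply, MulChar.mul_apply, hv4, hv8, hvP]; norm_num))
      (by
        show a * b * p * (a * b * p) = 1
        rw [mul_mul_mul_comm, mul_mul_mul_comm a b, s4, s8, sP, one_mul, one_mul])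
    have v0 : a (q : ZMod (24 * δ)) = -1 := hv 0
    have v1 : b (q : ZMod (24 * δ)) = -1 := hv 1
    have v2 : p (q : ZMod (24 * δ)) = -1 := hv 2
    obtain ⟨f1, f2, f3, f4, f5, f6⟩ := fin q hq hqle (by rw [v0]; norm_num)
    rw [v0] at f3
    rw [v1] at f4
    refine ⟨q, f1, f2, ?_, ?_, f6⟩
    · rw [ZMod.χ₄_nat_eq_if_mod_four] at f3
      rw [ZMod.χ₈_nat_eq_if_mod_eight] at f4
      split_ifs at f3 f4 <;> omega
    · rw [← f5, v2]
  · -- c = 5, σ = 1 : χ8, χ4χ8, χ8ψ, χ4χ8ψ
    obtain ⟨q, hq, hqle, hv⟩ := hC (24 * δ) ![b, a * b, b * p, a * b * p] hm1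
      (by
        intro i
        fin_cases i
        · exact quad_of_sq s8
        · exact quad_of_sq (by
            show a * b * (a * b) = 1
            rw [mul_mul_mul_comm, s4, s8, one_mul])
        · exact quad_of_sq (by
            show b * p * (b * p) = 1
            rw [mul_mul_mul_comm, s8, sP, one_mul])
        · exact quad_of_sq (by
            show a * b * p * (a * b * p) = 1
            rw [mul_mul_mul_comm, mul_mul_mul_comm a b, s4, s8, sP, one_mul, one_mul]))
      (by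
        intro i
        fin_cases i
        · exact hne1 _ w5 h58
        · exact hne1 _ w5 (by show (a * b) _ = -1; rw [MulChar.mul_apply, h54, h58]; norm_num)
        · exact hne1 _ v (by show (b * p) _ = -1; rw [MulChar.mul_apply, hv8, hvP]; norm_num)
        · exact hne1 _ v (by
            show (a * b * p) _ = -1
            rw [MulChar.mul_apply, MulChar.mul_apply, hv4, hv8, hvP]; norm_num))
      (by
        show b * (a * b) * (b * p) * (a * b * p) = 1
        have : b * (a * b) * (b * p) * (a * b * p) = (a * a) * ((b * b) * (b * b)) * (p * p) := by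
          simp only [mul_assoc, mul_comm, mul_left_comm]
        rw [this, s4, s8, sP, one_mul, one_mul, one_mul])
    have v0 : b (q : ZMod (24 * δ)) = -1 := hv 0
    have v1 : (a * b) (q : ZMod (24 * δ)) = -1 := hv 1
    have v2 : (b * p) (q : ZMod (24 * δ)) = -1 := hv 2
    rw [MulChar.mul_apply, v0] at v1 v2
    obtain ⟨f1, f2, f3, f4, f5, f6⟩ := fin q hq hqle (by
      intro h0
      rw [h0] at v1
      norm_num at v1)
    have v3 : a (q : ZMod (24 * δ)) = 1 := by linarith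
    rw [v3] at f3
    rw [v0] at f4
    refine ⟨q, f1, f2, ?_, ?_, f6⟩
    · rw [ZMod.χ₄_nat_eq_if_mod_four] at f3
      rw [ZMod.χ₈_nat_eq_if_mod_eight] at f4
      split_ifs at f3 f4 <;> omega
    · rw [← f5]; linarith
  · -- c = 5, σ = -1 : χ8, χ4χ8, ψ, χ4ψ
    obtain ⟨q, hq, hqle, hv⟩ := hC (24 * δ) ![b, a * b, p, a * p] hm1
      (by
        intro i
        fin_cases i
        · exact quad_of_sq s8
        · exact quad_of_sq (by
            show a * b * (a * b) = 1
            rw [mul_mul_mul_comm, s4, s8, one_mul])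
        · exact quad_of_sq sP
        · exact quad_of_sq (by
            show a * p * (a * p) = 1
            rw [mul_mul_mul_comm, s4, sP, one_mul]))
      (by
        intro i
        fin_cases i
        · exact hne1 _ w5 h58
        · exact hne1 _ w5 (by show (a * b) _ = -1; rw [MulChar.mul_apply, h54, h58]; norm_num)
        · exact hne1 _ v hvP
        · exact hne1 _ v (by show (a * p) _ = -1; rw [MulChar.mul_apply, hv4, hvP]; norm_num))
      (by
        show b * (a * b) * p * (a * p) = 1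
        have : b * (a * b) * p * (a * p) = (a * a) * (b * b) * (p * p) := by
          simp only [mul_assoc, mul_comm, mul_left_comm]
        rw [this, s4, s8, sP, one_mul, one_mul])
    have v0 : b (q : ZMod (24 * δ)) = -1 := hv 0
    have v1 : (a * b) (q : ZMod (24 * δ)) = -1 := hv 1
    have v2 : p (q : ZMod (24 * δ)) = -1 := hv 2
    rw [MulChar.mul_apply, v0] at v1
    obtain ⟨f1, f2, f3, f4, f5, f6⟩ := fin q hq hqle (by
      intro h0
      rw [h0] at v1
      norm_num at v1)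
    have v3 : a (q : ZMod (24 * δ)) = 1 := by linarith
    rw [v3] at f3
    rw [v0] at f4
    refine ⟨q, f1, f2, ?_, ?_, f6⟩
    · rw [ZMod.χ₄_nat_eq_if_mod_four] at f3
      rw [ZMod.χ₈_nat_eq_if_mod_eight] at f4
      split_ifs at f3 f4 <;> omega
    · rw [← f5, v2]

end Pool.Agent.L7h67.OD
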