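import Pool.Agent.L7h67.OD.Fin
import Pool.Agent.L7h67.OD.Kp
import Pool.Agent.L7h67.K4.Kill
import Pool.Agent.L7h11.K4.Up
import Pool.Agent.L7h60.K4.Nn

set_option autoImplicit false

/-!
# Odd values of the number of `t`-multipartitions: the exceptional `t`
-/

namespace Pool.Agent.L7h67.OD

open Finset
open Pool.Agent.H307R2.OP (sp)
open Pool.Agent.H307R2.OP.OC (sp_zero sp_pow)
open Pool.Agent.H413R3.OddT (oddAPT sp_two_mul_add)

/-- complements -/
theorem sp_compl (r : ℕ) : ∀ o : ℕ, o < 2 ^ r → sp (2 ^ r - 1 - o) + sp o = sp (2 ^ r - 1) := by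
  induction r with
  | zero =>
    intro o ho
    have h0 : o = 0 := by simpa using ho
    subst h0
    simp [sp_zero]
  | succ r ih =>
    intro o ho
    rw [pow_succ] at ho
    have h1 := ih (o / 2) (by omega)
    have hp : 1 ≤ 2 ^ r := Nat.one_le_two_pow
    have h2 : 2 ^ (r + 1) - 1 - o = 2 * (2 ^ r - 1 - o / 2) + (1 - o % 2) := by
      rw [pow_succ]
      omega
    have h3 : 2 ^ (r + 1) - 1 = 2 * (2 ^ r - 1) + 1 := by
      rw [pow_succ]
      omega
    have h4 := sp_rec o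
    rw [h2, h3, sp_two_mul_add _ _ (by omega), sp_two_mul_add _ _ (by omega)]
    omega

/-- `sp n` is a sum of distinct powers of 4 -/
theorem sp_sum : ∀ n : ℕ, ∃ A : Finset ℕ, sp n = ∑ i ∈ A, 4 ^ i := by
  intro n
  induction n using Nat.strong_induction_on with
  | _ n ih =>
    rcases Nat.eq_zero_or_pos n with h0 | hpos
    · subst h0
      exact ⟨∅, by simp [sp_zero]⟩
    · obtain ⟨A, hA⟩ := ih (n / 2) (by omega)
      have h1 : ∑ i ∈ A.map ⟨Nat.succ, Nat.succ_injective⟩, 4 ^ i = 4 * ∑ i ∈ A, 4 ^ i := by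
        rw [sum_map, mul_sum]
        refine sum_congr rfl fun i _ => ?_
        show 4 ^ (i + 1) = _
        rw [pow_succ']
      rcases Nat.mod_two_eq_zero_or_one n with h2 | h2
      · refine ⟨A.map ⟨Nat.succ, Nat.succ_injective⟩, ?_⟩
        rw [h1, ← hA, sp_rec n, h2, add_zero]
      · refine ⟨insert 0 (A.map ⟨Nat.succ, Nat.succ_injective⟩), ?_⟩
        rw [sum_insert (by simp), h1, ← hA, sp_rec n, h2, pow_zero]
        ring

theorem exc (t : ℕ) (h24 : t % 24 = 23) (hA : ∀ A : Finset ℕ, t + 1 ≠ 24 * ∑ i ∈ A, 4 ^ i) :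
    ∃ r i : ℕ, t < 2 * 4 ^ r ∧ Nat.testBit ((2 * 4 ^ r - t) / 3) (2 * i + 2) = true := by
  by_contra hcon
  push Not at hcon
  obtain ⟨r, hr⟩ : ∃ k, t < 4 ^ k := ⟨t, Nat.lt_pow_self (by norm_num)⟩
  have h43 : (4 : ℕ) ^ r % 3 = 1 := by
    rw [Nat.pow_mod]; norm_num
  have hr1 : 1 ≤ r := by
    rcases Nat.eq_zero_or_pos r with h | h
    · subst h
      simp at hr
      omega
    · exact h
  have h7 : 4 ^ r = 4 * 4 ^ (r - 1) := by
    rw [← pow_succ']
    congr 1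
    omega
  have hb := fun i => hcon r i (by omega)
  set j := (2 * 4 ^ r - t) / 3 with hj
  have hj3 : 3 * j + t = 2 * 4 ^ r := by omega
  obtain ⟨e, o, e1, e2, e3⟩ := digits2 j
  have he2 := sp_rec e
  have ho2 := sp_rec o
  have he1 : e % 2 = 1 := by omega
  have he : e = 1 := by
    apply Nat.eq_of_testBit_eq
    intro i
    rcases i with _ | i
    · simp [he1]
    · have h1 := hb i
      rw [show 2 * i + 2 = 2 * (i + 1) by ring, e2] at h1
      have h2 : Nat.testBit e (i + 1) = false := by simpa using h1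
      rw [h2, Nat.testBit_succ]
      simp
  subst he
  have h1 : sp 1 = 1 := by
    rw [sp_rec, show (1 : ℕ) / 2 = 0 by norm_num, sp_zero]
  rw [h1] at e1
  have holt : o < 2 ^ r := lt_of_sp r o (by omega)
  have h5 := sp_compl r o holt
  have h6 := sp_pow r
  have h8 : t + 1 = 6 * sp (2 ^ r - 1 - o) := by omega
  have h9 := sp_rec (2 ^ r - 1 - o)
  obtain ⟨A, hA'⟩ := sp_sum ((2 ^ r - 1 - o) / 2)
  apply hA A
  rw [← hA']
  have h10 := Nat.mod_lt (2 ^ r - 1 - o) (show 2 > 0 by norm_num)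
  generalize sp ((2 ^ r - 1 - o) / 2) = z at *
  generalize (2 ^ r - 1 - o) % 2 = y at *
  omega

theorem killPrime : KillPrime :=
  killPrime_of (Pool.Agent.L7h67.K4.kill4 Pool.Agent.L7h11.K4.up4 Pool.Agent.L7h11.K4.wt4
    Pool.Agent.L7h60.K4.nn4)

/-- **odd values of `p_t` for all odd `t` except the `24 (4 ^ i + …) - 1`** -/
theorem finalO (t : ℕ) (ht : Odd t) (hA : ∀ A : Finset ℕ, t + 1 ≠ 24 * ∑ i ∈ A, 4 ^ i) :
    ∀ ε : ℝ, 0 < ε → ∃ x0 : ℝ, ∀ x : ℕ, x0 ≤ x → ∀ b ρ : ℕ,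
    (2 : ℝ) ^ b ≤ Real.log x ^ (2 - ε) →
    Real.sqrt x * Real.log x ^ (1 - ε) / 2 ^ b ≤ (oddAPT t b ρ x : ℝ) :=
  finalG killPrime t (Nat.odd_iff.1 ht) (fun h24 => exc t h24 hA)

end Pool.Agent.L7h67.OD
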