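import Pool.Agent.H413R3.OddL.Main
import Pool.Agent.L7h67.OD.Asm

set_option autoImplicit false

/-!
# Odd values of the number of `t`-multipartitions for all odd `t`: counting
(generalisation of `Pool.Agent.H413R3.OddL.Main`)
-/

namespace Pool.Agent.L7h67.OD

open Finset
open Pool.Agent.H307R2.OP (J PB BadAt Bad Pr2 kap rr par_T1 par_T2 par_T2' par_sum)
open Pool.Agent.H307R2.OP.MAINaux (log_small poly_exp stepB)
open Pool.Agent.H413R3.Part (mp)
open Pool.Agent.H413R3.OddT (oddAPT)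

variable {T : Ty}

/-- the arithmetic input: for all large `r` there are exponents `nm r` (of the main class `e0`) and
`no r` (of the class `e1`) such that every product of `nm r` primes of the class `e0` and `no r`
primes of the class `e1` gives an odd value of `p_tt` -/
structure Spec (T : Ty) (tt t' : ℕ) where
  e0 : ℕ
  e1 : ℕ
  f : ℕ
  r0 : ℕ
  nm : ℕ → ℕ
  no : ℕ → ℕ
  he : (e0 = 3 ∧ e1 = 5) ∨ (e0 = 5 ∧ e1 = 3)
  ok : T.Ok
  hd : (t' + T.d4) % 4 = 0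
  hf : T.d4 = 1 → 1 ≤ f ∧ T.sg e1 = -1
  hno : ∀ r, r0 ≤ r → f ≤ no r ∧ no r ≤ 2 ^ r
  hnm : ∀ r, r0 ≤ r → 2 ^ r ≤ 4 * nm r ∧ nm r ≤ 2 ^ r
  alg : ∀ r, r0 ≤ r → ∀ s : Finset ℕ, (∀ q ∈ s, q.Prime ∧ (q % 8 = 3 ∨ q % 8 = 5)) →
    s.card = nm r + no r →
    (s.filter (fun q => q % 8 = 3)).card = (if e0 = 3 then nm r else no r) →
    ∃ n u : ℕ, Odd (mp tt n) ∧ 8 * T.w * n + T.E r * u ^ 2 = T.w * (∏ q ∈ s, q) + t'
  mu : ∀ r, r0 ≤ r → ∃ m : ℕ, T.w * m + t' = T.E r ∧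
    ((m : ℕ) : ZMod 8) = (e0 : ZMod 8) ^ nm r * (e1 : ZMod 8) ^ no r

theorem mod4_kernel : ∀ a < 4, ∀ b < 4, ∀ c < 4, a ^ 2 * b % 4 = c → c % 2 = 1 → b = c := by
  decide

/-- the squarefree kernel of `8 w n - t'` -/
theorem kernelG {t' : ℕ} (hT : T.Ok) (hd : (t' + T.d4) % 4 = 0) (n : ℕ)
    (hn : t' < 8 * T.w * n) :
    ∃ δ s : ℕ, δ * s ^ 2 = 8 * T.w * n - t' ∧ T.Adm δ ∧ 1 ≤ s := by
  obtain ⟨a, b, hab, hsq⟩ := Nat.sq_mul_squarefree (8 * T.w * n - t')
  have hd4 : T.d4 = 1 ∨ T.d4 = 3 := hT.hd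
  refine ⟨a, b, by rw [mul_comm]; exact hab, ⟨?_, hsq⟩, ?_⟩
  · have h0 : 8 * T.w * n = 4 * (2 * T.w * n) := by ring
    have h1 : b ^ 2 * a % 4 = T.d4 := by rw [hab]; omega
    have h2 : (b % 4) ^ 2 * (a % 4) % 4 = T.d4 := by
      rw [← h1]
      simp [Nat.mul_mod, Nat.pow_mod]
    exact mod4_kernel (b % 4) (Nat.mod_lt _ (by norm_num)) (a % 4) (Nat.mod_lt _ (by norm_num))
      T.d4 (by omega) h2 (by omega)
  · rcases Nat.eq_zero_or_pos b with h | h
    · subst h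
      simp at hab
      omega
    · exact h

open Classical in
/-- the counting step -/
theorem stepG (tt t' : ℕ) (hT : T.Ok) (hd : (t' + T.d4) % 4 = 0)
    {M : ℕ} (g : Cfg M) (hok : g.Ok) (y : ℕ) (httI : t' ≤ 2 ^ g.I)
    (b ρ m : ℕ) (hm : T.w * m + t' = T.E g.r) (hb : 8 * 2 ^ b ∣ T.E g.r)
    (key : ∀ t ∈ g.Tup, ∃ n u : ℕ, Odd (mp tt n) ∧
      8 * T.w * n + T.E g.r * u ^ 2 = T.w * g.N t + t' ∧ g.N t ≤ 2 ^ g.I)
    (Bd : ℝ) (hBd : 0 ≤ Bd)
    (hB : ∀ δ s : ℕ, T.Adm δ → ¬ Bad g.I y δ → 1 ≤ s → δ * s ^ 2 ≤ 3 * 2 ^ g.I →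
      (((g.Tup ×ˢ range (2 ^ g.I + 1)).filter
        (fun x => T.w * g.N x.1 = δ * s ^ 2 + T.E g.r * x.2 ^ 2)).card : ℝ) ≤ Bd)
    (hlost : ((g.Tup.filter (fun t => (∃ δ : ℕ, T.Adm δ ∧ Bad g.I y δ ∧
      T.Rep g.r δ (g.N t)) ∨ ∃ e : ℕ, e ≤ t' ∧ ∃ u : ℕ, T.w * g.N t + e = T.E g.r * u ^ 2)).card : ℝ) ≤
        ((g.Tup.filter (fun t => g.N t % (8 * 2 ^ b) = (8 * ρ + m) % (8 * 2 ^ b))).card : ℝ) / 2) :
    ((g.Tup.filter (fun t => g.N t % (8 * 2 ^ b) = (8 * ρ + m) % (8 * 2 ^ b))).card : ℝ) / 2 ≤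
      (oddAPT tt b ρ (2 ^ g.I) : ℝ) * Bd := by
  choose! n u hodd heq hN using key
  have hw0 := hT.w_pos
  have hw3 := hT.w_le
  have hE64 : 64 ≤ T.E g.r := by
    calc 64 = 4 ^ 3 := by norm_num
      _ ≤ 4 ^ g.r := Nat.pow_le_pow_right (by norm_num) hok.hr
      _ ≤ T.E g.r := four_le_E T g.r
  have hu : ∀ t ∈ g.Tup, u t ≤ 2 ^ g.I := by
    intro t ht
    have e1 := heq t ht
    have e2 := hN t ht
    have e3 : 64 * (u t) ^ 2 ≤ T.E g.r * (u t) ^ 2 := Nat.mul_le_mul_right _ hE64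
    have e4 : u t ≤ (u t) ^ 2 := Nat.le_self_pow (by norm_num) _
    have e5 : T.w * g.N t ≤ 3 * 2 ^ g.I := Nat.mul_le_mul hw3 e2
    omega
  have hn : ∀ t ∈ g.Tup, n t ≤ 2 ^ g.I := by
    intro t ht
    have e1 := heq t ht
    have e2 := hN t ht
    have e6 : 0 ≤ T.E g.r * (u t) ^ 2 := Nat.zero_le _
    have e7 : T.w * (8 * n t) ≤ T.w * (g.N t + t') := by
      have e8 : t' ≤ T.w * t' := Nat.le_mul_of_pos_left _ hw0
      calc T.w * (8 * n t) = 8 * T.w * n t := by ring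
        _ ≤ T.w * g.N t + t' := by omega
        _ ≤ T.w * g.N t + T.w * t' := by omega
        _ = T.w * (g.N t + t') := by ring
    have e9 := Nat.le_of_mul_le_mul_left e7 hw0
    omega
  -- the class of `n`
  have hclass : ∀ t ∈ g.Tup, g.N t % (8 * 2 ^ b) = (8 * ρ + m) % (8 * 2 ^ b) →
      n t % 2 ^ b = ρ % 2 ^ b := by
    intro t ht hNt
    have e1 := heq t ht
    have h1 : g.N t ≡ 8 * ρ + m [MOD 8 * 2 ^ b] := hNt
    have h2 : T.E g.r * (u t) ^ 2 ≡ 0 [MOD 8 * 2 ^ b] := by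
      rw [Nat.modEq_zero_iff_dvd]
      exact Dvd.dvd.mul_right hb _
    have h2' : T.E g.r ≡ 0 [MOD 8 * 2 ^ b] := by
      rw [Nat.modEq_zero_iff_dvd]
      exact hb
    have h3 : 8 * T.w * n t ≡ 8 * T.w * ρ [MOD 8 * 2 ^ b] := by
      calc 8 * T.w * n t ≡ 8 * T.w * n t + T.E g.r * (u t) ^ 2 [MOD 8 * 2 ^ b] := by
            simpa using (h2.symm.add_left (8 * T.w * n t))
        _ = T.w * g.N t + t' := e1
        _ ≡ T.w * (8 * ρ + m) + t' [MOD 8 * 2 ^ b] := (h1.mul_left T.w).add_right t'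
        _ = 8 * T.w * ρ + T.E g.r := by rw [← hm]; ring
        _ ≡ 8 * T.w * ρ + 0 [MOD 8 * 2 ^ b] := h2'.add_left _
        _ = 8 * T.w * ρ := by ring
    have h4 : 8 * (T.w * n t) ≡ 8 * (T.w * ρ) [MOD 8 * 2 ^ b] := by
      have e3 : 8 * (T.w * n t) = 8 * T.w * n t := by ring
      have e4 : 8 * (T.w * ρ) = 8 * T.w * ρ := by ring
      rw [e3, e4]
      exact h3
    have h5 : T.w * n t ≡ T.w * ρ [MOD 2 ^ b] := Nat.ModEq.mul_left_cancel' (by norm_num) h4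
    exact Nat.ModEq.cancel_left_of_coprime (by
      show Nat.gcd (2 ^ b) T.w = 1
      apply Nat.Coprime.pow_left
      rcases hT.hw with h | h <;> rw [h]
      · norm_num
      · norm_num) h5
  set T' := g.Tup.filter (fun t => g.N t % (8 * 2 ^ b) = (8 * ρ + m) % (8 * 2 ^ b)) with hT'
  set P : (Σ _ : Fin M → Finset ℕ, ℕ) → Prop := fun t => (∃ δ : ℕ, T.Adm δ ∧ Bad g.I y δ ∧
      T.Rep g.r δ (g.N t)) ∨ ∃ e : ℕ, e ≤ t' ∧ ∃ u : ℕ, T.w * g.N t + e = T.E g.r * u ^ 2 with hP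
  have hsum : (T'.filter P).card + (T'.filter (fun t => ¬ P t)).card = T'.card :=
    Finset.card_filter_add_card_filter_not P
  have hTle : ((T'.filter P).card : ℝ) ≤ ((g.Tup.filter P).card : ℝ) := by
    exact_mod_cast Finset.card_le_card (Finset.filter_subset_filter _ (Finset.filter_subset _ _))
  set Good := T'.filter (fun t => ¬ P t) with hGood
  have hgood : (T'.card : ℝ) / 2 ≤ (Good.card : ℝ) := by
    have : ((T'.filter P).card : ℝ) + (Good.card : ℝ) = (T'.card : ℝ) := by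
      exact_mod_cast hsum
    linarith
  refine hgood.trans ?_
  rw [Finset.card_eq_sum_card_image n Good]
  push_cast
  have himg : Good.image n ⊆
      (range (2 ^ g.I + 1)).filter (fun n => n % 2 ^ b = ρ % 2 ^ b ∧
        Odd (mp tt n)) := by
    intro b' hb'
    obtain ⟨t, ht, rfl⟩ := Finset.mem_image.1 hb'
    have ht0 := (Finset.mem_filter.1 ht).1
    obtain ⟨ht', hcl⟩ := Finset.mem_filter.1 ht0
    rw [Finset.mem_filter, Finset.mem_range]
    exact ⟨Nat.lt_succ_of_le (hn t ht'), hclass t ht' hcl, hodd t ht'⟩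
  have hcardimg : ((Good.image n).card : ℝ) ≤ (oddAPT tt b ρ (2 ^ g.I) : ℝ) := by
    have := Finset.card_le_card himg
    unfold oddAPT
    exact_mod_cast this
  have hfib : ∀ b ∈ Good.image n, ((Good.filter (fun t => n t = b)).card : ℝ) ≤ Bd := by
    intro b hb
    obtain ⟨t, ht, htb⟩ := Finset.mem_image.1 hb
    obtain ⟨ht0, hnp⟩ := Finset.mem_filter.1 ht
    have ht' := (Finset.mem_filter.1 ht0).1
    simp only [hP, not_or, not_exists, not_and] at hnp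
    obtain ⟨hnp1, hnp2⟩ := hnp
    have hb1 : t' < 8 * T.w * b := by
      by_contra hcon
      have e1 := heq t ht'
      rw [htb] at e1
      exact hnp2 (t' - 8 * T.w * b) (by omega) (u t) (by omega)
    obtain ⟨δ, s, hδs, hadm, hs⟩ := kernelG hT hd b hb1
    have e1 := heq t ht'
    have e2 := hN t ht'
    rw [htb] at e1
    have hrep : T.w * g.N t = δ * s ^ 2 + T.E g.r * (u t) ^ 2 := by
      rw [hδs]; omega
    have hnb : ¬ Bad g.I y δ := fun hbad => hnp1 δ hadm hbad ⟨s, u t, hrep⟩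
    have hle : δ * s ^ 2 ≤ 3 * 2 ^ g.I := by
      have e6 : 0 ≤ T.E g.r * (u t) ^ 2 := Nat.zero_le _
      have e5 : T.w * g.N t ≤ 3 * 2 ^ g.I := Nat.mul_le_mul hw3 e2
      omega
    refine le_trans ?_ (hB δ s hadm hnb hs hle)
    have : (Good.filter (fun t => n t = b)).card ≤
        ((g.Tup ×ˢ range (2 ^ g.I + 1)).filter
          (fun x => T.w * g.N x.1 = δ * s ^ 2 + T.E g.r * x.2 ^ 2)).card := by
      refine Finset.card_le_card_of_injOn (fun t => (t, u t)) ?_ ?_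
      · intro t1 ht2
        simp only [Finset.coe_filter, Set.mem_ofPred_eq] at ht2
        obtain ⟨ht3, ht4⟩ := ht2
        have ht5 := (Finset.mem_filter.1 (Finset.mem_filter.1 ht3).1).1
        have e7 := heq t1 ht5
        rw [ht4] at e7
        simp only [Finset.coe_filter, Set.mem_ofPred_eq, Finset.mem_product, Finset.mem_range]
        refine ⟨⟨ht5, Nat.lt_succ_of_le (hu t1 ht5)⟩, ?_⟩
        rw [hδs]; omega
      · intro a _ b _ hab
        exact (Prod.mk.inj hab).1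
    exact_mod_cast this
  calc ∑ b ∈ Good.image n, ((Good.filter (fun t => n t = b)).card : ℝ)
      ≤ ∑ b ∈ Good.image n, Bd := Finset.sum_le_sum hfib
    _ = ((Good.image n).card : ℝ) * Bd := by rw [Finset.sum_const, nsmul_eq_mul]
    _ ≤ (oddAPT tt b ρ (2 ^ g.I) : ℝ) * Bd := mul_le_mul_of_nonneg_right hcardimg hBd

theorem prod_two (M : ℕ) (a b : ZMod 8) (k0 k1 : ℕ → ℕ) :
    ∏ j : Fin (2 * M), (if (j : ℕ) % 2 = 0 then a ^ k0 ((j : ℕ) / 2) else b ^ k1 ((j : ℕ) / 2)) =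
      a ^ (∑ j ∈ range M, k0 j) * b ^ (∑ j ∈ range M, k1 j) := by
  rw [Fin.prod_univ_eq_prod_range
    (fun j => if j % 2 = 0 then a ^ k0 (j / 2) else b ^ k1 (j / 2)) (2 * M)]
  induction M with
  | zero => simp
  | succ n ih =>
    rw [show 2 * (n + 1) = 2 * n + 1 + 1 by ring, Finset.prod_range_succ, Finset.prod_range_succ,
      ih, Finset.sum_range_succ, Finset.sum_range_succ]
    have h1 : 2 * n % 2 = 0 := by omega
    have h2 : (2 * n + 1) % 2 = 1 := by omega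
    have h3 : 2 * n / 2 = n := by omega
    have h4 : (2 * n + 1) / 2 = n := by omega
    rw [h1, h2, h3, h4]
    simp only [if_true, one_ne_zero, if_false]
    rw [pow_add, pow_add]
    ring

theorem castc {q c : ℕ} (h : q % 8 = c) : ((q : ℕ) : ZMod 8) = (c : ZMod 8) := by
  rw [ZMod.natCast_eq_natCast_iff]
  unfold Nat.ModEq
  omega

/-- the numbers of the tuples modulo 8 -/
theorem compatG {M y : ℕ} {k0 k1 : ℕ → ℕ} {e0 e1 r I : ℕ} {R : Finset ℕ}
    (he : (e0 = 3 ∧ e1 = 5) ∨ (e0 = 5 ∧ e1 = 3))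
    (hR : ∀ q ∈ R, q.Prime ∧ 5 ≤ q ∧ (q % 8 = 3 ∨ q % 8 = 5))
    (A : Fin (2 * M) → Finset ℕ) (hA : A ∈ (cfgG M y k0 k1 e0 e1 r I R e0).Fam) (m : ℕ)
    (hm : ((m : ℕ) : ZMod 8) =
      (e0 : ZMod 8) ^ (∑ j ∈ range M, k0 j + (R.filter (fun q => q % 8 = e0)).card + 1) *
      (e1 : ZMod 8) ^ (∑ j ∈ range M, k1 j + (R.filter (fun q => q % 8 = e1)).card)) :
    ((cfgG M y k0 k1 e0 e1 r I R e0).Rp * (cfgG M y k0 k1 e0 e1 r I R e0).Q A *
      (cfgG M y k0 k1 e0 e1 r I R e0).c) % 8 = m % 8 := by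
  set g := cfgG M y k0 k1 e0 e1 r I R e0 with hg
  have hQ : ((g.Q A : ℕ) : ZMod 8) =
      (e0 : ZMod 8) ^ (∑ j ∈ range M, k0 j) * (e1 : ZMod 8) ^ (∑ j ∈ range M, k1 j) := by
    rw [← prod_two]
    unfold Cfg.Q
    push_cast
    refine Finset.prod_congr rfl fun j _ => ?_
    unfold Cfg.Fam at hA
    rw [Fintype.mem_piFinset] at hA
    obtain ⟨hA1, hA2⟩ := Finset.mem_powersetCard.mp (hA j)
    have h1 : ∀ q ∈ A j, ((q : ℕ) : ZMod 8) = ((g.cl j : ℕ) : ZMod 8) := by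
      intro q hq
      have hAj := hA1 hq
      unfold Cfg.Blk PB at hAj
      rw [Finset.mem_sdiff, Finset.mem_filter, Finset.mem_Ioc] at hAj
      exact castc hAj.1.2.2
    rw [Finset.prod_congr rfl h1, Finset.prod_const, hA2]
    show (((if (j : ℕ) % 2 = 0 then e0 else e1 : ℕ)) : ZMod 8) ^
      (if (j : ℕ) % 2 = 0 then k0 ((j : ℕ) / 2) else k1 ((j : ℕ) / 2)) = _
    split_ifs <;> rfl
  have hR' : ((g.Rp : ℕ) : ZMod 8) = (e0 : ZMod 8) ^ (R.filter (fun q => q % 8 = e0)).card *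
      (e1 : ZMod 8) ^ (R.filter (fun q => q % 8 = e1)).card := by
    unfold Cfg.Rp
    push_cast
    show ∏ x ∈ R, (x : ZMod 8) = _
    rw [← Finset.prod_filter_mul_prod_filter_not R (fun q => q % 8 = e0)]
    have h1 : ∏ x ∈ R.filter (fun q => q % 8 = e0), (x : ZMod 8) =
        (e0 : ZMod 8) ^ (R.filter (fun q => q % 8 = e0)).card := by
      rw [Finset.prod_congr rfl (g := fun _ => (e0 : ZMod 8)), Finset.prod_const]
      intro q hq
      exact castc (Finset.mem_filter.1 hq).2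
    have h2 : R.filter (fun q => ¬ q % 8 = e0) = R.filter (fun q => q % 8 = e1) := by
      apply Finset.filter_congr
      intro q hq
      have := (hR q hq).2.2
      omega
    have h3 : ∏ x ∈ R.filter (fun q => ¬ q % 8 = e0), (x : ZMod 8) =
        (e1 : ZMod 8) ^ (R.filter (fun q => q % 8 = e1)).card := by
      rw [h2, Finset.prod_congr rfl (g := fun _ => (e1 : ZMod 8)), Finset.prod_const]
      intro q hq
      exact castc (Finset.mem_filter.1 hq).2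
    rw [h1, h3]
  have h5 : ((g.Rp * g.Q A * g.c : ℕ) : ZMod 8) = ((m : ℕ) : ZMod 8) := by
    rw [hm]
    push_cast
    rw [hQ, hR']
    show _ * ((e0 : ℕ) : ZMod 8) = _
    rw [pow_add, pow_add, pow_add, pow_one]
    ring
  rw [ZMod.natCast_eq_natCast_iff] at h5
  exact h5

/-- the main theorem in terms of the parameter `y` -/
theorem mainYG (hkill : KillPrime) (tt t' : ℕ) (S : Spec T tt t') :
    ∀ M : ℕ, 2 ≤ M → ∃ y0 : ℕ, ∀ y : ℕ, y0 ≤ y → ∀ I : ℕ,
    y ^ (2 * M + 4) ≤ I → I ≤ 2 * y ^ (2 * M + 4) → ∀ b ρ : ℕ, 2 ^ b ≤ y ^ (4 * M - 3) →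
    Real.sqrt (2 ^ I) * (y : ℝ) ^ (2 * M - 3 : ℤ) / 2 ^ b ≤ (oddAPT tt b ρ (2 ^ I) : ℝ) := by
  intro M hM2
  have hM : 1 ≤ M := by omega
  have hT := S.ok
  obtain ⟨K, hK⟩ : ∃ K, K = S.f + 3 := ⟨_, rfl⟩
  obtain ⟨c0, hc0, I1, h2'⟩ := tupLowAP
  obtain ⟨C, hC, I2, h3'⟩ := good_main hT
  obtain ⟨y4, h4'⟩ := parG pc M K hM2
  obtain ⟨y5, h5'⟩ := rchG (strong_main hT) hkill S.e0 S.e1 S.f S.he S.hf hT M hM
  obtain ⟨y6, h6'⟩ := badTotalG hT (qr T hT) tup (tupLarge_main hT) (tupSmall_main hT)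
    (badSum_main hT) (badNum_main hT) strongBad_main pc t' K M hM2 c0 hc0
  obtain ⟨y7, h7'⟩ := poly_exp M
  have hs3 : (0:ℝ) < Real.sqrt 3 := Real.sqrt_pos.2 (by norm_num)
  obtain ⟨y8, h8'⟩ := log_small M
    (c0 / (4 * (8 * 2 ^ (2 * M) * (C * 2 ^ K) * Real.exp (2 * M : ℕ) * Real.sqrt 3)))
    (by positivity)
  refine ⟨y4 + y5 + y6 + y7 + y8 + I1 + I2 + 512 + 64 * M + t' + 64 * K + 32 * 2 ^ S.r0,
    fun y hy I hI1 hI2 b ρ hb => ?_⟩
  have hy20 : 20 ≤ y := by omega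
  have hy1 : 1 ≤ y := by omega
  have hyI : y ≤ y ^ (2 * M + 4) := Nat.le_self_pow (by omega) _
  obtain ⟨R, hRc, hRp, hRle, hkills, hκ3, hf1⟩ := h5' y (by omega) I hI1 hI2
  -- the exponent `r`
  obtain ⟨r, hrdef⟩ : ∃ r, r = rr M y - 2 := ⟨_, rfl⟩
  obtain ⟨Y, hY⟩ : ∃ Y, Y = y ^ (2 * M - 1) := ⟨_, rfl⟩
  have hyY : y ≤ Y := by
    rw [hY]; exact Nat.le_self_pow (by omega) _
  have hr1 : 2 ^ (rr M y - 1) ≤ Y := by rw [hY]; exact par_T1 hy1
  have hr2 : Y < 2 ^ (rr M y) := by rw [hY]; exact par_T2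
  have hrr5 : 5 ≤ rr M y := by
    have e1 : 2 ^ 4 < 2 ^ (rr M y) := by
      have : 2 ^ 4 = 16 := by norm_num
      omega
    exact (Nat.pow_lt_pow_iff_right (by norm_num)).1 e1
  have hrY1 : 2 * 2 ^ r = 2 ^ (rr M y - 1) := by
    rw [hrdef, ← pow_succ']; congr 1; omega
  have hrY2 : 4 * 2 ^ r = 2 ^ (rr M y) := by
    rw [hrdef, show (4 : ℕ) = 2 ^ 2 by norm_num, ← pow_add]; congr 1; omega
  have hr0 : S.r0 ≤ r := by
    have e1 : 2 ^ S.r0 < 2 ^ r := by
      have e2 : 32 * 2 ^ S.r0 ≤ y := by omega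
      omega
    exact ((Nat.pow_lt_pow_iff_right (by norm_num)).1 e1).le
  obtain ⟨hno1, hno2⟩ := S.hno r hr0
  obtain ⟨hnm1, hnm2⟩ := S.hnm r hr0
  obtain ⟨m, hm, hm8⟩ := S.mu r hr0
  set κ := (R.filter (fun q => q % 8 = S.e0)).card with hκdef
  obtain ⟨sg0, hsg0⟩ : ∃ sg0, sg0 = ∑ i ∈ range (M - 1), y ^ (2 * i + 1) := ⟨_, rfl⟩
  have hsg : 64 * sg0 ≤ Y := by
    have h1 := @par_sum M y hy1
    rw [← hsg0, ← hY] at h1
    have h2 : 64 * M ≤ y := by omega
    have h3 : 64 * M ≤ y ^ 2 := h2.trans (Nat.le_self_pow (by norm_num) y)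
    have h4 : sg0 * (64 * M) ≤ M * Y := (Nat.mul_le_mul_left _ h3).trans h1
    have h5 : M * (64 * sg0) ≤ M * Y := by
      calc M * (64 * sg0) = sg0 * (64 * M) := by ring
        _ ≤ _ := h4
    exact Nat.le_of_mul_le_mul_left h5 (by omega)
  -- the numbers of primes of the blocks
  obtain ⟨kl, hkl⟩ : ∃ kl, kl = S.nm r - κ - 1 - sg0 := ⟨_, rfl⟩
  have hkl1 : kl + κ + 1 + sg0 = S.nm r := by omega
  set k0 : ℕ → ℕ := fun j => if j + 1 < M then y ^ (2 * j + 1) else kl with hk0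
  set k1 : ℕ → ℕ := fun j => if j + 1 = M then S.no r - S.f else 0 with hk1
  have hsum0 : ∑ j ∈ range M, k0 j = sg0 + kl := by
    obtain ⟨M', rfl⟩ : ∃ M', M = M' + 1 := ⟨M - 1, by omega⟩
    rw [Finset.sum_range_succ, hsg0]
    congr 1
    · apply Finset.sum_congr (by simp)
      intro j hj
      rw [Finset.mem_range] at hj
      simp only [hk0]
      rw [if_pos (by omega)]
    · simp only [hk0]
      rw [if_neg (by omega)]
  have hsum1 : ∑ j ∈ range M, k1 j = S.no r - S.f := by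
    obtain ⟨M', rfl⟩ : ∃ M', M = M' + 1 := ⟨M - 1, by omega⟩
    rw [Finset.sum_range_succ]
    have h1 : ∑ j ∈ range M', k1 j = 0 := by
      apply Finset.sum_eq_zero
      intro j hj
      rw [Finset.mem_range] at hj
      simp only [hk1]
      rw [if_neg (by omega)]
    rw [h1, zero_add]
    simp [hk1]
  have he1 : S.e1 = 3 ∨ S.e1 = 5 := by have := S.he; omega
  have he0 : S.e0 = 3 ∨ S.e0 = 5 := by have := S.he; omega
  have hRcard : R.card = κ + S.f := by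
    have h1 := Finset.card_filter_add_card_filter_not (s := R) (fun q => q % 8 = S.e0)
    have h2 : R.filter (fun q => ¬ q % 8 = S.e0) = R.filter (fun q => q % 8 = S.e1) := by
      apply Finset.filter_congr
      intro q hq
      have := (hRp q hq).2.2
      have := S.he
      omega
    rw [h2, hf1] at h1
    omega
  have G : GP M y K k0 k1 S.e0 S.e1 r I R S.e0 := by
    refine ⟨he0, he1, he0, by omega, by omega, by omega, hRp, hRle, ?_, ?_, ?_, ?_⟩
    · intro j hj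
      simp only [hk0]
      split_ifs with h
      · omega
      · have : 2 * j + 1 = 2 * M - 1 := by omega
        rw [this, ← hY]
        omega
    · intro j hj
      simp only [hk0]
      split_ifs with h
      · exact le_rfl
      · have : 2 * j + 1 = 2 * M - 1 := by omega
        rw [this, ← hY]
        omega
    · intro j hj
      simp only [hk1]
      split_ifs with h
      · have : 2 * j + 1 = 2 * M - 1 := by omega
        rw [this, ← hY]
        omega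
      · exact Nat.zero_le _
    · rw [hsum0, hsum1, ← hY]
      omega
  obtain ⟨hok, hS, hκ', h2k, hprod, hW⟩ :=
    h4' y (by omega) I hI1 hI2 k0 k1 S.e0 S.e1 r R S.e0 G
  have hlost := h6' y (by omega) I hI1 hI2 k0 k1 S.e0 S.e1 r R S.e0 G hkills
  set g := cfgG M y k0 k1 S.e0 S.e1 r I R S.e0 with hg
  have hgsum : ∑ j, g.k j = sg0 + kl + (S.no r - S.f) := by
    rw [hg, cfgG_sum, hsum0, hsum1]
  have hWpos : 0 < g.W := lt_of_lt_of_le (by positivity) hW
  have hIpow : I ≤ 2 ^ y := hI2.trans (h7' y (by omega))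
  have hL : Nat.log 2 I ≤ y := by
    have := Nat.log_mono_right (b := 2) hIpow
    rwa [Nat.log_pow (by norm_num)] at this
  have hIbig : 4000 * y * (Nat.log 2 I + 1) ≤ I := by
    have e1 : 4000 * y * (Nat.log 2 I + 1) ≤ 4000 * y * (2 * y) :=
      Nat.mul_le_mul_left _ (by omega)
    have e2 : y ^ 6 ≤ y ^ (2 * M + 4) := Nat.pow_le_pow_right (by omega) (by omega)
    have e3 : 20 ^ 4 ≤ y ^ 4 := Nat.pow_le_pow_left hy20 4
    have e4 : 8000 * y ^ 2 ≤ y ^ 6 := by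
      calc 8000 * y ^ 2 ≤ y ^ 4 * y ^ 2 := Nat.mul_le_mul_right _ (by omega)
        _ = y ^ 6 := by ring
    calc 4000 * y * (Nat.log 2 I + 1) ≤ 4000 * y * (2 * y) := e1
      _ = 8000 * y ^ 2 := by ring
      _ ≤ I := by omega
  have hYI : Y ≤ I := by
    refine le_trans ?_ hI1
    rw [hY]
    exact Nat.pow_le_pow_right (by omega) (by omega)
  have hksum : ∑ j, g.k j + g.R.card ≤ I := by
    have e2 : g.R.card = R.card := rfl
    rw [e2, hgsum]
    omega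
  -- the modulus
  have hE : T.E r = 2 ^ T.e0 * 4 ^ r := rfl
  have hmod4 : 8 * 2 ^ b ∣ 4 ^ r := by
    have e1 : 8 * 2 ^ b = 2 ^ (b + 3) := by rw [pow_add]; ring
    have e2 : (4 : ℕ) ^ r = 2 ^ (2 * r) := by
      rw [pow_mul]; norm_num
    rw [e1, e2]
    apply pow_dvd_pow
    have e3 : 2 ^ (b + 3) < 2 ^ (2 * r) := by
      have e4 : 16 * 2 ^ (b + 3) < 16 * 2 ^ (2 * r) := by
        calc 16 * 2 ^ (b + 3) = 128 * 2 ^ b := by rw [← e1]; ring
          _ ≤ y * y ^ (4 * M - 3) := Nat.mul_le_mul (by omega) hb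
          _ = Y * Y := by
              rw [hY, ← pow_add, ← pow_succ']
              congr 1
              omega
          _ < 2 ^ (rr M y) * 2 ^ (rr M y) := Nat.mul_lt_mul'' hr2 hr2
          _ = 16 * 2 ^ (2 * r) := by rw [← hrY2, two_mul, pow_add]; ring
      omega
    exact ((Nat.pow_lt_pow_iff_right (by norm_num)).1 e3).le
  have hmod : 8 * 2 ^ b ∣ T.E r := by
    rw [hE]
    exact Dvd.dvd.mul_left hmod4 _
  have hE8 : 8 ∣ T.E r := Dvd.dvd.trans (Dvd.intro _ rfl) hmod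
  have hm2 : m % 2 = 1 := by
    have e1 : (T.w * m + t') % 2 = 0 := by rw [hm]; omega
    have e2 : t' % 2 = 1 := by
      have := S.hd
      have := hT.hd
      omega
    have e3 : (T.w * m) % 2 = 1 := by omega
    rw [Nat.mul_mod, hT.w_odd, one_mul, Nat.mod_mod] at e3
    exact e3
  have hb32 : 32 * 2 ^ b ≤ I ^ 2 := by
    calc 32 * 2 ^ b ≤ y ^ 2 * y ^ (4 * M - 3) := by
          apply Nat.mul_le_mul _ hb
          nlinarith
      _ = y ^ (4 * M - 1) := by rw [← pow_add]; congr 1; omega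
      _ ≤ y ^ ((2 * M + 4) * 2) := Nat.pow_le_pow_right (by omega) (by omega)
      _ = (y ^ (2 * M + 4)) ^ 2 := by rw [pow_mul]
      _ ≤ I ^ 2 := Nat.pow_le_pow_left hI1 2
  have hTlow := h2' (2 * M) g hok (show I1 ≤ I by omega) h2k b (8 * ρ + m) hb32
    (by omega) (fun A hA => by
      have h8 := compatG S.he hRp A hA m (by
        rw [hm8, hsum0, hsum1, ← hκdef, hf1]
        congr 2
        · omega
        · omega)
      rw [h8]
      omega)
  have hbR : (2 : ℝ) ^ b ≤ (y : ℝ) ^ (4 * M - 3) := by exact_mod_cast hb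
  have hyR : (0:ℝ) < y := by exact_mod_cast (by omega : 0 < y)
  have hIR : (0:ℝ) < I := by
    have : 0 < I := by
      have : 0 < y ^ (2 * M + 4) := by positivity
      omega
    exact_mod_cast this
  have hRpos : (0:ℝ) < (g.Rp : ℝ) := by
    have : 0 < g.Rp := Finset.prod_pos (fun q hq => (hRp q hq).1.pos)
    exact_mod_cast this
  classical
  have hlost' : ((g.Tup.filter (fun t => (∃ δ : ℕ, T.Adm δ ∧
      Bad g.I y δ ∧ T.Rep g.r δ (g.N t)) ∨
      ∃ e : ℕ, e ≤ t' ∧ ∃ u : ℕ, T.w * g.N t + e = T.E g.r * u ^ 2)).card : ℝ) ≤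
      ((g.Tup.filter (fun t => g.N t % (8 * 2 ^ b) =
        (8 * ρ + m) % (8 * 2 ^ b))).card : ℝ) / 2 := by
    have e1 : c0 / (y : ℝ) ^ (4 * M - 3) * (2 ^ I / (g.Rp * I)) *
        (g.W / 2 ^ (2 * M)) * (3 / 8) ≤
        c0 / 2 ^ b * (2 ^ I / (g.Rp * I)) * (g.W / 2 ^ (2 * M)) / 2 := by
      have e2 : c0 / (y : ℝ) ^ (4 * M - 3) ≤ c0 / 2 ^ b :=
        div_le_div_of_nonneg_left hc0.le (by positivity) hbR
      have e3 : 0 ≤ (2 : ℝ) ^ I / (g.Rp * I) * (g.W / 2 ^ (2 * M)) := by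
        positivity
      have e4 := mul_le_mul_of_nonneg_right e2 e3
      have e5 : 0 ≤ c0 / (y : ℝ) ^ (4 * M - 3) *
          ((2 : ℝ) ^ I / (g.Rp * I) * (g.W / 2 ^ (2 * M))) := by positivity
      nlinarith
    have e6 : c0 / 2 ^ b * (2 ^ I / (g.Rp * I)) * (g.W / 2 ^ (2 * M)) / 2 ≤
        ((g.Tup.filter (fun t => g.N t % (8 * 2 ^ b) =
        (8 * ρ + m) % (8 * 2 ^ b))).card : ℝ) / 2 := by
      apply div_le_div_of_nonneg_right _ (by norm_num)
      refine le_trans hTlow (le_of_eq ?_)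
      congr
    refine le_trans (le_trans (le_of_eq ?_) hlost) (e1.trans e6)
    congr
  have key : ∀ t ∈ g.Tup, ∃ n u : ℕ, Odd (mp tt n) ∧
      8 * T.w * n + T.E g.r * u ^ 2 = T.w * g.N t + t' ∧ g.N t ≤ 2 ^ g.I := by
    intro t ht
    obtain ⟨s, hs1, hs2, hs3, hs4, -, -, -, hs8⟩ := tup (2 * M) g hok t ht
    have h1 : s.card = S.nm r + S.no r := by
      rw [hs3, hgsum]
      show _ + R.card + 1 = _
      omega
    have h2 : (s.filter (fun q => q % 8 = 3)).card =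
        (if S.e0 = 3 then S.nm r else S.no r) := by
      rw [hs4]
      show ∑ j : Fin (2 * M), (if (if (j : ℕ) % 2 = 0 then S.e0 else S.e1) = 3 then
        (if (j : ℕ) % 2 = 0 then k0 ((j : ℕ) / 2) else k1 ((j : ℕ) / 2)) else 0) +
        (R.filter (fun q => q % 8 = 3)).card + (if S.e0 = 3 then 1 else 0) = _
      rcases S.he with ⟨h3, h4⟩ | ⟨h3, h4⟩
      · have e1 : ∑ j : Fin (2 * M), (if (if (j : ℕ) % 2 = 0 then S.e0 else S.e1) = 3 then
            (if (j : ℕ) % 2 = 0 then k0 ((j : ℕ) / 2) else k1 ((j : ℕ) / 2)) else 0) =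
            ∑ j ∈ range M, k0 j + ∑ j ∈ range M, (fun _ => 0 : ℕ → ℕ) j := by
          rw [← sum_two]
          refine Finset.sum_congr rfl fun j _ => ?_
          rw [h3, h4]
          by_cases hj : (j : ℕ) % 2 = 0
          · simp [hj]
          · simp [hj]
        have e2 : (R.filter (fun q => q % 8 = 3)).card = κ := by rw [hκdef, h3]
        rw [e1, e2, h3, hsum0]
        simp only [Finset.sum_const_zero, if_true]
        omega
      · have e1 : ∑ j : Fin (2 * M), (if (if (j : ℕ) % 2 = 0 then S.e0 else S.e1) = 3 then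
            (if (j : ℕ) % 2 = 0 then k0 ((j : ℕ) / 2) else k1 ((j : ℕ) / 2)) else 0) =
            ∑ j ∈ range M, (fun _ => 0 : ℕ → ℕ) j + ∑ j ∈ range M, k1 j := by
          rw [← sum_two]
          refine Finset.sum_congr rfl fun j _ => ?_
          rw [h3, h4]
          by_cases hj : (j : ℕ) % 2 = 0
          · simp [hj]
          · simp [hj]
        have e2 : (R.filter (fun q => q % 8 = 3)).card = S.f := by rw [← hf1, h4]
        rw [e1, e2, h3, hsum1]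
        simp only [Finset.sum_const_zero]
        norm_num
        omega
    obtain ⟨n, u, hn, hu⟩ := S.alg r hr0 s (fun q hq => ⟨(hs1 q hq).1, (hs1 q hq).2.2⟩) h1 h2
    rw [hs2] at hu
    exact ⟨n, u, hn, hu, hs8⟩
  have hA := stepG tt t' hT S.hd g hok y
    (by
      show t' ≤ 2 ^ I
      have : I < 2 ^ I := Nat.lt_two_pow_self
      omega) b ρ m hm hmod key
    (C * 2 ^ g.R.card * (g.U / g.Rp) *
      (∏ j, ((g.S j + 1 / (I : ℝ) ^ 2 + g.R.card / 2 ^ (g.κ j)) ^ g.k j /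
        ((g.k j).factorial : ℝ))) * (y * (Nat.log 2 I + 1) / I))
    (by
      have hSnn : ∀ j, 0 ≤ g.S j := fun j => by
        unfold Cfg.S
        exact Finset.sum_nonneg (fun q _ => by positivity)
      have hU : 0 ≤ g.U := by unfold Cfg.U; positivity
      have hp : 0 ≤ (∏ j, ((g.S j + 1 / (I : ℝ) ^ 2 +
        g.R.card / 2 ^ (g.κ j)) ^ g.k j / ((g.k j).factorial : ℝ))) := by
        refine Finset.prod_nonneg (fun j _ => ?_)
        have := hSnn j
        positivity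
      positivity)
    (fun δ s h1 h2 h3 h4 => by
      have h0 := h3' (2 * M) g hok (show I2 ≤ I by omega) y (by omega)
        hIpow hIbig hκ' hksum δ s h1 h2 h3 h4
      refine le_trans (le_of_eq ?_) h0
      congr)
    (by
      refine le_trans (le_of_eq ?_) hlost'
      congr)
  have hSnn' : ∀ j, 0 ≤ g.S j := fun j => by
    unfold Cfg.S
    exact Finset.sum_nonneg (fun q _ => by positivity)
  have hUnn' : 0 ≤ g.U := by unfold Cfg.U; positivity
  have hpnn' : 0 ≤ (∏ j, ((g.S j + 1 / (I : ℝ) ^ 2 + g.R.card / 2 ^ (g.κ j)) ^ g.k j /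
      ((g.k j).factorial : ℝ))) := by
    refine Finset.prod_nonneg (fun j _ => ?_)
    have := hSnn' j
    positivity
  have hC2 : C * 2 ^ g.R.card ≤ (C * 2 ^ K) * 1 := by
    rw [mul_one]
    apply mul_le_mul_of_nonneg_left _ hC.le
    exact pow_le_pow_right₀ (by norm_num) G.hRc
  have hB := stepB (c0 / 2 ^ b) (C * 2 ^ K) I (g.Rp) (g.U) (Real.exp (2 * M : ℕ))
    (g.W) y (Nat.log 2 I + 1) 1
    ((g.Tup.filter (fun t => g.N t % (8 * 2 ^ b) =
        (8 * ρ + m) % (8 * 2 ^ b))).card) (oddAPT tt b ρ (2 ^ I))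
    (∏ j, ((g.S j + 1 / (I : ℝ) ^ 2 + g.R.card / 2 ^ (g.κ j)) ^ g.k j /
        ((g.k j).factorial : ℝ))) (2 ^ (2 * M)) (Real.sqrt 3) (Real.sqrt (2 ^ I))
    (2 ^ r) (by positivity) (by positivity) hIR hRpos (Real.exp_pos _) hWpos hyR (by positivity)
    (by norm_num)
    (by norm_num) (by positivity) hprod (by positivity) (by positivity) hs3 (by positivity)
    (by
      unfold Cfg.U
      rw [Real.sqrt_mul (by norm_num)]
      rfl)
    (by
      rw [Real.sq_sqrt (by positivity)]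
      refine le_trans hTlow (le_of_eq ?_)
      congr)
    (by
      refine le_trans (le_trans (le_of_eq ?_) hA) ?_
      · congr
      · apply mul_le_mul_of_nonneg_left _ (by positivity)
        gcongr)
  refine le_trans ?_ hB
  have h8 := h8' y (by omega) I hI2
  push_cast at h8
  have hr2' : (y:ℝ) ^ (2 * M - 1) ≤ 4 * 2 ^ r := by
    have : Y ≤ 4 * 2 ^ r := by omega
    rw [hY] at this
    exact_mod_cast this
  have hzp : (y : ℝ) ^ (2 * M - 3 : ℤ) = (y:ℝ) ^ (2 * M - 1) / (y:ℝ) ^ 2 := by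
    have e1 : (2 * M - 3 : ℤ) = ((2 * M - 1 : ℕ) : ℤ) - ((2 : ℕ) : ℤ) := by
      have : 1 ≤ 2 * M := by omega
      push_cast [this]
      ring
    rw [e1, zpow_sub₀ hyR.ne', zpow_natCast, zpow_natCast]
  rw [hzp]
  have hsI : 0 < Real.sqrt (2 ^ I) := Real.sqrt_pos.2 (by positivity)
  have hLpos : (0:ℝ) < (Nat.log 2 I : ℝ) + 1 := by positivity
  have hexp : 0 < Real.exp ((2 * M : ℕ) : ℝ) := Real.exp_pos _
  have h2b : (0 : ℝ) < 2 ^ b := by positivity
  obtain ⟨Z, hZ⟩ : ∃ Z : ℝ, Z = 8 * 2 ^ (2 * M) * (C * 2 ^ K) * Real.exp ((2 * M : ℕ) : ℝ) *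
    Real.sqrt 3 := ⟨_, rfl⟩
  have hZ0 : 0 < Z := by rw [hZ]; positivity
  have h8'' : ((Nat.log 2 I : ℝ) + 1) * (4 * Z) ≤ c0 * y := by
    have h9 : ((Nat.log 2 I : ℝ) + 1) ≤ c0 / (4 * Z) * y := by
      rw [hZ]
      push_cast
      exact h8
    rw [div_mul_eq_mul_div, le_div_iff₀ (by positivity)] at h9
    exact h9
  have hsplit : c0 / 2 ^ b * Real.sqrt (2 ^ I) * 2 ^ r /
      (8 * 2 ^ (2 * M) * (C * 2 ^ K) * Real.exp ((2 * M : ℕ) : ℝ) * Real.sqrt 3 * y *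
        ((Nat.log 2 I : ℝ) + 1)) =
      (c0 * Real.sqrt (2 ^ I) * 2 ^ r / (Z * y * ((Nat.log 2 I : ℝ) + 1))) / 2 ^ b := by
    rw [← hZ]
    field_simp
  rw [hsplit]
  apply div_le_div_of_nonneg_right _ h2b.le
  rw [← mul_div_assoc, div_le_div_iff₀ (by positivity) (by positivity)]
  calc Real.sqrt (2 ^ I) * (y:ℝ) ^ (2 * M - 1) * (Z * y * ((Nat.log 2 I : ℝ) + 1))
      ≤ Real.sqrt (2 ^ I) * (4 * 2 ^ r) * (Z * y * ((Nat.log 2 I : ℝ) + 1)) := by gcongr
    _ = Real.sqrt (2 ^ I) * 2 ^ r * y * (((Nat.log 2 I : ℝ) + 1) * (4 * Z)) := by ring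
    _ ≤ Real.sqrt (2 ^ I) * 2 ^ r * y * (c0 * y) := by
        apply mul_le_mul_of_nonneg_left h8'' (by positivity)
    _ = c0 * Real.sqrt (2 ^ I) * 2 ^ r * (y:ℝ) ^ 2 := by ring

end Pool.Agent.L7h67.OD
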