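import Pool.Agent.H413R3.OddT.Fin
import Pool.Agent.L7h67.OD.Main
import Pool.Agent.L7h67.OD.Alg

set_option autoImplicit false

/-!
# Odd values of the number of `t`-multipartitions for all odd `t`
-/

namespace Pool.Agent.L7h67.OD

open Finset
open Pool.Agent.H307R2.OP (sp)
open Pool.Agent.H413R3.Part (mp)
open Pool.Agent.H413R3.OddT (oddAPT oddAPT_mono from_y ocT existsOddT)

/-- the kernels modulo 4 -/
def dd (t : ℕ) : ℕ := if t % 4 = 1 then 3 else 1

theorem dd_add (t : ℕ) (ht : t % 2 = 1) : (t + dd t) % 4 = 0 := by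
  unfold dd
  split_ifs <;> omega

theorem dd_or (t : ℕ) : dd t = 1 ∨ dd t = 3 := by
  unfold dd
  split_ifs <;> simp

theorem dd_one {t : ℕ} (ht : t % 2 = 1) (h : dd t = 1) : t % 4 = 3 := by
  unfold dd at h
  split_ifs at h <;> omega

theorem pow_pred_le {k r : ℕ} (h1 : 1 ≤ k) (h : k + 1 ≤ r) :
    2 ^ r = 2 * 2 ^ (r - 1) ∧ 2 ^ k = 2 * 2 ^ (k - 1) ∧ 2 ^ k ≤ 2 ^ (r - 1) := by
  refine ⟨?_, ?_, Nat.pow_le_pow_right (by norm_num) (by omega)⟩
  · rw [← pow_succ']; congr 1; omega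
  · rw [← pow_succ']; congr 1; omega

/-- `t ≡ 1 (mod 3)` -/
theorem specA (t : ℕ) (h3 : t % 3 = 1) (h2 : t % 2 = 1) :
    Nonempty (Spec ⟨3, 0, dd t⟩ t t) := by
  obtain ⟨k, o, m0, hk1, hm0, ho, hexp⟩ := expA t h3 h2
  refine ⟨{ e0 := 5, e1 := 3, f := o, r0 := k + 1 + o
            nm := fun r => 2 ^ (r - 1) - 2 ^ (k - 1) + m0
            no := fun _ => o
            he := Or.inr ⟨rfl, rfl⟩
            ok := ⟨Or.inr rfl, Or.inl rfl, dd_or t⟩
            hd := dd_add t h2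
            hf := ?_, hno := ?_, hnm := ?_, alg := ?_, mu := ?_ }⟩
  · intro hd
    have hd' : dd t = 1 := hd
    refine ⟨by have := ho (dd_one h2 hd'); omega, ?_⟩
    unfold Ty.sg
    simp only [hd']
    norm_num
  · intro r hr
    refine ⟨le_rfl, ?_⟩
    have h4 : o < 2 ^ o := Nat.lt_two_pow_self
    have h5 : 2 ^ o ≤ 2 ^ r := Nat.pow_le_pow_right (by norm_num) (by omega)
    omega
  · intro r hr
    obtain ⟨a1, a2, a3⟩ := pow_pred_le hk1 (show k + 1 ≤ r by omega)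
    omega
  · intro r hr s hs hcard hf
    rw [if_neg (by norm_num)] at hf
    have h4 := hexp r (by omega)
    have h5 := ocT o (2 ^ (r - 1) - 2 ^ (k - 1) + m0) s hs (by omega) hf
    have e4 : (2 : ℕ) ^ (2 * r) = 4 ^ r := by rw [pow_mul]; norm_num
    obtain ⟨n, u, hn, hu⟩ := existsOddT t (2 * r) _ _ (by rw [e4]; exact h4) h5
    refine ⟨n, u, hn, ?_⟩
    unfold Ty.E
    simp only
    rw [e4] at hu
    rw [pow_zero, one_mul]
    linarith
  · intro r hr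
    refine ⟨2 * sp o + 4 * sp (2 ^ (r - 1) - 2 ^ (k - 1) + m0) + 1, ?_, ?_⟩
    · unfold Ty.E
      simp only
      rw [pow_zero, one_mul]
      exact hexp r (by omega)
    · rw [code_mod8]
      push_cast
      ring

/-- `t ≡ 2 (mod 3)` -/
theorem specB (t : ℕ) (h3 : t % 3 = 2) (h2 : t % 2 = 1)
    (hex : t % 24 = 23 → ∃ r i : ℕ, t < 2 * 4 ^ r ∧
      Nat.testBit ((2 * 4 ^ r - t) / 3) (2 * i + 2) = true) :
    Nonempty (Spec ⟨3, 1, dd t⟩ t t) := by
  obtain ⟨k, o, m0, hok, hm0, hexp⟩ := expB t h3 h2 hex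
  refine ⟨{ e0 := 3, e1 := 5, f := m0, r0 := k + 1 + m0
            nm := fun r => 2 ^ r - 2 ^ k + o
            no := fun _ => m0
            he := Or.inl ⟨rfl, rfl⟩
            ok := ⟨Or.inr rfl, Or.inr rfl, dd_or t⟩
            hd := dd_add t h2
            hf := ?_, hno := ?_, hnm := ?_, alg := ?_, mu := ?_ }⟩
  · intro hd
    have hd' : dd t = 1 := hd
    refine ⟨hm0 (dd_one h2 hd'), ?_⟩
    unfold Ty.sg
    simp only [hd']
    norm_num
  · intro r hr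
    refine ⟨le_rfl, ?_⟩
    have h4 : m0 < 2 ^ m0 := Nat.lt_two_pow_self
    have h5 : 2 ^ m0 ≤ 2 ^ r := Nat.pow_le_pow_right (by norm_num) (by omega)
    omega
  · intro r hr
    have a1 : 2 ^ r = 2 * 2 ^ (r - 1) := by rw [← pow_succ']; congr 1; omega
    have a3 : 2 ^ k ≤ 2 ^ (r - 1) := Nat.pow_le_pow_right (by norm_num) (by omega)
    omega
  · intro r hr s hs hcard hf
    rw [if_pos rfl] at hf
    have h4 := hexp r (by omega)
    have h5 := ocT (2 ^ r - 2 ^ k + o) m0 s hs (by omega) hf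
    have e4 : (2 : ℕ) ^ (2 * r + 1) = 2 * 4 ^ r := by rw [pow_succ, pow_mul]; norm_num; ring
    obtain ⟨n, u, hn, hu⟩ := existsOddT t (2 * r + 1) _ _ (by rw [e4]; exact h4) h5
    refine ⟨n, u, hn, ?_⟩
    unfold Ty.E
    simp only
    rw [e4] at hu
    rw [pow_one]
    linarith
  · intro r hr
    refine ⟨2 * sp (2 ^ r - 2 ^ k + o) + 4 * sp m0 + 1, ?_, ?_⟩
    · unfold Ty.E
      simp only
      rw [pow_one]
      exact hexp r (by omega)
    · rw [code_mod8]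
      push_cast
      ring

/-- `t = 3 s` -/
theorem specC (t s : ℕ) (ht : t = 3 * s) (h2 : s % 2 = 1) :
    Nonempty (Spec ⟨1, 0, dd s⟩ t s) := by
  obtain ⟨k, o, m0, hk1, hok, hm0, hexp⟩ := expC s h2
  refine ⟨{ e0 := 5, e1 := 3, f := 1, r0 := k + 1
            nm := fun r => 2 ^ (r - 1) - 2 ^ (k - 1) + m0
            no := fun r => 2 ^ r - 2 ^ k + o
            he := Or.inr ⟨rfl, rfl⟩
            ok := ⟨Or.inl rfl, Or.inl rfl, dd_or s⟩
            hd := dd_add s h2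
            hf := ?_, hno := ?_, hnm := ?_, alg := ?_, mu := ?_ }⟩
  · intro hd
    have hd' : dd s = 1 := hd
    refine ⟨le_rfl, ?_⟩
    unfold Ty.sg
    simp only [hd']
    norm_num
  · intro r hr
    obtain ⟨a1, a2, a3⟩ := pow_pred_le hk1 (show k + 1 ≤ r by omega)
    have a4 : 1 ≤ 2 ^ (r - 1) := Nat.one_le_two_pow
    omega
  · intro r hr
    obtain ⟨a1, a2, a3⟩ := pow_pred_le hk1 (show k + 1 ≤ r by omega)
    omega
  · intro r hr S hs hcard hf
    rw [if_neg (by norm_num)] at hf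
    have h4 := hexp r (by omega)
    have h5 := ocT (2 ^ r - 2 ^ k + o) (2 ^ (r - 1) - 2 ^ (k - 1) + m0) S hs (by omega) hf
    have e4 : (2 : ℕ) ^ (2 * r) = 4 ^ r := by rw [pow_mul]; norm_num
    obtain ⟨n, u, hn, hu⟩ := existsOddC t s (2 * r) _ _ ht (by rw [e4]; exact h4) h5
    refine ⟨n, u, hn, ?_⟩
    unfold Ty.E
    simp only
    rw [e4] at hu
    rw [pow_zero, one_mul]
    linarith
  · intro r hr
    refine ⟨2 * sp (2 ^ r - 2 ^ k + o) + 4 * sp (2 ^ (r - 1) - 2 ^ (k - 1) + m0) + 1, ?_, ?_⟩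
    · unfold Ty.E
      simp only
      rw [pow_zero, one_mul, one_mul]
      exact hexp r (by omega)
    · rw [code_mod8]
      push_cast
      ring

/-- **odd values of `p_t` for (almost) all odd `t`** -/
theorem finalG (hkill : KillPrime) (t : ℕ) (ht : t % 2 = 1)
    (hex : t % 24 = 23 → ∃ r i : ℕ, t < 2 * 4 ^ r ∧
      Nat.testBit ((2 * 4 ^ r - t) / 3) (2 * i + 2) = true) :
    ∀ ε : ℝ, 0 < ε → ∃ x0 : ℝ, ∀ x : ℕ, x0 ≤ x → ∀ b ρ : ℕ,
    (2 : ℝ) ^ b ≤ Real.log x ^ (2 - ε) →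
    Real.sqrt x * Real.log x ^ (1 - ε) / 2 ^ b ≤ (oddAPT t b ρ x : ℝ) := by
  have h3 : t % 3 = 0 ∨ t % 3 = 1 ∨ t % 3 = 2 := by omega
  rcases h3 with h3 | h3 | h3
  · obtain ⟨s, hs⟩ : ∃ s, t = 3 * s := ⟨t / 3, by omega⟩
    obtain ⟨S⟩ := specC t s hs (by omega)
    exact from_y (oddAPT t) (oddAPT_mono t) (mainYG hkill t s S)
  · obtain ⟨S⟩ := specA t h3 ht
    exact from_y (oddAPT t) (oddAPT_mono t) (mainYG hkill t t S)
  · obtain ⟨S⟩ := specB t h3 ht hex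
    exact from_y (oddAPT t) (oddAPT_mono t) (mainYG hkill t t S)

end Pool.Agent.L7h67.OD
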